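import Mathlib

/-! Elementary facts on finite `p`-groups of bounded rank. -/

namespace Pool.Agent.Lib.MP_2551c4_al

open Subgroup
open scoped commutatorElement

set_option linter.unusedSectionVars false

universe u

variable {G : Type u} [Group G]

/-- every subgroup is generated by at most `r` elements -/
def RankLe (G : Type u) [Group G] (r : ℕ) : Prop :=
  ∀ H : Subgroup G, ∃ s : Finset G, s.card ≤ r ∧ Subgroup.closure (s : Set G) = H

theorem RankLe.of_surjective {G' : Type u} [Group G'] {r : ℕ} (h : RankLe G r) (f : G →* G')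
    (hf : Function.Surjective f) : RankLe G' r := by
  classical
  intro H
  obtain ⟨s, hs, hH⟩ := h (H.comap f)
  refine ⟨s.image f, Finset.card_image_le.trans hs, ?_⟩
  rw [Finset.coe_image, ← MonoidHom.map_closure, hH, map_comap_eq_self_of_surjective hf]

theorem exists_fin_gen {r : ℕ} {s : Finset G} (hs : s.card ≤ r) :
    ∃ x : Fin r → G, (∀ i, x i ∈ s ∨ x i = 1) ∧ Subgroup.closure (Set.range x) = Subgroup.closure (s : Set G) := by
  classical
  let e := s.equivFin
  refine ⟨fun i => if h : (i : ℕ) < s.card then (e.symm ⟨i, h⟩ : G) else 1, ?_, ?_⟩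
  · intro i
    by_cases h : (i : ℕ) < s.card
    · left; simp [h]
    · right; simp [h]
  · apply le_antisymm
    · rw [Subgroup.closure_le]
      rintro _ ⟨i, rfl⟩
      by_cases h : (i : ℕ) < s.card
      · simp only [h, dite_true]
        exact Subgroup.subset_closure (e.symm ⟨i, h⟩).2
      · simp only [h, dite_false]
        exact one_mem _
    · rw [Subgroup.closure_le]
      intro y hy
      refine Subgroup.subset_closure ⟨⟨(e ⟨y, hy⟩ : ℕ), lt_of_lt_of_le (e ⟨y, hy⟩).2 hs⟩, ?_⟩
      simp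

theorem RankLe.fin_gen {r : ℕ} (h : RankLe G r) (H : Subgroup G) :
    ∃ x : Fin r → G, (∀ i, x i ∈ H) ∧ Subgroup.closure (Set.range x) = H := by
  obtain ⟨s, hs, hH⟩ := h H
  obtain ⟨x, -, hx⟩ := exists_fin_gen hs
  refine ⟨x, fun i => ?_, hx.trans hH⟩
  rw [← hH, ← hx]
  exact Subgroup.subset_closure ⟨i, rfl⟩

/-- iterated commutator `[B, M, ..., M]` -/
def itc (M B : Subgroup G) : ℕ → Subgroup G
  | 0 => B
  | n + 1 => ⁅itc M B n, M⁆

@[simp] theorem itc_zero (M B : Subgroup G) : itc M B 0 = B := rfl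

theorem itc_succ (M B : Subgroup G) (n : ℕ) : itc M B (n + 1) = ⁅itc M B n, M⁆ := rfl

theorem itc_succ' (M B : Subgroup G) (n : ℕ) : itc M B (n + 1) = itc M ⁅B, M⁆ n := by
  induction n with
  | zero => rfl
  | succ n ih => rw [itc_succ, ih, itc_succ]

theorem itc_add (M B : Subgroup G) (m n : ℕ) : itc M B (m + n) = itc M (itc M B m) n := by
  induction n with
  | zero => rfl
  | succ n ih => rw [← add_assoc, itc_succ, ih, itc_succ]

instance itc_normal (M B : Subgroup G) [M.Normal] [B.Normal] (n : ℕ) : (itc M B n).Normal := by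
  induction n with
  | zero => simpa
  | succ n ih => rw [itc_succ]; infer_instance

theorem itc_mono {M M' B B' : Subgroup G} (hM : M ≤ M') (hB : B ≤ B') (n : ℕ) :
    itc M B n ≤ itc M' B' n := by
  induction n with
  | zero => exact hB
  | succ n ih => exact commutator_mono ih hM

theorem itc_eq_lcs (N : Subgroup G) (n : ℕ) : itc N N n = N.lowerCentralSeries n := by
  induction n with
  | zero => rfl
  | succ n ih => rw [itc_succ, ih, Subgroup.lowerCentralSeries_succ]

theorem itc_le (M B : Subgroup G) [B.Normal] (n : ℕ) : itc M B n ≤ B := by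
  induction n with
  | zero => exact le_rfl
  | succ n ih => exact (commutator_mono ih le_rfl).trans (commutator_le_left _ _)

theorem itc_anti (M B : Subgroup G) [M.Normal] [B.Normal] {m n : ℕ} (h : m ≤ n) :
    itc M B n ≤ itc M B m := by
  obtain ⟨k, rfl⟩ := Nat.exists_eq_add_of_le h
  rw [itc_add]
  exact itc_le _ _ _

theorem map_itc {G' : Type u} [Group G'] (f : G →* G') (M B : Subgroup G) (n : ℕ) :
    (itc M B n).map f = itc (M.map f) (B.map f) n := by
  induction n with
  | zero => rfl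
  | succ n ih => rw [itc_succ, map_commutator, ih, itc_succ]

theorem commutator_sup_le (X B M : Subgroup G) [B.Normal] : ⁅X ⊔ B, M⁆ ≤ ⁅X, M⁆ ⊔ B := by
  rw [commutator_le]
  intro z hz g hg
  obtain ⟨x, hx, b, hb, rfl⟩ := (mem_sup_of_normal_right).1 hz
  have : ⁅x * b, g⁆ = (x * ⁅b, g⁆ * x⁻¹) * ⁅x, g⁆ := by
    simp only [commutatorElement_def]; group
  rw [this]
  refine mul_mem (mem_sup_right ?_) (mem_sup_left (commutator_mem_commutator hx hg))
  refine Normal.conj_mem inferInstance _ ?_ _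
  exact commutator_le_left B ⊤ (commutator_mem_commutator hb (mem_top _))

theorem three_subgroups (H₁ H₂ H₃ K : Subgroup G) [K.Normal] (h1 : ⁅⁅H₂, H₃⁆, H₁⁆ ≤ K)
    (h2 : ⁅⁅H₃, H₁⁆, H₂⁆ ≤ K) : ⁅⁅H₁, H₂⁆, H₃⁆ ≤ K := by
  have key : ∀ X : Subgroup G, X ≤ K ↔ X.map (QuotientGroup.mk' K) = ⊥ := by
    intro X
    rw [Subgroup.map_eq_bot_iff, QuotientGroup.ker_mk']
  rw [key] at h1 h2 ⊢
  simp only [map_commutator] at h1 h2 ⊢
  exact commutator_commutator_eq_bot_of_rotate h1 h2

theorem commutator_lcs_le (N : Subgroup G) [N.Normal] (j : ℕ) :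
    ∀ (B : Subgroup G) [B.Normal], ⁅B, N.lowerCentralSeries j⁆ ≤ itc N B (j + 1) := by
  induction j with
  | zero => intro B _; exact le_rfl
  | succ j ih =>
    intro B _
    rw [Subgroup.lowerCentralSeries_succ, commutator_comm]
    apply three_subgroups
    · rw [commutator_comm N B, itc_succ' N B (j + 1)]
      exact ih _
    · rw [itc_succ N B (j + 1)]
      exact commutator_mono (ih B) le_rfl

theorem commutator_lcs_lcs (N : Subgroup G) [N.Normal] (i j : ℕ) :
    ⁅N.lowerCentralSeries i, N.lowerCentralSeries j⁆ ≤ N.lowerCentralSeries (i + j + 1) := by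
  refine (commutator_lcs_le N j _).trans (le_of_eq ?_)
  rw [← itc_eq_lcs, ← itc_add, itc_eq_lcs, add_assoc]

section PGroup

variable {p : ℕ} [hp : Fact p.Prime] [Finite G]

theorem exists_itc_eq_bot (hG : IsPGroup p G) : ∃ n, ∀ M B : Subgroup G, itc M B n = ⊥ := by
  have := hG.isNilpotent
  obtain ⟨n, hn⟩ := (Subgroup.nilpotent_iff_lowerCentralSeries (G := G)).1 this
  refine ⟨n, fun M B => ?_⟩
  rw [eq_bot_iff, ← hn, ← itc_eq_lcs]
  exact itc_mono le_top le_top n

theorem le_of_le_commutator_sup (hG : IsPGroup p G) {X B M : Subgroup G} [B.Normal]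
    (h : X ≤ ⁅X, M⁆ ⊔ B) : X ≤ B := by
  obtain ⟨n, hn⟩ := exists_itc_eq_bot hG
  have : ∀ k, X ≤ itc M X k ⊔ B := by
    intro k
    induction k with
    | zero => exact le_sup_left
    | succ k ih =>
      refine h.trans (sup_le ?_ le_sup_right)
      exact (commutator_mono ih le_rfl).trans (commutator_sup_le _ _ _)
  simpa [hn] using this n

theorem mul_card_le_of_lt (hG : IsPGroup p G) {K L : Subgroup G} (h : K < L) :
    p * Nat.card K ≤ Nat.card L := by
  obtain ⟨a, ha⟩ := IsPGroup.iff_card.1 (hG.to_subgroup K)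
  obtain ⟨b, hb⟩ := IsPGroup.iff_card.1 (hG.to_subgroup L)
  have hlt : Nat.card K < Nat.card L := by
    refine lt_of_le_of_ne (card_le_of_le h.le) fun he => h.ne ?_
    exact eq_of_le_of_card_ge h.le he.ge
  rw [ha, hb] at hlt ⊢
  have := (Nat.pow_lt_pow_iff_right hp.out.one_lt).1 hlt
  rw [← pow_succ']
  exact Nat.pow_le_pow_right hp.out.pos this

theorem itc_le_of_card (hG : IsPGroup p G) (B : Subgroup G) [B.Normal] (a : ℕ) :
    ∀ (X : Subgroup G) [X.Normal], B ≤ X → Nat.card X ≤ p ^ a * Nat.card B →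
      itc ⊤ X a ≤ B := by
  induction a with
  | zero =>
    intro X _ hB hc
    simp only [pow_zero, one_mul] at hc
    exact (eq_of_le_of_card_ge hB hc).ge
  | succ a ih =>
    intro X _ hB hc
    by_cases hX : X ≤ B
    · exact (itc_le _ _ _).trans hX
    · have hle : ⁅X, (⊤ : Subgroup G)⁆ ⊔ B ≤ X := sup_le (commutator_le_left _ _) hB
      have hlt : ⁅X, (⊤ : Subgroup G)⁆ ⊔ B < X := by
        refine lt_of_le_of_ne hle fun he => hX ?_
        exact le_of_le_commutator_sup hG he.ge
      have h1 := mul_card_le_of_lt hG hlt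
      have h2 : Nat.card (⁅X, (⊤ : Subgroup G)⁆ ⊔ B : Subgroup G) ≤ p ^ a * Nat.card B := by
        refine Nat.le_of_mul_le_mul_left ?_ hp.out.pos
        calc _ ≤ _ := h1
          _ ≤ _ := hc
          _ = _ := by ring
      rw [itc_succ']
      exact (itc_mono le_rfl le_sup_left a).trans (ih _ le_sup_right h2)

end PGroup

theorem card_le_of_gen [Finite G] {H B : Subgroup G} (hB : B ≤ H) (hc : ⁅H, H⁆ ≤ B) {q : ℕ}
    (hq0 : 0 < q) (s : Finset G) : (∀ x ∈ s, x ∈ H) → (∀ x ∈ s, x ^ q ∈ B) →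
    Nat.card (Subgroup.closure (s : Set G) ⊔ B : Subgroup G) ≤ q ^ s.card * Nat.card B := by
  classical
  induction s using Finset.induction_on with
  | empty => intro _ _; simp
  | insert x s hx ih =>
    intro hs hq
    have ih' := ih (fun y hy => hs y (Finset.mem_insert_of_mem hy))
      (fun y hy => hq y (Finset.mem_insert_of_mem hy))
    set K : Subgroup G := Subgroup.closure (s : Set G) ⊔ B with hK
    have hxH : x ∈ H := hs x (Finset.mem_insert_self _ _)
    have hKH : K ≤ H := sup_le ((Subgroup.closure_le _).2 fun y hy => hs y (Finset.mem_insert_of_mem hy)) hB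
    have hconj : ∀ y ∈ H, ∀ k ∈ K, y * k * y⁻¹ ∈ K := by
      intro y hy k hk
      have : y * k * y⁻¹ = ⁅y, k⁆ * k := by simp [commutatorElement_def]
      rw [this]
      exact mul_mem (mem_sup_right (hc (commutator_mem_commutator hy (hKH hk)))) hk
    let S : Subgroup G :=
      { carrier := {y | ∃ i : ℤ, ∃ k ∈ K, y = x ^ i * k}
        one_mem' := ⟨0, 1, one_mem _, by simp⟩
        mul_mem' := by
          rintro _ _ ⟨i, k, hk, rfl⟩ ⟨j, k', hk', rfl⟩
          refine ⟨i + j, (x ^ (-j) * k * (x ^ (-j))⁻¹) * k',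
            mul_mem (hconj _ (zpow_mem hxH _) _ hk) hk', ?_⟩
          group
        inv_mem' := by
          rintro _ ⟨i, k, hk, rfl⟩
          refine ⟨-i, x ^ i * k⁻¹ * (x ^ i)⁻¹, hconj _ (zpow_mem hxH _) _ (inv_mem hk), ?_⟩
          group }
    have hS : (Subgroup.closure ((insert x s : Finset G) : Set G) ⊔ B : Subgroup G) ≤ S := by
      refine sup_le ((Subgroup.closure_le _).2 ?_) fun b hb => ⟨0, b, mem_sup_right hb, by simp⟩
      intro y hy
      rcases Finset.mem_insert.1 hy with rfl | hy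
      · exact ⟨1, 1, one_mem _, by simp⟩
      · exact ⟨0, y, mem_sup_left (Subgroup.subset_closure hy), by simp⟩
    have hcard : Nat.card S ≤ q * Nat.card K := by
      let f : Fin q × K → S := fun z => ⟨x ^ (z.1 : ℕ) * z.2, ⟨(z.1 : ℕ), z.2, z.2.2, by simp⟩⟩
      have hf : Function.Surjective f := by
        rintro ⟨_, i, k, hk, rfl⟩
        have hq' : (0 : ℤ) < q := by exact_mod_cast hq0
        have h0 : 0 ≤ i % q := Int.emod_nonneg _ hq'.ne'
        have h1 : i % q < q := Int.emod_lt_of_pos _ hq'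
        refine ⟨(⟨(i % q).toNat, by omega⟩, ⟨(x ^ q) ^ (i / q) * k,
          mul_mem (zpow_mem (mem_sup_right (hq x (Finset.mem_insert_self _ _))) _) hk⟩), ?_⟩
        apply Subtype.ext
        simp only [f]
        rw [← mul_assoc, ← zpow_natCast, ← zpow_natCast x q, ← zpow_mul, ← zpow_add,
          Int.toNat_of_nonneg h0, Int.emod_add_mul_ediv]
      simpa using Nat.card_le_card_of_surjective f hf
    calc _ ≤ Nat.card S := card_le_of_le hS
      _ ≤ q * Nat.card K := hcard
      _ ≤ q * (q ^ s.card * Nat.card B) := Nat.mul_le_mul_left _ ih'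
      _ = _ := by rw [Finset.card_insert_of_notMem hx]; ring

theorem RankLe.card_le [Finite G] {r : ℕ} (h : RankLe G r) {H B : Subgroup G} (hB : B ≤ H)
    (hc : ⁅H, H⁆ ≤ B) {q : ℕ} (hq0 : 0 < q) (hq : ∀ x ∈ H, x ^ q ∈ B) :
    Nat.card H ≤ q ^ r * Nat.card B := by
  obtain ⟨s, hs, hH⟩ := h H
  have hsH : ∀ x ∈ s, x ∈ H := fun x hx => hH ▸ Subgroup.subset_closure hx
  have := card_le_of_gen hB hc hq0 s hsH (fun x hx => hq x (hsH x hx))
  rw [hH, sup_eq_left.2 hB] at this
  exact this.trans (Nat.mul_le_mul_right _ (Nat.pow_le_pow_right hq0 hs))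

/-- the subgroup `[H,H] H^p` -/
def phi (p : ℕ) (H : Subgroup G) : Subgroup G :=
  ⁅H, H⁆ ⊔ Subgroup.closure ((fun x => x ^ p) '' (H : Set G))

theorem phi_le (p : ℕ) (H : Subgroup G) : phi p H ≤ H := by
  refine sup_le (commutator_le_self H) ((Subgroup.closure_le _).2 ?_)
  rintro _ ⟨x, hx, rfl⟩
  exact pow_mem hx p

theorem phi_mono (p : ℕ) {H K : Subgroup G} (h : H ≤ K) : phi p H ≤ phi p K :=
  sup_le_sup (commutator_mono h h) (Subgroup.closure_mono (Set.image_mono h))

theorem pow_mem_phi (p : ℕ) {H : Subgroup G} {x : G} (hx : x ∈ H) : x ^ p ∈ phi p H :=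
  mem_sup_right (Subgroup.subset_closure ⟨x, hx, rfl⟩)

theorem map_phi {G' : Type u} [Group G'] (f : G →* G') (p : ℕ) (H : Subgroup G) :
    (phi p H).map f = phi p (H.map f) := by
  simp only [phi, Subgroup.map_sup, map_commutator, MonoidHom.map_closure, coe_map, Set.image_image,
    map_pow]

theorem closure_pow_normal (q : ℕ) (H : Subgroup G) [hH : H.Normal] :
    (Subgroup.closure ((fun x => x ^ q) '' (H : Set G))).Normal := by
  constructor
  intro n hn g
  induction hn using Subgroup.closure_induction with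
  | mem x hx =>
    obtain ⟨y, hy, rfl⟩ := hx
    refine Subgroup.subset_closure ⟨g * y * g⁻¹, hH.conj_mem y hy g, ?_⟩
    simp [conj_pow]
  | one => simp
  | mul x y _ _ hx hy =>
    have : g * (x * y) * g⁻¹ = (g * x * g⁻¹) * (g * y * g⁻¹) := by group
    rw [this]; exact mul_mem hx hy
  | inv x _ hx =>
    have : g * x⁻¹ * g⁻¹ = (g * x * g⁻¹)⁻¹ := by group
    rw [this]; exact inv_mem hx

instance phi_normal (p : ℕ) (H : Subgroup G) [H.Normal] : (phi p H).Normal := by
  have := closure_pow_normal p H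
  unfold phi
  infer_instance

theorem mem_phi_top {p : ℕ} {y : G} (hy : y ∈ phi p (⊤ : Subgroup G)) :
    ∃ x : G, ∃ c ∈ ⁅(⊤ : Subgroup G), (⊤ : Subgroup G)⁆, y = x ^ p * c := by
  have h1 : phi p (⊤ : Subgroup G) ≤
      (powMonoidHom p : Abelianization G →* Abelianization G).range.comap Abelianization.of := by
    refine sup_le ?_ ((Subgroup.closure_le _).2 ?_)
    · intro c hc
      have : Abelianization.of c = 1 := by
        rw [← MonoidHom.mem_ker, Abelianization.ker_of]; exact hc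
      simp [mem_comap, this]
    · rintro _ ⟨x, -, rfl⟩
      exact ⟨Abelianization.of x, by simp⟩
  obtain ⟨z, hz⟩ := h1 hy
  obtain ⟨x, rfl⟩ : ∃ x, Abelianization.of x = z := QuotientGroup.mk_surjective z
  refine ⟨x, (x ^ p)⁻¹ * y, ?_, by group⟩
  have : Abelianization.of ((x ^ p)⁻¹ * y) = 1 := by
    simp only [powMonoidHom_apply] at hz
    simp [← hz]
  rw [← MonoidHom.mem_ker, Abelianization.ker_of] at this
  exact this

theorem mem_phi {p : ℕ} {H : Subgroup G} {y : G} (hy : y ∈ phi p H) :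
    ∃ x ∈ H, ∃ c ∈ ⁅H, H⁆, y = x ^ p * c := by
  have : phi p H = (phi p (⊤ : Subgroup H)).map H.subtype := by
    rw [map_phi, ← MonoidHom.range_eq_map, range_subtype]
  rw [this] at hy
  obtain ⟨y', hy', rfl⟩ := hy
  obtain ⟨x, c, hc, rfl⟩ := mem_phi_top hy'
  refine ⟨x, x.2, c, ?_, by simp⟩
  have : ⁅H, H⁆ = (⁅(⊤ : Subgroup H), (⊤ : Subgroup H)⁆).map H.subtype := by
    rw [map_commutator, ← MonoidHom.range_eq_map, range_subtype]
  rw [this]
  exact ⟨c, hc, rfl⟩

section PGroup2

variable {p : ℕ} [hp : Fact p.Prime] [Finite G]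

theorem nongen_top (hG : IsPGroup p G) {L : Subgroup G} (h : L ⊔ phi p ⊤ = ⊤) : L = ⊤ := by
  by_contra hL
  obtain ⟨K, hK, hLK⟩ := (eq_top_or_exists_le_coatom L).resolve_left hL
  have := hG.isNilpotent
  have hKn : K.Normal :=
    Subgroup.NormalizerCondition.normal_of_coatom K (Group.normalizerCondition_of_isNilpotent) hK
  have h1 : ⁅(⊤ : Subgroup G), (⊤ : Subgroup G)⁆ ≤ K := by
    by_contra hc
    have : K < ⁅(⊤ : Subgroup G), (⊤ : Subgroup G)⁆ ⊔ K :=
      lt_of_le_of_ne le_sup_right fun he => hc (he ▸ le_sup_left)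
    have h2 := hK.2 _ this
    exact hK.1 (top_le_iff.1 (le_of_le_commutator_sup hG (X := ⊤) (M := ⊤) h2.ge))
  have h2 : ∀ y : G, y ^ p ∈ K := by
    intro y
    by_contra hy
    have : K < zpowers (y ^ p) ⊔ K :=
      lt_of_le_of_ne le_sup_right fun he => hy (he ▸ mem_sup_left (mem_zpowers _))
    have h2 := hK.2 _ this
    have hy' : y ∈ zpowers (y ^ p) ⊔ K := h2 ▸ mem_top y
    obtain ⟨_, ⟨m, rfl⟩, k, hk, hyk⟩ := mem_sup_of_normal_right.1 hy'
    have h3 : (y : G ⧸ K) = ((y : G ⧸ K) ^ p) ^ m := by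
      conv_lhs => rw [← hyk]
      simp [(QuotientGroup.eq_one_iff k).2 hk]
    have h4 : ∀ j : ℕ, (y : G ⧸ K) = ((y : G ⧸ K) ^ p ^ j) ^ m ^ j := by
      intro j
      induction j with
      | zero => simp
      | succ j ih =>
        calc (y : G ⧸ K) = ((y : G ⧸ K) ^ p ^ j) ^ m ^ j := ih
          _ = ((((y : G ⧸ K) ^ p) ^ m) ^ p ^ j) ^ m ^ j := by rw [← h3]
          _ = _ := by
            simp only [← zpow_natCast, ← zpow_mul]
            congr 1
            push_cast
            ring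
    obtain ⟨j, hj⟩ := hG y
    have h5 : (y : G ⧸ K) = 1 := by
      rw [h4 j, ← QuotientGroup.mk_pow, hj]; simp
    exact hy (pow_mem ((QuotientGroup.eq_one_iff y).1 h5) p)
  have h3 : phi p (⊤ : Subgroup G) ≤ K := by
    refine sup_le h1 ((Subgroup.closure_le _).2 ?_)
    rintro _ ⟨x, -, rfl⟩
    exact h2 x
  exact hK.1 (top_le_iff.1 (h ▸ sup_le hLK h3))

theorem nongen (hG : IsPGroup p G) {L H : Subgroup G} (hL : L ≤ H) (h : H ≤ L ⊔ phi p H) :
    H ≤ L := by
  have h1 : L.subgroupOf H ⊔ phi p (⊤ : Subgroup H) = ⊤ := by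
    apply map_injective H.subtype_injective
    rw [Subgroup.map_sup, map_phi, ← MonoidHom.range_eq_map, range_subtype, subgroupOf_map_subtype,
      inf_eq_left.2 hL]
    exact le_antisymm (sup_le hL (phi_le _ _)) h
  have := nongen_top (hG.to_subgroup H) h1
  exact subgroupOf_eq_top.1 this

/-- Burnside: a generating set contains a small generating set -/
theorem exists_subset_gen (hG : IsPGroup p G) {r : ℕ} (hr : RankLe G r) (X : Set G) :
    ∃ s : Finset G, (s : Set G) ⊆ X ∧ s.card ≤ r ∧ Subgroup.closure (s : Set G) = Subgroup.closure X := by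
  classical
  set H := Subgroup.closure X with hH
  have hcard : Nat.card H ≤ p ^ r * Nat.card (phi p H) :=
    hr.card_le (phi_le _ _) le_sup_left hp.out.pos fun x hx => pow_mem_phi p hx
  let P : Finset G → Prop := fun t => (t : Set G) ⊆ X ∧
    p ^ t.card * Nat.card (phi p H) ≤ Nat.card (Subgroup.closure (t : Set G) ⊔ phi p H : Subgroup G)
  have hle : ∀ t, P t → (Subgroup.closure (t : Set G) ⊔ phi p H : Subgroup G) ≤ H := fun t ht =>
    sup_le (Subgroup.closure_mono ht.1) (phi_le _ _)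
  have hPr : ∀ t, P t → t.card ≤ r := by
    intro t ht
    have h1 := ht.2.trans ((card_le_of_le (hle t ht)).trans hcard)
    have h2 := Nat.le_of_mul_le_mul_right h1 Nat.card_pos
    exact (Nat.pow_le_pow_iff_right hp.out.one_lt).1 h2
  have hex : ∃ n, ∃ t, P t ∧ t.card + n = r := ⟨r, ∅, ⟨by simp, by simp⟩, by simp⟩
  obtain ⟨t, ht, htc⟩ := Nat.find_spec hex
  have hmin := fun m (hm : m < Nat.find hex) => Nat.find_min hex hm
  generalize Nat.find hex = n0 at htc hmin
  refine ⟨t, ht.1, hPr t ht, le_antisymm (Subgroup.closure_mono ht.1) ?_⟩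
  refine nongen hG (Subgroup.closure_mono ht.1) ?_
  rw [hH, Subgroup.closure_le]
  intro x hx
  by_contra hxn
  have hxt : x ∉ t := fun h => hxn (mem_sup_left (Subgroup.subset_closure h))
  have hP' : P (insert x t) := by
    refine ⟨by rw [Finset.coe_insert]; exact Set.insert_subset hx ht.1, ?_⟩
    have hlt : (Subgroup.closure (t : Set G) ⊔ phi p H : Subgroup G) <
        Subgroup.closure ((insert x t : Finset G) : Set G) ⊔ phi p H := by
      refine lt_of_le_of_ne (sup_le_sup_right (Subgroup.closure_mono (by simp)) _) fun he => hxn ?_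
      change x ∈ (Subgroup.closure (t : Set G) ⊔ phi p H : Subgroup G)
      rw [he]
      exact mem_sup_left (Subgroup.subset_closure (by simp))
    have := mul_card_le_of_lt hG hlt
    rw [Finset.card_insert_of_notMem hxt]
    calc p ^ (t.card + 1) * Nat.card (phi p H) = p * (p ^ t.card * Nat.card (phi p H)) := by ring
      _ ≤ _ := Nat.mul_le_mul_left _ ht.2
      _ ≤ _ := this
  have h1 := hPr _ hP'
  rw [Finset.card_insert_of_notMem hxt] at h1
  refine hmin (n0 - 1) (by omega) ⟨insert x t, hP', ?_⟩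
  rw [Finset.card_insert_of_notMem hxt]
  omega

theorem exists_fin_gen_subset (hG : IsPGroup p G) {r : ℕ} (hr : RankLe G r) (X : Set G)
    (h1 : (1 : G) ∈ X) : ∃ x : Fin r → G, (∀ i, x i ∈ X) ∧ Subgroup.closure (Set.range x) = Subgroup.closure X := by
  obtain ⟨s, hs, hc, hcl⟩ := exists_subset_gen hG hr X
  obtain ⟨x, hx, hx'⟩ := exists_fin_gen hc
  refine ⟨x, fun i => ?_, hx'.trans hcl⟩
  rcases hx i with h | h
  · exact hs h
  · rw [h]; exact h1

end PGroup2

/-- iterated Frattini series -/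
def phiIt (p : ℕ) (H : Subgroup G) : ℕ → Subgroup G
  | 0 => H
  | n + 1 => phi p (phiIt p H n)

instance phiIt_normal (p : ℕ) (H : Subgroup G) [H.Normal] (n : ℕ) : (phiIt p H n).Normal := by
  induction n with
  | zero => simpa [phiIt]
  | succ n ih => rw [phiIt]; infer_instance

theorem phiIt_add (p : ℕ) (H : Subgroup G) (m n : ℕ) :
    phiIt p H (m + n) = phiIt p (phiIt p H m) n := by
  induction n with
  | zero => rfl
  | succ n ih => rw [← add_assoc, phiIt, ih, phiIt]

theorem phiIt_le (p : ℕ) (H : Subgroup G) (n : ℕ) : phiIt p H n ≤ H := by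
  induction n with
  | zero => exact le_rfl
  | succ n ih => exact (phi_le _ _).trans ih

theorem phiIt_anti (p : ℕ) (H : Subgroup G) {m n : ℕ} (h : m ≤ n) :
    phiIt p H n ≤ phiIt p H m := by
  obtain ⟨k, rfl⟩ := Nat.exists_eq_add_of_le h
  rw [phiIt_add]
  exact phiIt_le _ _ _

theorem map_phiIt {G' : Type u} [Group G'] (f : G →* G') (p : ℕ) (H : Subgroup G) (n : ℕ) :
    (phiIt p H n).map f = phiIt p (H.map f) n := by
  induction n with
  | zero => rfl
  | succ n ih => rw [phiIt, map_phi, ih, phiIt]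

theorem pow_mem_phiIt (p : ℕ) {H : Subgroup G} {x : G} (hx : x ∈ H) (n : ℕ) :
    x ^ p ^ n ∈ phiIt p H n := by
  induction n with
  | zero => simpa [phiIt]
  | succ n ih => rw [pow_succ, pow_mul]; exact pow_mem_phi p ih

section PGroup3

variable {p : ℕ} [hp : Fact p.Prime] [Finite G]

theorem phi_lt (hG : IsPGroup p G) {H : Subgroup G} (h : H ≠ ⊥) : phi p H < H := by
  refine lt_of_le_of_ne (phi_le _ _) fun he => h ?_
  exact le_bot_iff.1 (nongen hG bot_le (by rw [he]; exact le_sup_right))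

theorem phiIt_eq_bot (hG : IsPGroup p G) (H : Subgroup G) {m : ℕ} (h : Nat.card H ≤ p ^ m) :
    phiIt p H m = ⊥ := by
  have : ∀ n, phiIt p H n = ⊥ ∨ p ^ n * Nat.card (phiIt p H n) ≤ Nat.card H := by
    intro n
    induction n with
    | zero => right; simp [phiIt]
    | succ n ih =>
      by_cases hb : phiIt p H n = ⊥
      · left
        rw [phiIt, eq_bot_iff, ← hb]
        exact phi_le _ _
      · right
        have h1 := mul_card_le_of_lt hG (phi_lt hG hb)
        calc p ^ (n + 1) * Nat.card (phiIt p H (n + 1))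
            = p ^ n * (p * Nat.card (phi p (phiIt p H n))) := by rw [phiIt]; ring
          _ ≤ p ^ n * Nat.card (phiIt p H n) := Nat.mul_le_mul_left _ h1
          _ ≤ _ := ih.resolve_left hb
  rcases this m with h1 | h1
  · exact h1
  · have h2 : p ^ m * Nat.card (phiIt p H m) ≤ p ^ m * 1 := by simpa using h1.trans h
    have h3 := Nat.le_of_mul_le_mul_left h2 (pow_pos hp.out.pos m)
    exact (eq_bot_of_card_le _ h3)

theorem phiIt_le_ker (hG : IsPGroup p G) {M : Type u} [Monoid M] [Finite M] (f : G →* M) {m : ℕ}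
    (h : Nat.card M ≤ p ^ m) (x : G) (hx : x ∈ phiIt p (⊤ : Subgroup G) m) : f x = 1 := by
  let g : G →* Mˣ := f.toHomUnits
  let g' : G →* g.range := g.rangeRestrict
  have hP : IsPGroup p g.range := hG.of_surjective g' g.rangeRestrict_surjective
  have hc : Nat.card (⊤ : Subgroup g.range) ≤ p ^ m := by
    rw [card_top]
    refine le_trans ?_ h
    exact Nat.card_le_card_of_injective (fun x : g.range => ((x : Mˣ) : M))
      (Units.val_injective.comp Subtype.val_injective)
  have h1 := phiIt_eq_bot hP ⊤ hc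
  have h2 : g' x ∈ (phiIt p (⊤ : Subgroup G) m).map g' := ⟨x, hx, rfl⟩
  rw [map_phiIt, map_top_of_surjective _ g.rangeRestrict_surjective, h1, mem_bot] at h2
  have h3 : g x = 1 := congrArg Subtype.val h2
  simpa [g] using congrArg Units.val h3

theorem card_le_phiIt {r : ℕ} (hr : RankLe G r) (H : Subgroup G) (n : ℕ) :
    Nat.card H ≤ p ^ (r * n) * Nat.card (phiIt p H n) := by
  induction n with
  | zero => simp [phiIt]
  | succ n ih =>
    have := hr.card_le (phi_le p (phiIt p H n)) le_sup_left hp.out.pos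
      fun x hx => pow_mem_phi p hx
    calc _ ≤ _ := ih
      _ ≤ p ^ (r * n) * (p ^ r * Nat.card (phi p (phiIt p H n))) := Nat.mul_le_mul_left _ this
      _ = _ := by rw [phiIt]; ring

/-- a maximal abelian normal subgroup is self-centralising -/
theorem exists_selfCentralizing (hG : IsPGroup p G) (W : Subgroup G) [W.Normal]
    (hW : ⁅W, W⁆ = ⊥) : ∃ A : Subgroup G, A.Normal ∧ W ≤ A ∧ ⁅A, A⁆ = ⊥ ∧
      centralizer (A : Set G) ≤ A := by
  classical
  obtain ⟨A, ⟨hAn, hWA, hA⟩, hmax⟩ := Set.Finite.exists_maximal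
    (s := {A : Subgroup G | A.Normal ∧ W ≤ A ∧ ⁅A, A⁆ = ⊥}) (Set.toFinite _)
    ⟨W, inferInstance, le_rfl, hW⟩
  refine ⟨A, hAn, hWA, hA, ?_⟩
  by_contra hC
  set C := centralizer (A : Set G) with hCdef
  have hCn : C.Normal := inferInstance
  obtain ⟨n, hn⟩ := exists_itc_eq_bot hG
  have hex : ∃ k, itc ⊤ C k ≤ A := ⟨n, by rw [hn]; exact bot_le⟩
  have hk := Nat.find_spec hex
  have hk0 : Nat.find hex ≠ 0 := fun h => hC (by simpa [h] using hk)
  obtain ⟨k, hk'⟩ := Nat.exists_eq_succ_of_ne_zero hk0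
  have hk1 : ¬ itc ⊤ C k ≤ A := Nat.find_min hex (by omega)
  rw [hk'] at hk
  obtain ⟨x, hx, hxA⟩ := SetLike.not_le_iff_exists.1 hk1
  have hxC : x ∈ C := itc_le ⊤ C k hx
  have hxc : ∀ g, ⁅x, g⁆ ∈ A := fun g => hk (commutator_mem_commutator hx (mem_top g))
  have hcomm : ∀ a ∈ A, a * x = x * a := fun a ha => hxC a ha
  have hAc : ∀ a ∈ A, ∀ b ∈ A, a * b = b * a := fun a ha b hb => by
    have : ⁅a, b⁆ ∈ ⁅A, A⁆ := commutator_mem_commutator ha hb
    rw [hA, mem_bot] at this
    exact commutatorElement_eq_one_iff_mul_comm.1 this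
  have hmem : zpowers x ⊔ A ∈ {A : Subgroup G | A.Normal ∧ W ≤ A ∧ ⁅A, A⁆ = ⊥} := by
    refine ⟨⟨?_⟩, hWA.trans le_sup_right, ?_⟩
    · intro z hz g
      obtain ⟨_, ⟨m, rfl⟩, a, ha, rfl⟩ := mem_sup_of_normal_right.1 hz
      have : g * (x ^ m * a) * g⁻¹ = (g * x * g⁻¹) ^ m * (g * a * g⁻¹) := by
        rw [conj_zpow]; group
      rw [this]
      refine mul_mem (zpow_mem ?_ _) (mem_sup_right (hAn.conj_mem a ha g))
      have : g * x * g⁻¹ = ⁅x, g⁆⁻¹ * x := by simp only [commutatorElement_def]; group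
      rw [this]
      exact mul_mem (mem_sup_right (inv_mem (hxc g))) (mem_sup_left (mem_zpowers x))
    · rw [eq_bot_iff, commutator_le]
      intro z hz z' hz'
      obtain ⟨_, ⟨m, rfl⟩, a, ha, rfl⟩ := mem_sup_of_normal_right.1 hz
      obtain ⟨_, ⟨m', rfl⟩, a', ha', rfl⟩ := mem_sup_of_normal_right.1 hz'
      rw [mem_bot, commutatorElement_eq_one_iff_commute]
      have h1 : Commute a x := hcomm a ha
      have h2 : Commute a' x := hcomm a' ha'
      have h3 : Commute a a' := hAc a ha a' ha'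
      refine Commute.mul_left (Commute.mul_right ?_ ?_) (Commute.mul_right ?_ h3)
      · exact Commute.zpow_zpow (Commute.refl x) _ _
      · exact (h2.zpow_right m).symm
      · exact h1.zpow_right m'
  exact hxA (hmax hmem le_sup_right (mem_sup_left (mem_zpowers x)))

end PGroup3

end Pool.Agent.Lib.MP_2551c4_al
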