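import Mathlib

/-! Word values, verbal subgroups and width. -/

namespace Pool.Agent.Lib.MP_2551c4_al

universe u

variable {ι : Type} {G : Type*} [Group G]

theorem map_lift {G' : Type*} [Group G'] (f : G →* G') (g : ι → G) (w : FreeGroup ι) :
    f (FreeGroup.lift g w) = FreeGroup.lift (fun i => f (g i)) w := by
  have : f.comp (FreeGroup.lift g) = FreeGroup.lift (fun i => f (g i)) := by
    ext i; simp
  exact DFunLike.congr_fun this w

theorem lift_apply_pi {I : Type*} {N : I → Type*} [∀ i, Group (N i)] (g : ι → ∀ i, N i)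
    (w : FreeGroup ι) (i : I) :
    FreeGroup.lift g w i = FreeGroup.lift (fun a => g a i) w :=
  map_lift (Pi.evalMonoidHom N i) g w

theorem lift_one (w : FreeGroup ι) : FreeGroup.lift (fun _ => (1 : G)) w = 1 := by
  have : FreeGroup.lift (fun _ : ι => (1 : G)) = 1 := by
    ext i; simp
  rw [this]; rfl

theorem lift_conj (g : ι → G) (x : G) (w : FreeGroup ι) :
    x * FreeGroup.lift g w * x⁻¹ = FreeGroup.lift (fun i => x * g i * x⁻¹) w :=
  map_lift (MulAut.conj x).toMonoidHom g w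

/-- the verbal subgroup -/
def vs (w : FreeGroup ι) (G : Type*) [Group G] : Subgroup G :=
  Subgroup.closure (Set.range fun g : ι → G => FreeGroup.lift g w)

theorem lift_mem_vs (w : FreeGroup ι) (g : ι → G) : FreeGroup.lift g w ∈ vs w G :=
  Subgroup.subset_closure ⟨g, rfl⟩

instance vs_normal (w : FreeGroup ι) : (vs w G).Normal := by
  constructor
  intro n hn x
  induction hn using Subgroup.closure_induction with
  | mem y hy =>
    obtain ⟨g, rfl⟩ := hy
    simp only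
    rw [lift_conj]
    exact lift_mem_vs w _
  | one => simp
  | mul a b _ _ ha hb =>
    have : x * (a * b) * x⁻¹ = (x * a * x⁻¹) * (x * b * x⁻¹) := by group
    rw [this]; exact mul_mem ha hb
  | inv a _ ha =>
    have : x * a⁻¹ * x⁻¹ = (x * a * x⁻¹)⁻¹ := by group
    rw [this]; exact inv_mem ha

theorem map_vs {G' : Type*} [Group G'] (f : G →* G') (hf : Function.Surjective f)
    (w : FreeGroup ι) : (vs w G).map f = vs w G' := by
  unfold vs
  rw [MonoidHom.map_closure, ← Set.range_comp]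
  congr 1
  ext y
  constructor
  · rintro ⟨g, rfl⟩
    exact ⟨fun i => f (g i), (map_lift f g w).symm⟩
  · rintro ⟨g, rfl⟩
    choose g' hg' using fun i => hf (g i)
    refine ⟨g', ?_⟩
    simp only [Function.comp, map_lift, hg']

/-- products of at most `m` values or inverses of values -/
def Wd (w : FreeGroup ι) (G : Type*) [Group G] (m : ℕ) : Set G :=
  {x | ∃ l : List G, l.length ≤ m ∧
    (∀ y ∈ l, ∃ g : ι → G, y = FreeGroup.lift g w ∨ y = (FreeGroup.lift g w)⁻¹) ∧ l.prod = x}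

variable {w : FreeGroup ι}

theorem Wd_mono {a b : ℕ} (h : a ≤ b) {x : G} (hx : x ∈ Wd w G a) : x ∈ Wd w G b := by
  obtain ⟨l, h1, h2, h3⟩ := hx
  exact ⟨l, h1.trans h, h2, h3⟩

theorem one_mem_Wd (a : ℕ) : (1 : G) ∈ Wd w G a := ⟨[], by simp, by simp, rfl⟩

theorem lift_mem_Wd (g : ι → G) : FreeGroup.lift g w ∈ Wd w G 1 :=
  ⟨[FreeGroup.lift g w], by simp, by simpa using ⟨g, Or.inl rfl⟩, by simp⟩

theorem mul_mem_Wd {a b : ℕ} {x y : G} (hx : x ∈ Wd w G a) (hy : y ∈ Wd w G b) :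
    x * y ∈ Wd w G (a + b) := by
  obtain ⟨l, h1, h2, rfl⟩ := hx
  obtain ⟨l', h1', h2', rfl⟩ := hy
  refine ⟨l ++ l', by simp; omega, fun y hy => ?_, by simp⟩
  rcases List.mem_append.1 hy with h | h
  · exact h2 y h
  · exact h2' y h

theorem inv_mem_Wd {a : ℕ} {x : G} (hx : x ∈ Wd w G a) : x⁻¹ ∈ Wd w G a := by
  obtain ⟨l, h1, h2, rfl⟩ := hx
  refine ⟨(l.map fun y => y⁻¹).reverse, by simpa, fun y hy => ?_, (List.prod_inv_reverse l).symm⟩
  simp only [List.mem_reverse, List.mem_map] at hy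
  obtain ⟨z, hz, rfl⟩ := hy
  obtain ⟨g, rfl | rfl⟩ := h2 z hz
  · exact ⟨g, Or.inr rfl⟩
  · exact ⟨g, Or.inl (inv_inv _)⟩

theorem map_mem_Wd {G' : Type*} [Group G'] (f : G →* G') {a : ℕ} {x : G} (hx : x ∈ Wd w G a) :
    f x ∈ Wd w G' a := by
  obtain ⟨l, h1, h2, rfl⟩ := hx
  refine ⟨l.map f, by simpa, fun y hy => ?_, (map_list_prod f l).symm⟩
  obtain ⟨z, hz, rfl⟩ := List.mem_map.1 hy
  obtain ⟨g, rfl | rfl⟩ := h2 z hz
  · exact ⟨_, Or.inl (map_lift f g w)⟩
  · exact ⟨_, Or.inr (by rw [map_inv, map_lift])⟩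

theorem conj_mem_Wd {a : ℕ} {x : G} (hx : x ∈ Wd w G a) (y : G) : y * x * y⁻¹ ∈ Wd w G a :=
  map_mem_Wd (MulAut.conj y).toMonoidHom hx

theorem prod_mem_Wd {a : ℕ} (l : List G) (hl : ∀ x ∈ l, x ∈ Wd w G a) :
    l.prod ∈ Wd w G (l.length * a) := by
  induction l with
  | nil => exact one_mem_Wd _
  | cons x l ih =>
    rw [List.prod_cons, List.length_cons, add_mul, one_mul, add_comm]
    exact mul_mem_Wd (hl x (by simp)) (ih fun y hy => hl y (by simp [hy]))

theorem pow_mem_Wd {a : ℕ} {x : G} (hx : x ∈ Wd w G a) (n : ℕ) : x ^ n ∈ Wd w G (n * a) := by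
  have := prod_mem_Wd (w := w) (a := a) (List.replicate n x) (by
    intro y hy; rw [List.eq_of_mem_replicate hy]; exact hx)
  simpa using this

theorem exists_lift_Wd {G' : Type*} [Group G'] (f : G →* G') (hf : Function.Surjective f) {a : ℕ}
    {y : G'} (hy : y ∈ Wd w G' a) : ∃ x ∈ Wd w G a, f x = y := by
  obtain ⟨l, h1, h2, rfl⟩ := hy
  induction l generalizing a with
  | nil => exact ⟨1, one_mem_Wd _, by simp⟩
  | cons z l ih =>
    obtain ⟨x, hx, hx'⟩ := ih (a := l.length) le_rfl fun y hy => h2 y (by simp [hy])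
    obtain ⟨g, hg⟩ := h2 z (by simp)
    choose g' hg' using fun i => hf (g i)
    have hl : f (FreeGroup.lift g' w) = FreeGroup.lift g w := by simp only [map_lift, hg']
    have h1' : 1 + l.length ≤ a := by simp at h1; omega
    rcases hg with rfl | rfl
    · exact ⟨_ * x, Wd_mono h1' (mul_mem_Wd (lift_mem_Wd g') hx), by simp [hl, hx']⟩
    · exact ⟨_ * x, Wd_mono h1' (mul_mem_Wd (inv_mem_Wd (lift_mem_Wd g')) hx), by simp [hl, hx']⟩

theorem Wd_of_quotient {G' : Type*} [Group G'] (f : G →* G') (hf : Function.Surjective f)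
    {a b : ℕ} (hk : ∀ x, f x = 1 → x ∈ Wd w G a) {x : G} (hx : f x ∈ Wd w G' b) :
    x ∈ Wd w G (a + b) := by
  obtain ⟨y, hy, hy'⟩ := exists_lift_Wd f hf hx
  have : x = (x * y⁻¹) * y := by group
  rw [this]
  exact mul_mem_Wd (hk _ (by simp [hy'])) hy

end Pool.Agent.Lib.MP_2551c4_al
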