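import Mathlib
import Pool.Agent.Lib.MP_2551c4_al.Word

/-! Residual finiteness tools: modules over finitely generated rings, and groups with a finite
index subgroup with finitely many commutators. -/

namespace Pool.Agent.Lib.MP_2551c4_al

theorem isJacobsonRing_int : IsJacobsonRing ℤ := by
  rw [isJacobsonRing_iff_prime_eq]
  intro P hP
  by_cases h : P = ⊥
  · subst h
    rw [eq_bot_iff]
    intro x hx
    have := Int.isUnit_iff.1 (Ideal.mem_jacobson_bot.1 hx x)
    have : x = 0 := by rcases this with h | h <;> nlinarith [mul_self_nonneg x]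
    exact this
  · have := hP.isMaximal h
    exact Ideal.jacobson_eq_self_of_isMaximal

theorem finite_field_of_finiteType (K : Type*) [Field K] [Algebra ℤ K] [Algebra.FiniteType ℤ K] :
    Finite K := by
  have := isJacobsonRing_int
  have := finite_of_finite_type_of_isJacobsonRing ℤ K
  obtain ⟨q, hq⟩ := CharP.exists K
  rcases CharP.char_is_prime_or_zero K q with h1 | rfl
  · refine @Module.finite_of_fg_torsion K _ Algebra.toModule this fun x =>
      ⟨⟨q, mem_nonZeroDivisors_of_ne_zero ?_⟩, ?_⟩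
    · exact_mod_cast h1.ne_zero
    · simp [Submonoid.smul_def, Algebra.smul_def]
  · have := CharP.charP_to_charZero K
    exact (Int.not_isField ((Algebra.IsIntegral.isField_iff_isField
      (algebraMap ℤ K).injective_int).2 (Field.toIsField K))).elim

theorem exists_cofinite_ideal {S : Type*} [CommRing S] [Algebra ℤ S] [Algebra.FiniteType ℤ S]
    {Z : Type*}
    [AddCommGroup Z] [Module S Z] (σ : S) (Z0 : Submodule S Z) (hZ0 : Z0.FG)
    (h : ∀ z, ∃ a : ℕ, σ ^ a • z ∈ Z0) (u : Z) (hu : ∀ a : ℕ, σ ^ a • u ≠ 0) :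
    ∃ J : Ideal S, Finite (S ⧸ J) ∧ (∃ s, s * σ - 1 ∈ J) ∧
      ∀ a : ℕ, σ ^ a • u ∉ J • (⊤ : Submodule S Z) := by
  have := isJacobsonRing_int
  have : IsJacobsonRing S := isJacobsonRing_of_finiteType (A := ℤ)
  have : IsNoetherianRing S := Algebra.FiniteType.isNoetherianRing ℤ S
  have : Module.Finite S Z0 := Module.Finite.iff_fg.2 hZ0
  have h1 : σ ∉ (Ideal.torsionOf S Z u).jacobson := by
    rw [← Ideal.radical_eq_jacobson]
    rintro ⟨a, ha⟩
    exact hu a ((Ideal.mem_torsionOf_iff u _).1 ha)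
  rw [Ideal.jacobson, Ideal.mem_sInf] at h1
  push Not at h1
  obtain ⟨m, ⟨hm, hm'⟩, hσ⟩ := h1
  have hfin : Finite (S ⧸ m) := by
    let := Ideal.Quotient.field m
    exact finite_field_of_finiteType _
  obtain ⟨y, μ, hμ, hy⟩ := hm'.exists_inv hσ
  have hinv : ∀ i : ℕ, ∃ s, s * σ - 1 ∈ m ^ i := by
    intro i
    obtain ⟨s, hs⟩ := sub_dvd_pow_sub_pow 1 μ i
    refine ⟨y * s, ?_⟩
    have : y * s * σ - 1 = -μ ^ i := by
      rw [one_pow] at hs
      linear_combination -hs + s * hy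
    rw [this]
    exact neg_mem (Ideal.pow_mem_pow hμ i)
  by_contra hcon
  push Not at hcon
  obtain ⟨a0, ha0⟩ := h u
  have h2 : (⟨_, ha0⟩ : Z0) ∈ (⨅ i : ℕ, m ^ i • ⊤ : Submodule S Z0) := by
    rw [Submodule.mem_iInf]
    intro i
    rw [Submodule.mem_smul_top_iff]
    obtain ⟨a, ha⟩ := hcon (m ^ i) (Ideal.finite_quotient_pow (IsNoetherian.noetherian m) i)
      (hinv i)
    have h3 : ∀ x ∈ m ^ i • (⊤ : Submodule S Z), ∃ b : ℕ, σ ^ b • x ∈ m ^ i • Z0 := by
      intro x hx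
      refine Submodule.smul_induction_on hx (fun r hr z _ => ?_) ?_
      · obtain ⟨b, hb⟩ := h z
        exact ⟨b, by rw [smul_comm]; exact Submodule.smul_mem_smul hr hb⟩
      · rintro x y ⟨b, hb⟩ ⟨b', hb'⟩
        refine ⟨b + b', ?_⟩
        rw [smul_add]
        refine add_mem ?_ ?_
        · rw [add_comm, pow_add, mul_smul]; exact Submodule.smul_mem _ _ hb
        · rw [pow_add, mul_smul]; exact Submodule.smul_mem _ _ hb'
    obtain ⟨b, hb⟩ := h3 _ ha
    obtain ⟨s, hs⟩ := hinv i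
    have h4 : (s * σ) ^ (b + a) - 1 ∈ m ^ i := by
      have := sub_dvd_pow_sub_pow (s * σ) 1 (b + a)
      rw [one_pow] at this
      exact Ideal.mem_of_dvd _ this hs
    have e : σ ^ a0 • u = (s ^ (b + a) * σ ^ a0) • σ ^ b • σ ^ a • u -
        ((s * σ) ^ (b + a) - 1) • σ ^ a0 • u := by
      simp only [smul_smul, ← sub_smul]
      congr 1
      ring
    change σ ^ a0 • u ∈ _
    rw [e]
    exact sub_mem (Submodule.smul_mem _ _ hb) (Submodule.smul_mem_smul h4 ha0)
  obtain ⟨⟨r, hr⟩, hr'⟩ := (Ideal.mem_iInf_smul_pow_eq_bot_iff m _).1 h2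
  have h5 : r • σ ^ a0 • u = σ ^ a0 • u := congrArg Subtype.val hr'
  have h6 : (1 - r) * σ ^ a0 ∈ m := hm ((Ideal.mem_torsionOf_iff u _).2 (by
    rw [mul_smul, sub_smul, h5, one_smul, sub_self]))
  rcases hm'.isPrime.mem_or_mem h6 with h7 | h7
  · exact hm'.ne_top ((Ideal.eq_top_iff_one m).2 (by simpa using add_mem h7 hr))
  · exact hσ (hm'.isPrime.mem_of_pow_mem _ h7)

open scoped IsMulCommutative in
theorem exists_pow_eq_one_of_marginal {Γ : Type*} [Group Γ] [Group.FG Γ] {ι : Type} [Finite ι]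
    (w : FreeGroup ι) {p : ℕ} (hp : p.Prime) (B : Subgroup Γ) [hB : B.Normal] [B.FiniteIndex]
    (hBp : ∀ x : Γ, ∃ k : ℕ, x ^ p ^ k ∈ B) [Finite (commutatorSet B)]
    (hm : ∀ g b : ι → Γ, (∀ i, b i ∈ B) →
      FreeGroup.lift (fun i => g i * b i) w = FreeGroup.lift g w)
    (g : ι → Γ) (hg : IsOfFinOrder (FreeGroup.lift g w)) :
    ∃ k : ℕ, FreeGroup.lift g w ^ p ^ k = 1 := by
  classical
  have := Fact.mk hp
  let Z := Subgroup.center B
  have : Group.FG Z := inferInstance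
  have hT : Finite (CommGroup.torsion Z) := by
    have : Module.Finite ℤ (Additive Z) := Module.Finite.iff_addGroup_fg.2 inferInstance
    have : Finite (Submodule.torsion ℤ (Additive Z)) :=
      Module.finite_of_fg_torsion _ (Submodule.torsion_isTorsion)
    refine Finite.of_injective (β := Submodule.torsion ℤ (Additive Z))
      (fun x => ⟨Additive.ofMul x.1, ?_⟩) fun x y h => by
        have := congrArg Subtype.val h
        exact Subtype.ext (Additive.ofMul.injective this)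
    refine ⟨⟨orderOf x.1, mem_nonZeroDivisors_of_ne_zero ?_⟩, ?_⟩
    · exact_mod_cast (IsOfFinOrder.orderOf_pos x.2).ne'
    · rw [Submonoid.smul_def, natCast_zsmul, ← ofMul_pow, pow_orderOf_eq_one]; rfl
  let e := Nat.card (CommGroup.torsion Z)
  have he : 0 < e := Nat.card_pos
  let Ze : Subgroup Z := (powMonoidHom e : Z →* Z).range
  have hZe : Ze.FiniteIndex := by
    have : Finite (Z ⧸ Ze) := CommGroup.finite_of_fg_isMulTorsion _ (by
      intro q
      obtain ⟨x, rfl⟩ := QuotientGroup.mk_surjective q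
      refine isOfFinOrder_iff_pow_eq_one.2 ⟨e, he, ?_⟩
      rw [← QuotientGroup.mk_pow, QuotientGroup.eq_one_iff]
      exact ⟨x, rfl⟩)
    exact Subgroup.finiteIndex_of_finite_quotient
  let B1 : Subgroup Γ := (Ze.map Z.subtype).map B.subtype
  have hB1 : B1.FiniteIndex := ⟨by
    rw [Subgroup.index_map_subtype, Subgroup.index_map_subtype]
    exact mul_ne_zero (mul_ne_zero hZe.1 Subgroup.FiniteIndex.index_ne_zero)
      Subgroup.FiniteIndex.index_ne_zero⟩
  let B2 := B1.normalCore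
  let f := QuotientGroup.mk' B2
  obtain ⟨P⟩ := (inferInstance : Nonempty (Sylow p (Γ ⧸ B2)))
  have hBn : (B.map f).Normal := hB.map f (QuotientGroup.mk'_surjective B2)
  have hP : ∀ x : Γ, ∃ b ∈ B, f (x * b) ∈ P := by
    intro x
    let f' := QuotientGroup.mk' (B.map f)
    have hQ : IsPGroup p (⊤ : Subgroup ((Γ ⧸ B2) ⧸ B.map f)) := by
      rintro ⟨q, -⟩
      obtain ⟨q, rfl⟩ := QuotientGroup.mk_surjective q
      obtain ⟨y, rfl⟩ := QuotientGroup.mk_surjective q
      obtain ⟨k, hk⟩ := hBp y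
      refine ⟨k, Subtype.ext ?_⟩
      change ((y : Γ ⧸ B2) : (Γ ⧸ B2) ⧸ B.map f) ^ p ^ k = 1
      rw [← QuotientGroup.mk_pow, QuotientGroup.eq_one_iff]
      exact ⟨_, hk, rfl⟩
    have h1 := (P.mapSurjective (QuotientGroup.mk'_surjective (B.map f))).is_maximal' hQ le_top
    have h2 : f' (f x) ∈ (P : Subgroup (Γ ⧸ B2)).map f' := by
      change f' (f x) ∈
        (P.mapSurjective (QuotientGroup.mk'_surjective (B.map f))).toSubgroup
      rw [← h1]; trivial
    obtain ⟨y, hy, hy'⟩ := h2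
    obtain ⟨b, hb, hb'⟩ := QuotientGroup.eq.1 hy'.symm
    refine ⟨b, hb, ?_⟩
    rw [map_mul, hb', mul_inv_cancel_left]
    exact hy
  choose b hb hb' using fun i => hP (g i)
  have h1 : f (FreeGroup.lift g w) ∈ (P : Subgroup (Γ ⧸ B2)) := by
    rw [← hm g b hb, map_lift]
    exact (map_lift (P : Subgroup (Γ ⧸ B2)).subtype (fun i => ⟨_, hb' i⟩) w) ▸ SetLike.coe_mem _
  obtain ⟨k, hk⟩ := P.isPGroup' ⟨_, h1⟩
  refine ⟨k, ?_⟩
  have h2 : FreeGroup.lift g w ^ p ^ k ∈ B1 := by
    apply B1.normalCore_le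
    rw [← QuotientGroup.eq_one_iff]
    exact congrArg Subtype.val hk
  obtain ⟨_, ⟨_, ⟨z, rfl⟩, rfl⟩, hz⟩ := h2
  have h3 : IsOfFinOrder z := by
    have h4 := hg.pow (n := p ^ k)
    rw [← hz, B.subtype_injective.isOfFinOrder_iff, Z.subtype_injective.isOfFinOrder_iff] at h4
    exact h4.of_pow he.ne'
  have h5 : (⟨z, h3⟩ : CommGroup.torsion Z) ^ e = 1 := pow_card_eq_one'
  have h6 : z ^ e = 1 := congrArg Subtype.val h5
  rw [← hz, powMonoidHom_apply, h6, map_one, map_one]

end Pool.Agent.Lib.MP_2551c4_al
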