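import Mathlib
import Pool.Agent.Lib.MP_2551c4_al.Basic

/-! Polynomial sequences in nilpotent groups and substitution of exponents. -/

namespace Pool.Agent.Lib.MP_2551c4_al

open scoped commutatorElement

universe u

section fil

variable {Γ : Type u} [Group Γ]

/-- filtrations of the group of sequences containing the binomial sequences -/
structure IsFil (X : ℕ → Subgroup Γ) (Y : ℕ → Subgroup (ℤ → Γ)) : Prop where
  anti : ∀ k, Y (k + 1) ≤ Y k
  comm : ∀ i j, ⁅Y i, Y j⁆ ≤ Y (i + j)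
  basic : ∀ k j, ∀ x ∈ X (k + j), (fun s : ℤ => x ^ Ring.choose s j) ∈ Y k

/-- the smallest such filtration -/
def polyFil (X : ℕ → Subgroup Γ) (k : ℕ) : Subgroup (ℤ → Γ) :=
  ⨅ (Y : ℕ → Subgroup (ℤ → Γ)) (_ : IsFil X Y), Y k

theorem polyFil_le {X : ℕ → Subgroup Γ} {Y : ℕ → Subgroup (ℤ → Γ)} (h : IsFil X Y) (k : ℕ) :
    polyFil X k ≤ Y k := iInf₂_le Y h

theorem isFil_polyFil (X : ℕ → Subgroup Γ) : IsFil X (polyFil X) where
  anti k := le_iInf₂ fun _ h => (polyFil_le h _).trans (h.anti k)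
  comm i j := le_iInf₂ fun _ h =>
    (Subgroup.commutator_mono (polyFil_le h _) (polyFil_le h _)).trans (h.comm i j)
  basic k j x hx := by
    simp only [polyFil, Subgroup.mem_iInf]
    exact fun Y h => h.basic k j x hx

theorem IsFil.le {X : ℕ → Subgroup Γ} {Y : ℕ → Subgroup (ℤ → Γ)} (h : IsFil X Y) {i j : ℕ}
    (hij : i ≤ j) : Y j ≤ Y i := antitone_nat_of_succ_le h.anti hij

theorem IsFil.comm' {X : ℕ → Subgroup Γ} {Y : ℕ → Subgroup (ℤ → Γ)} (h : IsFil X Y) {i j k : ℕ}
    {f g : ℤ → Γ} (hf : f ∈ Y i) (hg : g ∈ Y j) (hk : k ≤ i + j) : ⁅f, g⁆ ∈ Y k :=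
  h.le hk (h.comm i j (Subgroup.commutator_mem_commutator hf hg))

theorem IsFil.conj {X : ℕ → Subgroup Γ} {Y : ℕ → Subgroup (ℤ → Γ)} (h : IsFil X Y) {i j : ℕ}
    {f g : ℤ → Γ} (hf : f ∈ Y i) (hg : g ∈ Y j) : f * g * f⁻¹ ∈ Y j := by
  have : f * g * f⁻¹ = ⁅f, g⁆ * g := by simp [commutatorElement_def]
  rw [this]
  exact mul_mem (h.comm' hf hg (by omega)) hg

/-- the shift -/
def shiftHom (Γ : Type u) [Group Γ] : (ℤ → Γ) →* (ℤ → Γ) where
  toFun f s := f (s + 1)
  map_one' := rfl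
  map_mul' _ _ := rfl

theorem shift_mem_polyFil (X : ℕ → Subgroup Γ) (k : ℕ) {f : ℤ → Γ} (hf : f ∈ polyFil X k) :
    shiftHom Γ f * f⁻¹ ∈ polyFil X (k + 1) := by
  have h := isFil_polyFil X
  let Y : ℕ → Subgroup (ℤ → Γ) := fun k =>
    { carrier := {f | f ∈ polyFil X k ∧ shiftHom Γ f * f⁻¹ ∈ polyFil X (k + 1)}
      one_mem' := ⟨one_mem _, by simp⟩
      mul_mem' := by
        rintro f g ⟨hf, hf'⟩ ⟨hg, hg'⟩
        refine ⟨mul_mem hf hg, ?_⟩
        have : shiftHom Γ (f * g) * (f * g)⁻¹ =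
            (shiftHom Γ f * f⁻¹) * (f * (shiftHom Γ g * g⁻¹) * f⁻¹) := by
          rw [map_mul]; group
        rw [this]
        exact mul_mem hf' (h.conj hf hg')
      inv_mem' := by
        rintro f ⟨hf, hf'⟩
        refine ⟨inv_mem hf, ?_⟩
        have : shiftHom Γ f⁻¹ * f⁻¹⁻¹ = f⁻¹ * (shiftHom Γ f * f⁻¹)⁻¹ * f⁻¹⁻¹ := by
          rw [map_inv]; group
        rw [this]
        exact h.conj (inv_mem hf) (inv_mem hf') }
  have hY : IsFil X Y := by
    refine ⟨fun k f hf => ⟨h.anti k hf.1, h.anti _ hf.2⟩, fun i j => ?_, fun k j x hx => ?_⟩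
    · rw [Subgroup.commutator_le]
      rintro f ⟨hf, ha⟩ g ⟨hg, hb⟩
      have hu := h.comm' hf hg le_rfl
      refine ⟨hu, ?_⟩
      rw [map_commutatorElement]
      obtain ⟨a, ha'⟩ : ∃ a, shiftHom Γ f = a * f := ⟨shiftHom Γ f * f⁻¹, by group⟩
      obtain ⟨b, hb'⟩ : ∃ b, shiftHom Γ g = b * g := ⟨shiftHom Γ g * g⁻¹, by group⟩
      rw [ha', mul_inv_cancel_right] at ha
      rw [hb', mul_inv_cancel_right] at hb
      rw [ha', hb']
      have : ⁅a * f, b * g⁆ * ⁅f, g⁆⁻¹ =
          (a * ⁅f, b⁆ * a⁻¹) * ⁅a * b, ⁅f, g⁆⁆ * (⁅f, g⁆ * ⁅a, b * g⁆ * ⁅f, g⁆⁻¹) := by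
        simp only [commutatorElement_def]; group
      rw [this]
      refine mul_mem (mul_mem (h.conj ha (h.comm' hf hb (by omega))) (h.comm' (i := 1)
        (mul_mem (h.le (by omega) ha) (h.le (by omega) hb)) hu (by omega))) (h.conj hu ?_)
      exact h.comm' ha (mul_mem (h.anti _ hb) hg) (by omega)
    · refine ⟨h.basic k j x hx, ?_⟩
      cases j with
      | zero =>
        have : shiftHom Γ (fun s : ℤ => x ^ Ring.choose s 0) *
            (fun s : ℤ => x ^ Ring.choose s 0)⁻¹ = 1 := by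
          ext s; simp [shiftHom]
        rw [this]; exact one_mem _
      | succ j =>
        have : shiftHom Γ (fun s : ℤ => x ^ Ring.choose s (j + 1)) *
            (fun s : ℤ => x ^ Ring.choose s (j + 1))⁻¹ = fun s : ℤ => x ^ Ring.choose s j := by
          ext s
          change x ^ Ring.choose (s + 1) (j + 1) * (x ^ Ring.choose s (j + 1))⁻¹ = _
          rw [Ring.choose_succ_succ, zpow_add, mul_inv_cancel_right]
        rw [this]
        exact h.basic (k + 1) j x (by rwa [add_right_comm])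
  exact (polyFil_le hY k hf).2

theorem val_mem_of_polyFil {X : ℕ → Subgroup Γ} (hX : ∀ k, X (k + 1) ≤ X k)
    (hX' : ∀ i j, ⁅X i, X j⁆ ≤ X (i + j)) (j : ℕ) : ∀ (k : ℕ) (f : ℤ → Γ), f ∈ polyFil X k →
      (∀ s : ℕ, s < j → f s = 1) → ∀ s, f s ∈ X (k + j) := by
  induction j with
  | zero =>
    intro k f hf _ s
    have h : IsFil X fun k => Subgroup.pi Set.univ fun _ : ℤ => X k := by
      refine ⟨fun k f hf s hs => hX k (hf s hs), fun i j => ?_, fun k j x hx s _ => ?_⟩
      · rw [Subgroup.commutator_le]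
        intro f hf g hg s hs
        exact hX' i j (Subgroup.commutator_mem_commutator (hf s hs) (hg s hs))
      · exact zpow_mem (antitone_nat_of_succ_le hX (Nat.le_add_right k j) hx) _
    exact polyFil_le h k hf s trivial
  | succ j ih =>
    intro k f hf h0 s
    have h1 := ih (k + 1) _ (shift_mem_polyFil X k hf) (by
      intro s hs
      change f (s + 1) * (f s)⁻¹ = 1
      have := h0 (s + 1) (by omega)
      push_cast at this
      rw [this, h0 s (by omega)]; simp)
    have h2 : ∀ s, f (s + 1) * (f s)⁻¹ ∈ X (k + (j + 1)) := fun s => by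
      have := h1 s
      rwa [add_right_comm] at this
    induction s using Int.induction_on with
    | zero =>
      have := h0 0 (by omega)
      rw [Nat.cast_zero] at this
      rw [this]; exact one_mem _
    | succ s ih => simpa using mul_mem (h2 s) ih
    | pred s ih =>
      have h3 := h2 (-s - 1)
      rw [sub_add_cancel] at h3
      have := mul_mem (inv_mem ih) h3
      rw [inv_mul_cancel_left] at this
      exact inv_mem_iff.1 this

end fil

variable {I : Type} {N : I → Type u} [∀ i, Group (N i)]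

/-- pointwise power -/
def pw (x : ∀ i, N i) (t : I → ℤ) : ∀ i, N i := fun i => x i ^ t i

/-- substitution of a family of integers -/
def sbst (f : ℤ → ∀ i, N i) (t : I → ℤ) : ∀ i, N i := fun i => f (t i) i

/-- closed under powers with exponents in `R` -/
def Powered (R : Subring (I → ℤ)) (K : Subgroup (∀ i, N i)) : Prop :=
  ∀ x ∈ K, ∀ t ∈ R, pw x t ∈ K

/-- closed under binomial coefficients -/
def Bin (R : Subring (I → ℤ)) (D : ℕ) : Prop :=
  ∀ t ∈ R, ∀ j ≤ D, (fun i => Ring.choose (t i) j) ∈ R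

theorem bin_of_sat {R : Subring (I → ℤ)} {D : ℕ}
    (h : ∀ j ≤ D, ∀ t : I → ℤ, (j.factorial : I → ℤ) * t ∈ R → t ∈ R) : Bin R D := by
  intro t ht j hj
  apply h j hj
  have h1 : ∀ f : Polynomial ℤ, (fun i => f.smeval (t i)) ∈ R := by
    intro f
    induction f using Polynomial.induction_on' with
    | add f g hf hg =>
      simp only [Polynomial.smeval_add]
      exact add_mem hf hg
    | monomial n a =>
      simp only [Polynomial.smeval_monomial]
      exact zsmul_mem (pow_mem ht n) a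
  have h2 := h1 (descPochhammer ℤ j)
  simp only [Ring.descPochhammer_eq_factorial_smul_choose, nsmul_eq_mul] at h2
  exact h2

theorem pw_add (x : ∀ i, N i) (t t' : I → ℤ) : pw x (t + t') = pw x t * pw x t' :=
  funext fun _ => zpow_add _ _ _

theorem pw_mul (x : ∀ i, N i) (t t' : I → ℤ) : pw x (t * t') = pw (pw x t) t' :=
  funext fun _ => zpow_mul _ _ _

theorem pw_neg (x : ∀ i, N i) (t : I → ℤ) : pw x (-t) = (pw x t)⁻¹ :=
  funext fun _ => zpow_neg _ _

@[simp] theorem pw_zero (x : ∀ i, N i) : pw x 0 = 1 := funext fun _ => zpow_zero _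

@[simp] theorem pw_one (x : ∀ i, N i) : pw x 1 = x := funext fun _ => zpow_one _

@[simp] theorem one_pw (t : I → ℤ) : pw (1 : ∀ i, N i) t = 1 := funext fun _ => one_zpow _

theorem pw_intCast (x : ∀ i, N i) (s : ℤ) : pw x s = x ^ s := rfl

theorem pw_natCast (x : ∀ i, N i) (s : ℕ) : pw x s = x ^ s := funext fun _ => zpow_natCast _ _

theorem pw_conj (g x : ∀ i, N i) (t : I → ℤ) : pw (g * x * g⁻¹) t = g * pw x t * g⁻¹ :=
  funext fun _ => conj_zpow

theorem pw_inv (x : ∀ i, N i) (t : I → ℤ) : pw x⁻¹ t = (pw x t)⁻¹ :=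
  funext fun _ => inv_zpow _ _

/-- sequences built from constants and powers in `M` -/
def Poly (M : Subgroup (∀ i, N i)) : Subgroup (ℤ → ∀ i, N i) :=
  Subgroup.closure ({f | ∃ x ∈ M, f = fun _ => x} ∪ {f | ∃ x ∈ M, f = fun s : ℤ => x ^ s})

theorem cst_mem_poly {M : Subgroup (∀ i, N i)} {x : ∀ i, N i} (hx : x ∈ M) :
    (fun _ : ℤ => x) ∈ Poly M := Subgroup.subset_closure (Or.inl ⟨x, hx, rfl⟩)

theorem pow_mem_poly {M : Subgroup (∀ i, N i)} {x : ∀ i, N i} (hx : x ∈ M) :
    (fun s : ℤ => x ^ s) ∈ Poly M := Subgroup.subset_closure (Or.inr ⟨x, hx, rfl⟩)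

theorem sbst_mem {M : Subgroup (∀ i, N i)} [M.Normal] {c : ℕ} (hM : M.lowerCentralSeries c = ⊥)
    {R : Subring (I → ℤ)} (hR : Bin R c) {K : Subgroup (∀ i, N i)} (hK : Powered R K)
    {f : ℤ → ∀ i, N i} (hf : f ∈ Poly M) (hfK : ∀ s, f s ∈ K) {t : I → ℤ} (ht : t ∈ R) :
    sbst f t ∈ K := by
  let X : ℕ → Subgroup (∀ i, N i) := fun k => M.lowerCentralSeries (k - 1)
  have hanti : ∀ {i j}, i ≤ j → M.lowerCentralSeries j ≤ M.lowerCentralSeries i := by
    intro i j h
    rw [← itc_eq_lcs, ← itc_eq_lcs]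
    exact itc_anti _ _ h
  have hX : ∀ k, X (k + 1) ≤ X k := fun k => hanti (by omega)
  have hX' : ∀ i j, ⁅X i, X j⁆ ≤ X (i + j) := fun i j =>
    (commutator_lcs_lcs M _ _).trans (hanti (by omega))
  have h := isFil_polyFil X
  have hf' : f ∈ polyFil X 0 := by
    refine (Subgroup.closure_le _).2 ?_ hf
    rintro _ (⟨x, hx, rfl⟩ | ⟨x, hx, rfl⟩)
    · simpa using h.basic 0 0 x hx
    · simpa using h.basic 0 1 x hx
  have key : ∀ j ≤ c + 1, ∀ f ∈ polyFil X 0, (∀ s, f s ∈ K) → (∀ s : ℕ, s < j → f s = 1) →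
      sbst f t ∈ K := by
    intro j hj
    induction hj using Nat.decreasingInduction with
    | self =>
      intro f hf _ h0
      have : f = 1 := by
        funext s
        have := val_mem_of_polyFil hX hX' _ 0 f hf h0 s
        simpa [X, hM] using this
      rw [this]
      exact one_mem _
    | of_succ j hj ih =>
      intro f hf hfK h0
      have hc := val_mem_of_polyFil hX hX' _ 0 f hf h0 j
      have h1 := ih (f * (fun s : ℤ => f j ^ Ring.choose s j)⁻¹)
        (mul_mem hf (inv_mem (h.basic 0 j _ hc)))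
        (fun s => mul_mem (hfK s) (inv_mem (zpow_mem (hfK j) _))) (by
          intro s hs
          change f s * (f j ^ Ring.choose (s : ℤ) j)⁻¹ = 1
          rw [Ring.choose_natCast]
          rcases Nat.lt_succ_iff_lt_or_eq.1 hs with hs | rfl
          · rw [h0 s hs, Nat.choose_eq_zero_of_lt hs]; simp
          · simp)
      have h2 := hK _ (hfK j) _ (hR t ht j (by omega))
      have : sbst f t = sbst (f * (fun s : ℤ => f j ^ Ring.choose s j)⁻¹) t *
          pw (f j) fun i => Ring.choose (t i) j := by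
        funext i
        simp [sbst, pw]
      rw [this]
      exact mul_mem h1 h2
  exact key 0 (by omega) f hf' hfK (by simp)

end Pool.Agent.Lib.MP_2551c4_al
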