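import Mathlib
import Pool.Agent.Lib.MP_2551c4_al.Taylor

/-! Subgroups closed under powers from a binomial ring and their coordinates. -/

namespace Pool.Agent.Lib.MP_2551c4_al

open scoped commutatorElement

universe u

section
variable {G : Type u} [Group G]

/-- `H` normalizes `K` -/
def Nz (H K : Subgroup G) : Prop := ∀ h ∈ H, ∀ k ∈ K, h * k * h⁻¹ ∈ K

theorem Nz.exists_quot {H K : Subgroup G} (h : Nz H K) :
    ∃ (Q : Type u) (_ : Group Q) (π : H →* Q), ∀ x : H, π x = 1 ↔ (x : G) ∈ K := by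
  have : (K.subgroupOf H).Normal := ⟨fun k hk x => h x x.2 k hk⟩
  exact ⟨H ⧸ K.subgroupOf H, inferInstance, QuotientGroup.mk' _, fun x =>
    QuotientGroup.eq_one_iff x⟩

theorem Nz.comm_mem {H K : Subgroup G} (h : Nz H K) {x k : G} (hx : x ∈ H) (hk : k ∈ K) :
    ⁅x, k⁆ ∈ K := mul_mem (h x hx k hk) (inv_mem hk)

theorem comm_mem_symm {K : Subgroup G} {x y : G} (h : ⁅x, y⁆ ∈ K) : ⁅y, x⁆ ∈ K := by
  rw [← commutatorElement_inv]; exact inv_mem h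

/-- elements of `H` commuting with `x` modulo `K` -/
def Nz.cent {H K : Subgroup G} (h : Nz H K) (x : G) : Subgroup G where
  carrier := {y | y ∈ H ∧ ⁅x, y⁆ ∈ K}
  one_mem' := ⟨one_mem _, by simp⟩
  mul_mem' := by
    rintro a b ⟨ha, ha'⟩ ⟨hb, hb'⟩
    refine ⟨mul_mem ha hb, ?_⟩
    have : ⁅x, a * b⁆ = ⁅x, a⁆ * (a * ⁅x, b⁆ * a⁻¹) := by
      simp only [commutatorElement_def]; group
    rw [this]
    exact mul_mem ha' (h a ha _ hb')
  inv_mem' := by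
    rintro a ⟨ha, ha'⟩
    refine ⟨inv_mem ha, ?_⟩
    have : ⁅x, a⁻¹⁆ = a⁻¹ * ⁅x, a⁆⁻¹ * a⁻¹⁻¹ := by
      simp only [commutatorElement_def]; group
    rw [this]
    exact h _ (inv_mem ha) _ (inv_mem ha')

theorem Nz.mul_zpow {H K : Subgroup G} (h : Nz H K) {a b : G} (ha : a ∈ H) (hb : b ∈ H)
    (hab : ⁅a, b⁆ ∈ K) (s : ℤ) : (a * b) ^ s * (a ^ s * b ^ s)⁻¹ ∈ K := by
  obtain ⟨Q, _, π, hπ⟩ := h.exists_quot
  have h1 : Commute (π ⟨a, ha⟩) (π ⟨b, hb⟩) := by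
    rw [← commutatorElement_eq_one_iff_commute, ← map_commutatorElement]
    exact (hπ _).2 hab
  refine (hπ ((⟨a, ha⟩ * ⟨b, hb⟩) ^ s * (⟨a, ha⟩ ^ s * ⟨b, hb⟩ ^ s)⁻¹)).1 ?_
  simp only [map_mul, map_inv, map_zpow, h1.mul_zpow, mul_inv_cancel]

theorem Nz.comm_zpow {H K : Subgroup G} (h : Nz H K) {a b : G} (ha : a ∈ H) (hb : b ∈ H)
    (hab : ⁅a, ⁅a, b⁆⁆ ∈ K) (s : ℤ) : ⁅a ^ s, b⁆ * (⁅a, b⁆ ^ s)⁻¹ ∈ K := by
  obtain ⟨Q, _, π, hπ⟩ := h.exists_quot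
  have h1 : Commute (π ⟨a, ha⟩) ⁅π ⟨a, ha⟩, π ⟨b, hb⟩⁆ := by
    rw [← commutatorElement_eq_one_iff_commute, ← map_commutatorElement, ← map_commutatorElement]
    exact (hπ _).2 hab
  refine (hπ (⁅(⟨a, ha⟩ : H) ^ s, ⟨b, hb⟩⁆ * (⁅(⟨a, ha⟩ : H), ⟨b, hb⟩⁆ ^ s)⁻¹)).1 ?_
  simp only [map_mul, map_inv, map_zpow, map_commutatorElement]
  generalize π ⟨a, ha⟩ = x at *
  generalize π ⟨b, hb⟩ = y at *
  have h2 : Commute x (y * x * y⁻¹)⁻¹ := by
    have : (y * x * y⁻¹)⁻¹ = x⁻¹ * ⁅x, y⁆ := by simp only [commutatorElement_def]; group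
    rw [this]
    exact (Commute.refl x).inv_right.mul_right h1
  have e1 : ⁅x, y⁆ = x * (y * x * y⁻¹)⁻¹ := by simp only [commutatorElement_def]; group
  rw [e1, h2.mul_zpow, inv_zpow, conj_zpow]
  simp only [commutatorElement_def]; group

end

variable {I : Type} {N : I → Type u} [∀ i, Group (N i)]

/-- the standing hypotheses -/
structure Ctx (R : Subring (I → ℤ)) (M : Subgroup (∀ i, N i)) (c : ℕ) : Prop where
  normal : M.Normal
  nil : M.lowerCentralSeries c = ⊥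
  bin : Bin R c
  pow : Powered R M

variable {R : Subring (I → ℤ)} {M : Subgroup (∀ i, N i)} {c : ℕ}

theorem Ctx.comm_pw (C : Ctx R M c) {H K : Subgroup (∀ i, N i)} (hH : H ≤ M) (hK : Powered R K)
    (h : Nz H K) {x y : ∀ i, N i} (hx : x ∈ M) (hy : y ∈ H) (hxy : ⁅x, y⁆ ∈ K) {t : I → ℤ}
    (ht : t ∈ R) : ⁅x, pw y t⁆ ∈ K := by
  have := C.normal
  exact sbst_mem C.nil C.bin hK (f := fun s => ⁅x, y ^ s⁆)
    (mul_mem (mul_mem (mul_mem (cst_mem_poly hx) (pow_mem_poly (hH hy)))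
      (inv_mem (cst_mem_poly hx))) (inv_mem (pow_mem_poly (hH hy))))
    (fun s => ((h.cent x).zpow_mem (x := y) ⟨hy, hxy⟩ s).2) ht

theorem Ctx.mul_pw (C : Ctx R M c) {H K : Subgroup (∀ i, N i)} (hH : H ≤ M) (hK : Powered R K)
    (h : Nz H K) {a b : ∀ i, N i} (ha : a ∈ H) (hb : b ∈ H) (hab : ⁅a, b⁆ ∈ K) {t : I → ℤ}
    (ht : t ∈ R) : pw (a * b) t * (pw a t * pw b t)⁻¹ ∈ K := by
  have := C.normal
  exact sbst_mem C.nil C.bin hK (f := fun s => (a * b) ^ s * (a ^ s * b ^ s)⁻¹)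
    (mul_mem (pow_mem_poly (hH (mul_mem ha hb)))
      (inv_mem (mul_mem (pow_mem_poly (hH ha)) (pow_mem_poly (hH hb)))))
    (h.mul_zpow ha hb hab) ht

theorem Ctx.pw_comm (C : Ctx R M c) {H K : Subgroup (∀ i, N i)} (hH : H ≤ M) (hK : Powered R K)
    (h : Nz H K) {a b : ∀ i, N i} (ha : a ∈ H) (hb : b ∈ H) (hab : ⁅a, ⁅a, b⁆⁆ ∈ K) {t : I → ℤ}
    (ht : t ∈ R) : ⁅pw a t, b⁆ * (pw ⁅a, b⁆ t)⁻¹ ∈ K := by
  have := C.normal
  have hc : ⁅a, b⁆ ∈ M :=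
    hH (mul_mem (mul_mem (mul_mem ha hb) (inv_mem ha)) (inv_mem hb))
  exact sbst_mem C.nil C.bin hK (f := fun s => ⁅a ^ s, b⁆ * (⁅a, b⁆ ^ s)⁻¹)
    (mul_mem (mul_mem (mul_mem (mul_mem (pow_mem_poly (hH ha)) (cst_mem_poly (hH hb)))
      (inv_mem (pow_mem_poly (hH ha)))) (inv_mem (cst_mem_poly (hH hb))))
      (inv_mem (pow_mem_poly hc)))
    (h.comm_zpow ha hb hab) ht

/-- the powered closure -/
def pcl (R : Subring (I → ℤ)) (D : Set (∀ i, N i)) : Subgroup (∀ i, N i) :=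
  sInf {K | Powered R K ∧ D ⊆ K}

theorem pcl_le {D : Set (∀ i, N i)} {K : Subgroup (∀ i, N i)} (hK : Powered R K) (hD : D ⊆ K) :
    pcl R D ≤ K := sInf_le ⟨hK, hD⟩

theorem subset_pcl {D : Set (∀ i, N i)} {x : ∀ i, N i} (hx : x ∈ D) : x ∈ pcl R D :=
  Subgroup.mem_sInf.2 fun _ hK => hK.2 hx

theorem powered_pcl (D : Set (∀ i, N i)) : Powered R (pcl R D) := fun x hx t ht =>
  Subgroup.mem_sInf.2 fun K hK => hK.1 x (Subgroup.mem_sInf.1 hx K hK) t ht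

theorem conj_mem_pcl {D : Set (∀ i, N i)} {g : ∀ i, N i} (hg : ∀ d ∈ D, g * d * g⁻¹ ∈ pcl R D)
    {x : ∀ i, N i} (hx : x ∈ pcl R D) : g * x * g⁻¹ ∈ pcl R D := by
  have : pcl R D ≤ (pcl R D).comap (MulAut.conj g).toMonoidHom := by
    refine pcl_le (fun x hx t ht => ?_) hg
    change g * pw x t * g⁻¹ ∈ pcl R D
    rw [← pw_conj]
    exact powered_pcl D _ hx t ht
  exact this hx

/-- elements with coordinates in `R` -/
def Coord (R : Subring (I → ℤ)) : List (∀ i, N i) → Set (∀ i, N i)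
  | [] => {1}
  | y :: ys => {x | ∃ t ∈ R, ∃ k ∈ Coord R ys, x = pw y t * k}

theorem one_mem_coord : ∀ ys : List (∀ i, N i), 1 ∈ Coord R ys
  | [] => rfl
  | _ :: ys => ⟨0, zero_mem _, 1, one_mem_coord ys, by simp⟩

theorem coord_cons {y k : ∀ i, N i} {ys : List (∀ i, N i)} (hk : k ∈ Coord R ys) :
    k ∈ Coord R (y :: ys) := ⟨0, zero_mem _, k, hk, by simp⟩

theorem mem_coord_of_mem {y : ∀ i, N i} : ∀ {ys : List (∀ i, N i)}, y ∈ ys → y ∈ Coord R ys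
  | [], h => by simp at h
  | z :: ys, h => by
    rcases List.mem_cons.1 h with rfl | h
    · exact ⟨1, one_mem _, 1, one_mem_coord ys, by simp⟩
    · exact coord_cons (mem_coord_of_mem h)

theorem coord_mono {R' : Subring (I → ℤ)} (h : R ≤ R') :
    ∀ {ys : List (∀ i, N i)} {x : ∀ i, N i}, x ∈ Coord R ys → x ∈ Coord R' ys
  | [], _, hx => hx
  | _ :: _, _, ⟨t, ht, k, hk, hx⟩ => ⟨t, h ht, k, coord_mono h hk, hx⟩

theorem coord_le {K : Subgroup (∀ i, N i)} : ∀ {ys : List (∀ i, N i)},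
    (∀ y ∈ ys, ∀ t ∈ R, pw y t ∈ K) → ∀ x ∈ Coord R ys, x ∈ K
  | [], _, x, hx => by rw [show x = 1 from hx]; exact one_mem _
  | y :: ys, h, _, ⟨t, ht, k, hk, rfl⟩ =>
    mul_mem (h y (by simp) t ht) (coord_le (fun z hz => h z (by simp [hz])) k hk)

/-- each term is central modulo the later ones -/
def Cen (R : Subring (I → ℤ)) (D : Set (∀ i, N i)) : List (∀ i, N i) → Prop
  | [] => True
  | y :: ys => (∀ d ∈ D, ⁅y, d⁆ ∈ Coord R ys) ∧ Cen R D ys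

/-- the subgroup of elements with coordinates in `R` -/
def csub (R : Subring (I → ℤ)) (ys : List (∀ i, N i)) : Subgroup (∀ i, N i) :=
  Subgroup.closure (Coord R ys)

theorem Ctx.coord_good (C : Ctx R M c) {D : Set (∀ i, N i)} (hD : D ⊆ M) :
    ∀ ys : List (∀ i, N i), (∀ y ∈ ys, y ∈ pcl R D) → Cen R D ys →
      (∀ x ∈ csub R ys, x ∈ Coord R ys) ∧ Powered R (csub R ys) ∧ Nz (pcl R D) (csub R ys) ∧
        csub R ys ≤ pcl R D
  | [], _, _ => by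
    have : csub R ([] : List (∀ i, N i)) = ⊥ := by simp [csub, Coord]
    rw [this]
    refine ⟨fun x hx => hx, fun x hx t _ => ?_, fun h _ k hk => ?_, bot_le⟩
    · rw [Subgroup.mem_bot.1 hx, one_pw]; exact one_mem _
    · rw [Subgroup.mem_bot.1 hk]; simp
  | y :: ys, hy, ⟨hc, hc'⟩ => by
    obtain ⟨h1, h2, h3, h4⟩ := C.coord_good hD ys (fun z hz => hy z (by simp [hz])) hc'
    have hH : pcl R D ≤ M := pcl_le C.pow hD
    have hyH := hy y (by simp)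
    have hpw : ∀ t ∈ R, pw y t ∈ pcl R D := powered_pcl D y hyH
    have s1 : ∀ h ∈ pcl R D, ⁅y, h⁆ ∈ csub R ys := by
      have : pcl R D ≤ h3.cent y := pcl_le
        (fun x hx t ht => ⟨powered_pcl D x hx.1 t ht, C.comm_pw hH h2 h3 (hH hyH) hx.1 hx.2 ht⟩)
        fun d hd => ⟨subset_pcl hd, Subgroup.subset_closure (hc d hd)⟩
      exact fun h hh => (this hh).2
    have s2 : ∀ t ∈ R, ∀ h ∈ pcl R D, ⁅h, pw y t⁆ ∈ csub R ys := fun t ht h hh =>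
      C.comm_pw hH h2 h3 (hH hh) hyH (comm_mem_symm (s1 h hh)) ht
    let K : Subgroup (∀ i, N i) :=
      { carrier := {x | ∃ t ∈ R, ∃ k ∈ csub R ys, x = pw y t * k}
        one_mem' := ⟨0, zero_mem _, 1, one_mem _, by simp⟩
        mul_mem' := by
          rintro _ _ ⟨t, ht, k, hk, rfl⟩ ⟨t', ht', k', hk', rfl⟩
          refine ⟨t + t', add_mem ht ht', _, mul_mem (h3 _ (inv_mem (hpw t' ht')) k hk) hk', ?_⟩
          rw [pw_add]; group
        inv_mem' := by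
          rintro _ ⟨t, ht, k, hk, rfl⟩
          refine ⟨-t, neg_mem ht, _, h3 _ (hpw t ht) _ (inv_mem hk), ?_⟩
          rw [pw_neg]; group }
    have hK : csub R (y :: ys) = K := by
      apply le_antisymm
      · rw [csub, Subgroup.closure_le]
        rintro _ ⟨t, ht, k, hk, rfl⟩
        exact ⟨t, ht, k, Subgroup.subset_closure hk, rfl⟩
      · rintro _ ⟨t, ht, k, hk, rfl⟩
        exact Subgroup.subset_closure ⟨t, ht, k, h1 k hk, rfl⟩
    rw [hK]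
    refine ⟨?_, ?_, ?_, ?_⟩
    · rintro _ ⟨t, ht, k, hk, rfl⟩
      exact ⟨t, ht, k, h1 k hk, rfl⟩
    · rintro _ ⟨t, ht, k, hk, rfl⟩ s hs
      have h5 := C.mul_pw hH h2 h3 (hpw t ht) (h4 hk) (h3.comm_mem (hpw t ht) hk) hs
      refine ⟨t * s, mul_mem ht hs, _, mul_mem
        (h3 _ (inv_mem (hpw _ (mul_mem ht hs))) _ h5) (h2 k hk s hs), ?_⟩
      rw [pw_mul]; group
    · rintro h hh _ ⟨t, ht, k, hk, rfl⟩
      refine ⟨t, ht, _, mul_mem (h3 _ (inv_mem (hpw t ht)) _ (s2 t ht h hh)) (h3 h hh k hk), ?_⟩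
      simp only [commutatorElement_def]; group
    · rintro _ ⟨t, ht, k, hk, rfl⟩
      exact mul_mem (hpw t ht) (h4 hk)

theorem Cen.tail {D : Set (∀ i, N i)} : ∀ (bs : List (∀ i, N i)) {ys : List (∀ i, N i)},
    Cen R D (bs ++ ys) → Cen R D ys
  | [], _, h => h
  | _ :: bs, _, h => Cen.tail bs h.2

theorem Ctx.pcl_eq (C : Ctx R M c) {ys : List (∀ i, N i)} (hD : ∀ y ∈ ys, y ∈ M)
    (hc : Cen R {y | y ∈ ys} ys) : pcl R {y | y ∈ ys} = csub R ys := by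
  obtain ⟨-, h2, -, h4⟩ := C.coord_good (D := {y | y ∈ ys}) hD ys (fun y hy => subset_pcl hy) hc
  exact le_antisymm (pcl_le h2 fun y hy => Subgroup.subset_closure (mem_coord_of_mem hy)) h4

end Pool.Agent.Lib.MP_2551c4_al
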