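import Mathlib

/-! Abelian sections of a group as additive groups. -/

namespace Pool.Agent.Lib.MP_2551c4_al

open scoped commutatorElement

universe u

variable {G : Type u} [Group G]

/-- `φ` identifies `X / Y` with the additive group `S` -/
structure IsSec (X Y : Subgroup G) {S : Type*} [AddCommGroup S] (φ : G → S) : Prop where
  add : ∀ x ∈ X, ∀ y ∈ X, φ (x * y) = φ x + φ y
  ker : ∀ x ∈ X, φ x = 0 ↔ x ∈ Y
  surj : ∀ s, ∃ x ∈ X, φ x = s
  le : Y ≤ X

theorem exists_sec (X Y : Subgroup G) (hYX : Y ≤ X) (hc : ⁅X, X⁆ ≤ Y) :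
    ∃ (S : Type u) (_ : AddCommGroup S) (φ : G → S), IsSec X Y φ := by
  classical
  have hn : (Y.subgroupOf X).Normal := by
    constructor
    intro y hy x
    rw [Subgroup.mem_subgroupOf] at hy ⊢
    have : ((x * y * x⁻¹ : X) : G) = ⁅(x : G), (y : G)⁆ * y := by
      simp [commutatorElement_def]
    rw [this]
    exact mul_mem (hc (Subgroup.commutator_mem_commutator x.2 y.2)) hy
  let inst : CommGroup (X ⧸ Y.subgroupOf X) :=
    { (inferInstance : Group (X ⧸ Y.subgroupOf X)) with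
      mul_comm := by
        intro a b
        obtain ⟨a, rfl⟩ := QuotientGroup.mk_surjective a
        obtain ⟨b, rfl⟩ := QuotientGroup.mk_surjective b
        rw [← QuotientGroup.mk_mul, ← QuotientGroup.mk_mul, QuotientGroup.eq,
          Subgroup.mem_subgroupOf]
        have : (((a * b)⁻¹ * (b * a) : X) : G) = ⁅(b : G)⁻¹, (a : G)⁻¹⁆ := by
          simp [commutatorElement_def, mul_assoc]
        rw [this]
        exact hc (Subgroup.commutator_mem_commutator (inv_mem b.2) (inv_mem a.2)) }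
  refine ⟨Additive (X ⧸ Y.subgroupOf X), inferInstance,
    fun g => if h : g ∈ X then Additive.ofMul (QuotientGroup.mk ⟨g, h⟩) else 0, ?_, ?_, ?_, hYX⟩
  · intro x hx y hy
    simp only [hx, hy, mul_mem hx hy, dif_pos]
    rfl
  · intro x hx
    simp only [hx, dif_pos]
    rw [ofMul_eq_zero, QuotientGroup.eq_one_iff, Subgroup.mem_subgroupOf]
  · intro s
    obtain ⟨a, ha⟩ := QuotientGroup.mk_surjective s.toMul
    refine ⟨a, a.2, ?_⟩
    simp only [a.2, dif_pos]
    rw [ha]; rfl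

namespace IsSec

variable {X Y : Subgroup G} {S : Type*} [AddCommGroup S] {φ : G → S} (h : IsSec X Y φ)
include h

theorem one : φ 1 = 0 := (h.ker 1 (one_mem _)).2 (one_mem _)

theorem of_mem {y : G} (hy : y ∈ Y) : φ y = 0 := (h.ker y (h.le hy)).2 hy

theorem inv {x : G} (hx : x ∈ X) : φ x⁻¹ = -φ x := by
  have := h.add x hx x⁻¹ (inv_mem hx)
  rw [mul_inv_cancel, h.one] at this
  exact (neg_eq_of_add_eq_zero_right this.symm).symm

theorem pow {x : G} (hx : x ∈ X) (n : ℕ) : φ (x ^ n) = n • φ x := by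
  induction n with
  | zero => simp [h.one]
  | succ n ih => rw [pow_succ, h.add _ (pow_mem hx n) _ hx, ih, succ_nsmul]

theorem zpow {x : G} (hx : x ∈ X) (n : ℤ) : φ (x ^ n) = n • φ x := by
  cases n with
  | ofNat n => simpa using h.pow hx n
  | negSucc n => rw [zpow_negSucc, h.inv (pow_mem hx _), h.pow hx, negSucc_zsmul]

theorem eq_iff {x y : G} (hx : x ∈ X) (hy : y ∈ X) : φ x = φ y ↔ x * y⁻¹ ∈ Y := by
  rw [← h.ker _ (mul_mem hx (inv_mem hy)), h.add _ hx _ (inv_mem hy), h.inv hy, ← sub_eq_add_neg,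
    sub_eq_zero]

theorem list_prod (l : List G) (hl : ∀ x ∈ l, x ∈ X) : φ l.prod = (l.map φ).sum := by
  induction l with
  | nil => simp [h.one]
  | cons a l ih =>
    have h1 : ∀ x ∈ l, x ∈ X := fun x hx => hl x (by simp [hx])
    rw [List.prod_cons, h.add _ (hl a (by simp)) _ (Subgroup.list_prod_mem _ h1), ih h1]
    simp

theorem exists_hom {S' : Type*} [AddCommGroup S'] (F : G → S')
    (hF : ∀ x ∈ X, ∀ y ∈ X, F (x * y) = F x + F y) (hY : ∀ y ∈ Y, F y = 0) :
    ∃ L : S →+ S', ∀ x ∈ X, L (φ x) = F x := by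
  choose s hs hs' using h.surj
  have key : ∀ x ∈ X, F (s (φ x)) = F x := by
    intro x hx
    have h1 := (h.eq_iff (hs (φ x)) hx).1 (hs' _)
    have h2 := hF _ (h.le h1) _ hx
    rw [inv_mul_cancel_right, hY _ h1, zero_add] at h2
    exact h2
  refine ⟨AddMonoidHom.mk' (fun a => F (s a)) fun a b => ?_, key⟩
  rw [← hF _ (hs a) _ (hs b), ← key _ (mul_mem (hs a) (hs b)), h.add _ (hs a) _ (hs b), hs', hs']

theorem exists_act [hX : X.Normal] [hY : Y.Normal] :
    ∃ ρ : G →* Module.End ℤ S, ∀ g, ∀ x ∈ X, ρ g (φ x) = φ (g * x * g⁻¹) := by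
  have : ∀ g : G, ∃ L : S →+ S, ∀ x ∈ X, L (φ x) = φ (g * x * g⁻¹) := by
    intro g
    refine h.exists_hom (fun x => φ (g * x * g⁻¹)) (fun x hx y hy => ?_) fun y hy => ?_
    · rw [← h.add _ (hX.conj_mem _ hx g) _ (hX.conj_mem _ hy g)]
      congr 1
      group
    · exact h.of_mem (hY.conj_mem _ hy g)
  choose L hL using this
  refine ⟨⟨⟨fun g => (L g).toIntLinearMap, ?_⟩, ?_⟩, hL⟩
  · ext s
    obtain ⟨x, hx, rfl⟩ := h.surj s
    simp [hL _ _ hx]
  · intro a b
    ext s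
    obtain ⟨x, hx, rfl⟩ := h.surj s
    simp only [AddMonoidHom.coe_toIntLinearMap, Module.End.mul_apply, hL _ _ hx,
      hL _ _ (hX.conj_mem _ hx b)]
    congr 1
    group

theorem exists_coord {r : ℕ} (y : Fin r → G) (hy : ∀ i, y i ∈ X)
    (hX : X ≤ Subgroup.closure (Set.range y)) (s : S) :
    ∃ v : Fin r → ℤ, ∑ i, v i • φ (y i) = s := by
  obtain ⟨x, hx, rfl⟩ := h.surj s
  have hle : Subgroup.closure (Set.range y) ≤ X := by
    rw [Subgroup.closure_le]; rintro _ ⟨i, rfl⟩; exact hy i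
  have h1 := hX hx
  clear hx
  induction h1 using Subgroup.closure_induction with
  | mem x hx =>
    obtain ⟨i, rfl⟩ := hx
    exact ⟨Pi.single i 1, by simp [Pi.single_apply]⟩
  | one => exact ⟨0, by simp [h.one]⟩
  | mul a b ha hb iha ihb =>
    obtain ⟨v, hv⟩ := iha
    obtain ⟨v', hv'⟩ := ihb
    exact ⟨v + v', by
      simp [add_smul, Finset.sum_add_distrib, hv, hv', h.add _ (hle ha) _ (hle hb)]⟩
  | inv a ha iha =>
    obtain ⟨v, hv⟩ := iha
    exact ⟨-v, by simp [hv, h.inv (hle ha)]⟩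

end IsSec

end Pool.Agent.Lib.MP_2551c4_al
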