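import Mathlib
import Pool.Agent.Lib.MP_2551c4_al.Powered
import Pool.Agent.Lib.MP_2551c4_al.Sec
import Pool.Agent.Lib.MP_2551c4_al.CommAlg

/-! Finite quotients of powered nilpotent groups over finitely generated rings. -/

namespace Pool.Agent.Lib.MP_2551c4_al

open scoped commutatorElement

universe u

/-- one step of the upper central series modulo `K` -/
def up {G : Type u} [Group G] (H K : Subgroup G) : Subgroup G :=
  Subgroup.closure {x | x ∈ H ∧ ∀ h ∈ H, ⁅x, h⁆ ∈ K}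

theorem mem_up {G : Type u} [Group G] {H K : Subgroup G} (hn : Nz H K) {x : G} :
    x ∈ up H K ↔ x ∈ H ∧ ∀ h ∈ H, ⁅x, h⁆ ∈ K := by
  refine ⟨fun hx => ?_, fun hx => Subgroup.subset_closure hx⟩
  induction hx using Subgroup.closure_induction with
  | mem x hx => exact hx
  | one => exact ⟨one_mem _, by simp⟩
  | mul a b _ _ ha hb =>
    exact ⟨mul_mem ha.1 hb.1, fun h hh => comm_mem_symm ((hn.cent h).mul_mem
      ⟨ha.1, comm_mem_symm (ha.2 h hh)⟩ ⟨hb.1, comm_mem_symm (hb.2 h hh)⟩).2⟩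
  | inv a _ ha =>
    exact ⟨inv_mem ha.1, fun h hh => comm_mem_symm ((hn.cent h).inv_mem
      ⟨ha.1, comm_mem_symm (ha.2 h hh)⟩).2⟩

variable {I : Type} {N : I → Type u} [∀ i, Group (N i)]

/-- saturation of a subalgebra -/
def satur (S : Subalgebra ℤ (I → ℤ)) (σ : ℕ) : Subring (I → ℤ) where
  carrier := {t | ∃ a : ℕ, (σ : I → ℤ) ^ a * t ∈ S}
  one_mem' := ⟨0, by simp⟩
  zero_mem' := ⟨0, by simp⟩
  mul_mem' := by
    rintro x y ⟨a, ha⟩ ⟨b, hb⟩
    refine ⟨a + b, ?_⟩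
    rw [pow_add, mul_mul_mul_comm]
    exact mul_mem ha hb
  add_mem' := by
    rintro x y ⟨a, ha⟩ ⟨b, hb⟩
    refine ⟨a + b, ?_⟩
    have : (σ : I → ℤ) ^ (a + b) * (x + y) = σ ^ b * (σ ^ a * x) + σ ^ a * (σ ^ b * y) := by ring
    rw [this]
    exact add_mem (mul_mem (pow_mem (natCast_mem _ _) _) ha)
      (mul_mem (pow_mem (natCast_mem _ _) _) hb)
  neg_mem' := by
    rintro x ⟨a, ha⟩
    exact ⟨a, by rw [mul_neg]; exact neg_mem ha⟩

theorem mem_satur {S : Subalgebra ℤ (I → ℤ)} {σ : ℕ} {t : I → ℤ} (ht : t ∈ S) : t ∈ satur S σ :=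
  ⟨0, by simpa⟩

theorem bin_satur (S : Subalgebra ℤ (I → ℤ)) {σ c : ℕ} (h : c.factorial ∣ σ) :
    Bin (satur S σ) c := by
  refine bin_of_sat fun j hj t ⟨a, ha⟩ => ⟨a + 1, ?_⟩
  obtain ⟨k, hk⟩ := (Nat.factorial_dvd_factorial hj).trans h
  have : (σ : I → ℤ) ^ (a + 1) * t = k * (σ ^ a * (j.factorial * t)) := by
    rw [pow_succ]
    nth_rw 2 [hk]
    push_cast
    ring
  rw [this]
  exact mul_mem (natCast_mem _ _) ha

theorem exists_inv_pow {S : Type*} [CommRing S] {J : Ideal S} {σ : S} (h : ∃ s, s * σ - 1 ∈ J)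
    (c a : ℕ) : ∃ s, s * σ ^ a - 1 ∈ J ^ c := by
  obtain ⟨s, hs⟩ := h
  obtain ⟨s', hs'⟩ := sub_dvd_pow_sub_pow 1 (1 - s * σ) c
  have h1 : s * s' * σ - 1 ∈ J ^ c := by
    have : s * s' * σ - 1 = -(1 - s * σ) ^ c := by
      rw [one_pow] at hs'
      linear_combination -hs'
    rw [this]
    exact neg_mem (Ideal.pow_mem_pow (by simpa using neg_mem hs) c)
  refine ⟨(s * s') ^ a, ?_⟩
  have := sub_dvd_pow_sub_pow (s * s' * σ) 1 a
  rw [one_pow, mul_pow] at this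
  exact Ideal.mem_of_dvd _ this h1

theorem exists_cofinite {S : Subalgebra ℤ (I → ℤ)} [Algebra.FiniteType ℤ S] {σ c : ℕ}
    {M : Subgroup (∀ i, N i)} (C : Ctx (satur S σ) M c) {ys : List (∀ i, N i)}
    (hM : ∀ y ∈ ys, y ∈ M) (hc : Cen (satur S σ) {y | y ∈ ys} ys) (E : Subgroup (∀ i, N i))
    (hE : pcl (satur S σ) {y | y ∈ ys} ≤ E) (hEn : Nz E (pcl (satur S σ) {y | y ∈ ys}))
    {u : ∀ i, N i} (hu : u ∈ pcl (satur S σ) {y | y ∈ ys})
    (huc : ∀ h ∈ pcl (satur S σ) {y | y ∈ ys}, ⁅u, h⁆ = 1) (hu1 : ∀ j : ℕ, u ^ σ ^ j ≠ 1) :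
    ∃ K : Subgroup (∀ i, N i), Nz E K ∧ (∀ j : ℕ, u ^ σ ^ j ∉ K) ∧
      ∃ F : Set (∀ i, N i), F.Finite ∧ ∀ h ∈ pcl (satur S σ) {y | y ∈ ys},
        ∃ f ∈ F, f⁻¹ * h ∈ K := by
  classical
  set R := satur S σ
  set D : Set (∀ i, N i) := {y | y ∈ ys}
  have hHeq := C.pcl_eq hM hc
  set H := pcl R D
  have hHM : H ≤ M := pcl_le C.pow hM
  have hHp : Powered R H := powered_pcl D
  let Good : Subgroup (∀ i, N i) → Prop := fun K => K ≤ H ∧ Powered R K ∧ Nz E K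
  have hnz : ∀ K, Good K → Nz H K := fun K hK h hh => hK.2.2 h (hE hh)
  have hup : ∀ K, Good K → Good (up H K) ∧ K ≤ up H K := by
    intro K hK
    have hm := fun x => mem_up (x := x) (hnz K hK)
    refine ⟨⟨fun x hx => ((hm x).1 hx).1, fun x hx t ht => ?_, fun g hg x hx => ?_⟩,
      fun x hx => (hm x).2 ⟨hK.1 hx, fun h hh => comm_mem_symm ((hnz K hK).comm_mem hh hx)⟩⟩
    · rw [hm] at hx ⊢
      exact ⟨hHp x hx.1 t ht, fun h hh => comm_mem_symm (C.comm_pw hHM hK.2.1 (hnz K hK) (hHM hh)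
        hx.1 (comm_mem_symm (hx.2 h hh)) ht)⟩
    · rw [hm] at hx ⊢
      refine ⟨hEn g hg x hx.1, fun h hh => ?_⟩
      have : ⁅g * x * g⁻¹, h⁆ = g * ⁅x, g⁻¹ * h * g⁻¹⁻¹⁆ * g⁻¹ := by
        simp only [commutatorElement_def]; group
      rw [this]
      exact hK.2.2 g hg _ (hx.2 _ (hEn _ (inv_mem hg) h hh))
  obtain ⟨K, -, hKmax⟩ := zorn_le_nonempty₀ {K | Good K ∧ ∀ j : ℕ, u ^ σ ^ j ∉ K} (by
    intro ch hch hch' y hy
    have hm := fun x => Subgroup.mem_sSup_of_directedOn (x := x) ⟨y, hy⟩ hch'.directedOn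
    refine ⟨sSup ch, ⟨⟨sSup_le fun K hK => (hch hK).1.1, fun x hx t ht => ?_,
      fun g hg x hx => ?_⟩, fun j hj => ?_⟩, fun z hz => le_sSup hz⟩
    · obtain ⟨K, hK, hx⟩ := (hm x).1 hx
      exact (hm _).2 ⟨K, hK, (hch hK).1.2.1 x hx t ht⟩
    · obtain ⟨K, hK, hx⟩ := (hm x).1 hx
      exact (hm _).2 ⟨K, hK, (hch hK).1.2.2 g hg x hx⟩
    · obtain ⟨K, hK, hx⟩ := (hm _).1 hj
      exact (hch hK).2 j hx) ⊥ ⟨⟨bot_le, fun x hx t _ => by
        rw [Subgroup.mem_bot.1 hx, one_pw]; exact one_mem _, fun g _ x hx => by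
        rw [Subgroup.mem_bot.1 hx]; simp⟩, fun j hj => hu1 j (Subgroup.mem_bot.1 hj)⟩
  obtain ⟨hK, hKu⟩ := hKmax.prop
  obtain ⟨hZ1, hKZ⟩ := hup K hK
  have hmZ := fun x => mem_up (x := x) (hnz K hK)
  obtain ⟨Z, _, φ, h⟩ := exists_sec (up H K) K hKZ (by
    rw [Subgroup.commutator_le]
    exact fun a ha b hb => ((hmZ a).1 ha).2 b (hZ1.1 hb))
  have hadd : ∀ t ∈ R, ∀ x ∈ up H K, ∀ y ∈ up H K,
      φ (pw (x * y) t) = φ (pw x t) + φ (pw y t) := by
    intro t ht x hx y hy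
    rw [← h.add _ (hZ1.2.1 x hx t ht) _ (hZ1.2.1 y hy t ht), h.eq_iff
      (hZ1.2.1 _ (mul_mem hx hy) t ht) (mul_mem (hZ1.2.1 x hx t ht) (hZ1.2.1 y hy t ht))]
    exact C.mul_pw hHM hK.2.1 (hnz K hK) (hZ1.1 hx) (hZ1.1 hy) (((hmZ x).1 hx).2 y (hZ1.1 hy)) ht
  choose L hL using fun s : S => h.exists_hom (fun x => φ (pw x s)) (hadd s (mem_satur s.2))
    fun y hy => h.of_mem (hK.2.1 y hy s (mem_satur s.2))
  have hZp : ∀ x ∈ up H K, ∀ s : S, pw x s ∈ up H K := fun x hx s =>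
    hZ1.2.1 x hx s (mem_satur s.2)
  let inst : Module S Z :=
    { smul := fun s z => L s z
      one_smul := fun z => by
        obtain ⟨x, hx, rfl⟩ := h.surj z
        change L 1 _ = _
        rw [hL _ _ hx, OneMemClass.coe_one, pw_one]
      mul_smul := fun s s' z => by
        obtain ⟨x, hx, rfl⟩ := h.surj z
        change L _ _ = L _ (L _ _)
        rw [hL _ _ hx, hL _ _ hx, hL _ _ (hZp x hx s'), ← pw_mul, mul_comm]
        rfl
      smul_zero := fun s => map_zero (L s)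
      smul_add := fun s => map_add (L s)
      add_smul := fun s s' z => by
        obtain ⟨x, hx, rfl⟩ := h.surj z
        change L _ _ = L _ _ + L _ _
        rw [hL _ _ hx, hL _ _ hx, hL _ _ hx, ← h.add _ (hZp x hx s) _ (hZp x hx s'), ← pw_add]
        rfl
      zero_smul := fun z => by
        obtain ⟨x, hx, rfl⟩ := h.surj z
        change L 0 _ = _
        rw [hL _ _ hx, ZeroMemClass.coe_zero, pw_zero, h.one] }
  have hs : ∀ (s : S), ∀ x ∈ up H K, s • φ x = φ (pw x s) := hL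
  have hσ : ∀ a : ℕ, (((σ : S) ^ a : S) : I → ℤ) = (σ : I → ℤ) ^ a := fun a => by simp
  have hfg : ∀ zs : List (∀ i, N i), (∀ y ∈ zs, y ∈ H) → Cen R D zs → ∃ Z0 : Submodule S Z,
      Z0.FG ∧ ∀ x ∈ up H K, x ∈ Coord R zs → ∃ a : ℕ, (σ : S) ^ a • φ x ∈ Z0 := by
    intro zs
    induction zs with
    | nil =>
      intro _ _
      refine ⟨⊥, Submodule.fg_bot, fun x _ hx => ⟨0, ?_⟩⟩
      rw [show x = 1 from hx, h.one, smul_zero]; exact zero_mem _
    | cons y zs ih =>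
      intro hy hc
      have hzs : ∀ z ∈ zs, z ∈ H := fun z hz => hy z (by simp [hz])
      obtain ⟨Z0, hZ0, hZ0'⟩ := ih hzs hc.2
      obtain ⟨h1, h2, h3, h4⟩ := C.coord_good hM zs hzs hc.2
      have hpw : ∀ t ∈ R, pw y t ∈ H := hHp y (hy y (by simp))
      have hpp : ∀ t ∈ R, ∀ k ∈ csub R zs, ∀ s ∈ R, ∃ k' ∈ csub R zs,
          pw (pw y t * k) s = pw y (t * s) * k' := by
        intro t ht k hk s hs
        have h5 := C.mul_pw hHM h2 h3 (hpw t ht) (h4 hk) (h3.comm_mem (hpw t ht) hk) hs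
        refine ⟨_, mul_mem (h3 _ (inv_mem (hpw _ (mul_mem ht hs))) _ h5) (h2 k hk s hs), ?_⟩
        rw [pw_mul]; group
      let Id : Submodule S Z → Ideal S := fun P =>
        { carrier := {s | ∃ k ∈ csub R zs, pw y s * k ∈ up H K ∧ φ (pw y s * k) ∈ P}
          zero_mem' := ⟨1, one_mem _, by simp, by simp [h.one]⟩
          add_mem' := by
            rintro s s' ⟨k, hk, e1, e2⟩ ⟨k', hk', e1', e2'⟩
            have : pw y ((s + s' : S) : I → ℤ) * ((pw y s')⁻¹ * k * (pw y s')⁻¹⁻¹ * k') =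
                (pw y s * k) * (pw y s' * k') := by
              rw [AddMemClass.coe_add, pw_add]; group
            refine ⟨_, mul_mem (h3 _ (inv_mem (hpw _ (mem_satur s'.2))) _ hk) hk', ?_⟩
            rw [this, h.add _ e1 _ e1']
            exact ⟨mul_mem e1 e1', add_mem e2 e2'⟩
          smul_mem' := by
            rintro a s ⟨k, hk, e1, e2⟩
            obtain ⟨k', hk', e⟩ := hpp _ (mem_satur s.2) k hk _ (mem_satur a.2)
            refine ⟨k', hk', ?_⟩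
            rw [smul_eq_mul, mul_comm, MulMemClass.coe_mul, ← e, ← hs a _ e1]
            exact ⟨hZp _ e1 a, P.smul_mem a e2⟩ }
      have : IsNoetherianRing S := Algebra.FiniteType.isNoetherianRing ℤ S
      obtain ⟨T, hT⟩ : (Id ⊤).FG := IsNoetherian.noetherian _
      have hT' : ∀ s ∈ T, ∃ k ∈ csub R zs, pw y (s : S) * k ∈ up H K := by
        intro s hs
        obtain ⟨k, hk, e, -⟩ : s ∈ Id ⊤ := hT ▸ Ideal.subset_span hs
        exact ⟨k, hk, e⟩
      choose! k hk hk' using hT'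
      let P := Submodule.span S (T.image fun s : S => φ (pw y s * k s) : Set Z)
      have hP : Id ⊤ ≤ Id P := by
        rw [← hT, Ideal.span_le]
        intro s hs
        exact ⟨k s, hk s hs, hk' s hs,
          Submodule.subset_span (Finset.mem_coe.2 (Finset.mem_image_of_mem _ hs))⟩
      refine ⟨Z0 ⊔ P, hZ0.sup (Submodule.fg_span (Finset.finite_toSet _)), ?_⟩
      rintro _ hx ⟨t, ht, k0, hk0, rfl⟩
      obtain ⟨a, ha⟩ := id ht
      obtain ⟨k1, hk1, e⟩ := hpp t ht k0 (Subgroup.subset_closure hk0) _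
        (mem_satur ((σ : S) ^ a).2)
      rw [hσ, mul_comm t] at e
      have e1 : pw y ((σ : I → ℤ) ^ a * t) * k1 ∈ up H K := by
        rw [← e, ← hσ]; exact hZp _ hx _
      obtain ⟨k2, hk2, e2, e3⟩ := hP (x := ⟨_, ha⟩) ⟨k1, hk1, e1, trivial⟩
      have e4 : k2⁻¹ * k1 ∈ up H K := by simpa [mul_assoc] using mul_mem (inv_mem e2) e1
      obtain ⟨b, hb⟩ := hZ0' _ e4 (h1 _ (mul_mem (inv_mem hk2) hk1))
      refine ⟨b + a, ?_⟩
      have e5 : (σ : S) ^ a • φ (pw y t * k0) =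
          φ (pw y ((σ : I → ℤ) ^ a * t) * k2) + φ (k2⁻¹ * k1) := by
        rw [hs _ _ hx, hσ, e, ← h.add _ e2 _ e4]
        congr 1
        group
      rw [pow_add, mul_smul, e5, smul_add]
      exact add_mem (Submodule.mem_sup_right (P.smul_mem _ e3)) (Submodule.mem_sup_left hb)
  obtain ⟨Z0, hZ0, hZ0'⟩ := hfg ys (fun y hy => subset_pcl hy) hc
  have hHc : ∀ x ∈ H, x ∈ Coord R ys := fun x hx =>
    (C.coord_good hM ys (fun y hy => subset_pcl hy) hc).1 x (hHeq ▸ hx)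
  have huZ : u ∈ up H K := (hmZ u).2 ⟨hu, fun x hx => by rw [huc x hx]; exact one_mem _⟩
  have hsu : ∀ a : ℕ, (σ : S) ^ a • φ u = φ (u ^ σ ^ a) := fun a => by
    rw [hs _ _ huZ, hσ, ← Nat.cast_pow, pw_natCast]
  obtain ⟨J, hJ, hJσ, hJu⟩ := exists_cofinite_ideal (σ : S) Z0 hZ0 (fun z => by
      obtain ⟨x, hx, rfl⟩ := h.surj z
      exact hZ0' x hx (hHc x (hZ1.1 hx))) (φ u) (fun a ha => by
      rw [hsu, h.ker _ (pow_mem huZ _)] at ha
      exact hKu a ha)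
  let K2 : Subgroup (∀ i, N i) :=
    { carrier := {x | x ∈ up H K ∧ ∃ a : ℕ, (σ : S) ^ a • φ x ∈ J • (⊤ : Submodule S Z)}
      one_mem' := ⟨one_mem _, 0, by simp [h.one]⟩
      mul_mem' := by
        rintro x y ⟨hx, a, ha⟩ ⟨hy, b, hb⟩
        refine ⟨mul_mem hx hy, a + b, ?_⟩
        rw [h.add _ hx _ hy, smul_add]
        refine add_mem ?_ ?_
        · rw [add_comm, pow_add, mul_smul]; exact Submodule.smul_mem _ _ ha
        · rw [pow_add, mul_smul]; exact Submodule.smul_mem _ _ hb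
      inv_mem' := by
        rintro x ⟨hx, a, ha⟩
        exact ⟨inv_mem hx, a, by rw [h.inv hx, smul_neg]; exact neg_mem ha⟩ }
  have hK2 : K2 ≤ K := by
    refine hKmax.le_of_ge ⟨⟨fun x hx => hZ1.1 hx.1, ?_, ?_⟩, ?_⟩ ?_
    · rintro x ⟨hx, a, ha⟩ t ht
      obtain ⟨b, hb⟩ := id ht
      refine ⟨hZ1.2.1 x hx t ht, a + b, ?_⟩
      rw [pow_add, mul_smul, hs _ _ (hZ1.2.1 x hx t ht), ← pw_mul, hσ, mul_comm t,
        ← hs ⟨_, hb⟩ x hx, smul_comm]
      exact Submodule.smul_mem _ _ ha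
    · rintro g hg x ⟨hx, a, ha⟩
      obtain ⟨γ, hγ⟩ := h.exists_hom (fun x => φ (g * x * g⁻¹)) (fun x hx y hy => by
        rw [← h.add _ (hZ1.2.2 g hg x hx) _ (hZ1.2.2 g hg y hy)]
        congr 1
        group) fun y hy => h.of_mem (hK.2.2 g hg y hy)
      have hγs : ∀ (s : S) z, γ (s • z) = s • γ z := by
        intro s z
        obtain ⟨x, hx, rfl⟩ := h.surj z
        rw [hs _ _ hx, hγ _ (hZp x hx s), hγ _ hx, hs _ _ (hZ1.2.2 g hg x hx), pw_conj]
      refine ⟨hZ1.2.2 g hg x hx, a, ?_⟩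
      rw [← hγ x hx, ← hγs]
      refine Submodule.smul_induction_on ha (fun s hs z _ => ?_) fun x y hx hy => ?_
      · rw [hγs]; exact Submodule.smul_mem_smul hs trivial
      · rw [map_add]; exact add_mem hx hy
    · rintro j ⟨-, a, ha⟩
      rw [← hsu, smul_smul, ← pow_add] at ha
      exact hJu _ ha
    · exact fun x hx => ⟨hKZ hx, 0, by rw [h.of_mem hx, smul_zero]; exact zero_mem _⟩
  obtain ⟨Zs, hZ0, hZS⟩ : ∃ Zs : ℕ → Subgroup (∀ i, N i), Zs 0 = K ∧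
      ∀ i, Zs (i + 1) = up H (Zs i) :=
    ⟨fun i => Nat.rec K (fun _ X => up H X) i, rfl, fun _ => rfl⟩
  have hZs : ∀ i, Good (Zs i) := by
    intro i
    induction i with
    | zero => exact hZ0 ▸ hK
    | succ i ih => exact hZS i ▸ (hup _ ih).1
  have hmZs : ∀ i x, x ∈ Zs (i + 1) ↔ x ∈ H ∧ ∀ h ∈ H, ⁅x, h⁆ ∈ Zs i := fun i x => by
    rw [hZS]; exact mem_up (hnz _ (hZs i))
  have cA : ∀ i, ∀ x ∈ Zs (i + 1), ∀ s ∈ J, pw x (s : S) ∈ Zs i := by
    intro i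
    induction i with
    | zero =>
      intro x hx s hs'
      rw [hZS, hZ0] at hx
      rw [hZ0]
      refine hK2 ⟨hZp x hx s, 0, ?_⟩
      rw [pow_zero, one_smul, ← hs s x hx]
      exact Submodule.smul_mem_smul hs' trivial
    | succ i ih =>
      intro x hx s hs'
      replace hx := (hmZs _ _).1 hx
      refine (hmZs _ _).2 ⟨hHp x hx.1 _ (mem_satur s.2), fun y hy => ?_⟩
      have h1 := C.pw_comm hHM (hZs i).2.1 (hnz _ (hZs i)) hx.1 hy
        (comm_mem_symm (((hmZs _ _).1 (hx.2 y hy)).2 x hx.1)) (mem_satur s.2)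
      simpa using mul_mem h1 (ih _ (hx.2 y hy) s hs')
  have cB : ∀ i, ∀ x ∈ H, x ∈ itc M M (c - i) → x ∈ Zs i := by
    have := C.normal
    intro i
    induction i with
    | zero =>
      intro x _ hx
      rw [itc_eq_lcs, Nat.sub_zero, C.nil, Subgroup.mem_bot] at hx
      rw [hx]; exact one_mem _
    | succ i ih =>
      intro x hx hx'
      refine (hmZs _ _).2 ⟨hx, fun y hy => ih _
        (mul_mem (mul_mem (mul_mem hx hy) (inv_mem hx)) (inv_mem hy)) ?_⟩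
      exact itc_anti M M (show c - i ≤ c - (i + 1) + 1 by omega)
        (Subgroup.commutator_mem_commutator hx' (hHM hy))
  have cC : ∀ i, ∀ s ∈ J ^ i, ∀ x ∈ Zs i, pw x (s : S) ∈ K := by
    intro i
    induction i with
    | zero => exact fun s _ x hx => hK.2.1 x (hZ0 ▸ hx) _ (mem_satur s.2)
    | succ i ih =>
      intro s hs' x hx
      rw [pow_succ'] at hs'
      refine Submodule.mul_induction_on hs' (fun a ha b hb => ?_) fun a b ha hb => ?_
      · rw [MulMemClass.coe_mul, pw_mul]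
        exact ih b hb _ (cA i x hx a ha)
      · rw [AddMemClass.coe_add, pw_add]
        exact mul_mem ha hb
  have cD : ∀ s ∈ J ^ c, ∀ x ∈ H, pw x (s : S) ∈ K := fun s hs x hx =>
    cC c s hs x (cB c x hx (by simpa using hHM hx))
  have : IsNoetherianRing S := Algebra.FiniteType.isNoetherianRing ℤ S
  have hJc : Finite (S ⧸ J ^ c) := Ideal.finite_quotient_pow (IsNoetherian.noetherian J) c
  choose rep hrep using (Ideal.Quotient.mk_surjective (I := J ^ c))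
  have cE : ∀ t ∈ R, ∃ q, ∀ x ∈ H, (pw x (rep q : S))⁻¹ * pw x t ∈ K := by
    intro t ht
    obtain ⟨a, ha⟩ := id ht
    obtain ⟨s, hs'⟩ := exists_inv_pow hJσ c a
    refine ⟨Ideal.Quotient.mk _ (s * ⟨_, ha⟩), fun x hx => ?_⟩
    have h1 := cD _ (Ideal.Quotient.eq.1 (hrep (Ideal.Quotient.mk _ (s * ⟨_, ha⟩)))) x hx
    have h2 := hK.2.1 _ (cD _ hs' x hx) t ht
    have h3 := inv_mem (mul_mem h1 h2)
    rw [← pw_mul, ← pw_add, ← pw_neg] at h3
    rw [← pw_neg, ← pw_add]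
    have e : -((rep (Ideal.Quotient.mk _ (s * ⟨_, ha⟩)) : S) : I → ℤ) + t =
        -(((rep (Ideal.Quotient.mk _ (s * ⟨_, ha⟩)) - s * ⟨_, ha⟩ : S) : I → ℤ) +
          ((s * (σ : S) ^ a - 1 : S) : I → ℤ) * t) := by
      simp only [AddSubgroupClass.coe_sub, MulMemClass.coe_mul, hσ, OneMemClass.coe_one]
      ring
    rwa [e]
  have cF : ∀ zs : List (∀ i, N i), (∀ y ∈ zs, y ∈ H) → ∃ F : Set (∀ i, N i), F.Finite ∧
      ∀ x ∈ Coord R zs, ∃ f ∈ F, f ∈ H ∧ f⁻¹ * x ∈ K := by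
    intro zs
    induction zs with
    | nil =>
      exact fun _ => ⟨{1}, Set.finite_singleton _, fun x hx => ⟨1, rfl, one_mem _, by
        rw [show x = 1 from hx]; simp⟩⟩
    | cons y zs ih =>
      intro hy
      obtain ⟨F, hF, hF'⟩ := ih fun z hz => hy z (by simp [hz])
      refine ⟨Set.image2 (fun q f => pw y (rep q : S) * f) Set.univ F,
        Set.finite_univ.image2 _ hF, ?_⟩
      rintro _ ⟨t, ht, k, hk, rfl⟩
      obtain ⟨f, hf, hfH, hfk⟩ := hF' k hk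
      obtain ⟨q, hq⟩ := cE t ht
      refine ⟨_, ⟨q, trivial, f, hf, rfl⟩,
        mul_mem (hHp y (hy y (by simp)) _ (mem_satur (rep q).2)) hfH, ?_⟩
      have := mul_mem (hnz K hK _ (inv_mem hfH) _ (hq y (hy y (by simp)))) hfk
      simpa [mul_assoc] using this
  obtain ⟨F, hF, hF'⟩ := cF ys fun y hy => subset_pcl hy
  refine ⟨K, hK.2.2, hKu, F, hF, fun x hx => ?_⟩
  obtain ⟨f, hf, -, hf'⟩ := hF' x (hHc x hx)
  exact ⟨f, hf, hf'⟩

end Pool.Agent.Lib.MP_2551c4_al
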