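import Mathlib

/-! A linear version of the connected component of a linear group. -/

namespace Pool.Agent.Lib.MP_2551c4_al

open scoped Pointwise

variable {G : Type*} [Group G] {K : Type*} [Field K] {E : Type*} [AddCommGroup E] [Module K E]

/-- `S` is not covered by finitely many subspaces unless one of them contains it -/
def Irr (K : Type*) [Field K] [Module K E] (Φ : G → E) (S : Set G) : Prop :=
  ∀ T : Finset (Submodule K E), (∀ g ∈ S, ∃ U ∈ T, Φ g ∈ U) → ∃ U ∈ T, ∀ g ∈ S, Φ g ∈ U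

/-- irreducible linear sections -/
def IrrC (K : Type*) [Field K] [Module K E] (Φ : G → E) (S : Set G) : Prop :=
  (∃ U : Submodule K E, S = Φ ⁻¹' U) ∧ Irr K Φ S

theorem exists_cover [FiniteDimensional K E] (Φ : G → E) (U : Submodule K E) :
    ∃ F : Set (Set G), F.Finite ∧ (∀ S ∈ F, IrrC K Φ S) ∧ ∀ g, Φ g ∈ U → ∃ S ∈ F, g ∈ S := by
  classical
  induction U using WellFoundedLT.induction with
  | ind U ih =>
    by_cases h : Irr K Φ (Φ ⁻¹' U)
    · exact ⟨{Φ ⁻¹' U}, Set.finite_singleton _, by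
        rintro S rfl; exact ⟨⟨U, rfl⟩, h⟩, fun g hg => ⟨_, rfl, hg⟩⟩
    · unfold Irr at h
      push Not at h
      obtain ⟨T, hT, hT'⟩ := h
      have hlt : ∀ V ∈ T, U ⊓ V < U := by
        intro V hV
        obtain ⟨g, hg, hg'⟩ := hT' V hV
        refine lt_of_le_of_ne inf_le_left fun he => hg' ?_
        have : Φ g ∈ U ⊓ V := he.symm ▸ hg
        exact this.2
      choose! F hF using fun V hV => ih (U ⊓ V) (hlt V hV)
      refine ⟨⋃ V ∈ T, F V, Set.Finite.biUnion T.finite_toSet fun V hV => (hF V hV).1, ?_, ?_⟩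
      · intro S hS
        simp only [Set.mem_iUnion] at hS
        obtain ⟨V, hV, hS⟩ := hS
        exact (hF V hV).2.1 S hS
      · intro g hg
        obtain ⟨V, hV, hgV⟩ := hT g hg
        obtain ⟨S, hS, hgS⟩ := (hF V hV).2.2 g ⟨hg, hgV⟩
        exact ⟨S, by simp only [Set.mem_iUnion]; exact ⟨V, hV, hS⟩, hgS⟩

theorem IrrC.subset_of_cover {Φ : G → E} {S : Set G} (hS : IrrC K Φ S) {F : Set (Set G)}
    (hF : F.Finite) (hF' : ∀ S ∈ F, IrrC K Φ S) (hc : ∀ g ∈ S, ∃ S' ∈ F, g ∈ S') :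
    ∃ S' ∈ F, S ⊆ S' := by
  classical
  choose! U hU using fun S' hS' => (hF' S' hS').1
  obtain ⟨V, hV, hV'⟩ := hS.2 (hF.toFinset.image U) (by
    intro g hg
    obtain ⟨S', hS', hg'⟩ := hc g hg
    refine ⟨U S', Finset.mem_image_of_mem _ (hF.mem_toFinset.2 hS'), ?_⟩
    rw [hU S' hS'] at hg'
    exact hg')
  obtain ⟨S', hS', rfl⟩ := Finset.mem_image.1 hV
  rw [hF.mem_toFinset] at hS'
  refine ⟨S', hS', fun g hg => ?_⟩
  rw [hU S' hS']
  exact hV' g hg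

theorem IrrC.smul {Φ : G → E} (L : G → E →ₗ[K] E) (hL : ∀ a g, Φ (a * g) = L a (Φ g))
    {S : Set G} (hS : IrrC K Φ S) (a : G) : IrrC K Φ (a • S) := by
  classical
  obtain ⟨⟨U, hU⟩, hI⟩ := hS
  refine ⟨⟨U.comap (L a⁻¹), ?_⟩, ?_⟩
  · ext g
    rw [Set.mem_smul_set_iff_inv_smul_mem, hU]
    simp [hL]
  · intro T hT
    obtain ⟨V, hV, hV'⟩ := hI (T.image fun V => V.comap (L a)) (by
      intro g hg
      obtain ⟨V, hV, hgV⟩ := hT (a * g) (Set.smul_mem_smul_set hg)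
      exact ⟨_, Finset.mem_image_of_mem _ hV, by simpa [hL] using hgV⟩)
    obtain ⟨V', hV'', rfl⟩ := Finset.mem_image.1 hV
    refine ⟨V', hV'', ?_⟩
    rintro _ ⟨g, hg, rfl⟩
    simpa [hL] using hV' g hg

theorem exists_connected [FiniteDimensional K E] (Φ : G → E) (L : G → E →ₗ[K] E)
    (hL : ∀ a g, Φ (a * g) = L a (Φ g)) :
    ∃ H : Subgroup G, H.FiniteIndex ∧ Irr K Φ (H : Set G) := by
  classical
  obtain ⟨F, hF, hF', hc⟩ := exists_cover (K := K) Φ ⊤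
  let M : Set (Set G) := {S | IrrC K Φ S ∧ ∀ S', IrrC K Φ S' → S ⊆ S' → S' ⊆ S}
  have hsub : ∀ S, IrrC K Φ S → ∃ S' ∈ F, S ⊆ S' := fun S hS =>
    hS.subset_of_cover hF hF' fun g _ => hc g trivial
  have hMF : M ⊆ F := by
    intro S hS
    obtain ⟨S', hS', h⟩ := hsub S hS.1
    rwa [Set.Subset.antisymm h (hS.2 S' (hF' S' hS') h)]
  have hMfin : M.Finite := hF.subset hMF
  have hMcov : ∀ g, ∃ S ∈ M, g ∈ S := by
    intro g
    obtain ⟨S, hS, hg⟩ := hc g trivial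
    obtain ⟨S', ⟨hS', hgS'⟩, hmax⟩ := Set.Finite.exists_maximal (s := {S ∈ F | g ∈ S})
      (hF.subset fun _ h => h.1) ⟨S, hS, hg⟩
    refine ⟨S', ⟨hF' S' hS', fun S'' hS'' h => ?_⟩, hgS'⟩
    obtain ⟨S3, hS3, h3⟩ := hsub S'' hS''
    exact h3.trans (hmax ⟨hS3, h3 (h hgS')⟩ (h.trans h3))
  have hMs : ∀ S ∈ M, ∀ a : G, a • S ∈ M := by
    intro S hS a
    refine ⟨hS.1.smul L hL a, fun S' hS' h => ?_⟩
    have h1 : S ⊆ a⁻¹ • S' := by
      rw [Set.subset_smul_set_iff]; simpa using h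
    have h2 := hS.2 _ (hS'.smul L hL a⁻¹) h1
    rw [Set.smul_set_subset_iff_subset_inv_smul_set] at h2
    simpa using h2
  obtain ⟨S0, hS0, -⟩ := hMcov 1
  have hx : ∃ x ∈ S0, ∀ S ∈ M, x ∈ S → S = S0 := by
    by_contra hcon
    push Not at hcon
    obtain ⟨S', hS', h⟩ := hS0.1.subset_of_cover (F := M \ {S0}) (hMfin.subset Set.diff_subset)
      (fun S hS => hS.1.1) (by
        intro g hg
        obtain ⟨S, hS, hgS, hne⟩ := hcon g hg
        exact ⟨S, ⟨hS, hne⟩, hgS⟩)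
    exact hS'.2 (Set.Subset.antisymm (hS0.2 S' hS'.1.1 h) h)
  obtain ⟨x, -, hx⟩ := hx
  have huniq : ∀ y, ∀ S ∈ M, ∀ S' ∈ M, y ∈ S → y ∈ S' → S = S' := by
    intro y S hS S' hS' h h'
    have h1 := hx _ (hMs S hS (x * y⁻¹)) ⟨y, h, by simp⟩
    have h2 := hx _ (hMs S' hS' (x * y⁻¹)) ⟨y, h', by simp⟩
    exact MulAction.injective (x * y⁻¹) (h1.trans h2.symm)
  obtain ⟨S1, hS1, h1⟩ := hMcov 1
  refine ⟨MulAction.stabilizer G S1, ⟨?_⟩, ?_⟩
  · rw [MulAction.index_stabilizer]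
    have : (MulAction.orbit G S1).Finite := hMfin.subset (by
      rintro _ ⟨a, rfl⟩
      exact hMs S1 hS1 a)
    exact ((Set.ncard_pos this).2 (MulAction.nonempty_orbit S1)).ne'
  · have : (MulAction.stabilizer G S1 : Set G) = S1 := by
      ext g
      constructor
      · intro hg
        have hg' : g • S1 = S1 := hg
        rw [← hg']
        exact ⟨1, h1, by simp⟩
      · intro hg
        exact huniq g _ (hMs S1 hS1 g) _ hS1 ⟨1, h1, by simp⟩ hg
    rw [this]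
    exact hS1.1.2

end Pool.Agent.Lib.MP_2551c4_al
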