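import Mathlib
import Pool.Agent.Lib.MP_2551c4_al.Word

/-! An abstract ping-pong argument with leading terms of matrices. -/

namespace Pool.Agent.Lib.MP_2551c4_al

variable {κ : Type*} [Field κ] {d : Type*} [Fintype d] [DecidableEq d]

theorem isUnit_of_card_le_rank {A : Matrix d d κ} (h : Fintype.card d ≤ A.rank) : IsUnit A := by
  rw [← Matrix.mulVec_surjective_iff_isUnit]
  have : LinearMap.range A.mulVecLin = ⊤ := by
    apply Submodule.eq_top_of_finrank_eq
    refine le_antisymm (Submodule.finrank_le _) ?_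
    rw [Module.finrank_fintype_fun_eq_card]
    exact h
  exact LinearMap.range_eq_top.1 this

omit [DecidableEq d] in
theorem mul_ne_zero_of_rank {A B Q : Matrix d d κ} (hAB : A * B ≠ 0)
    (h : B.rank ≤ (B * Q).rank) : A * (B * Q) ≠ 0 := by
  classical
  intro h0
  apply hAB
  have hle : LinearMap.range (B * Q).mulVecLin ≤ LinearMap.range B.mulVecLin := by
    rw [Matrix.mulVecLin_mul]
    exact LinearMap.range_comp_le_range _ _
  have heq := Submodule.eq_of_le_of_finrank_le hle h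
  apply Matrix.toLin'.injective
  ext1
  rename_i v
  ext1
  have : B.mulVec (Pi.single v 1) ∈ LinearMap.range (B * Q).mulVecLin := by
    rw [heq]; exact ⟨_, rfl⟩
  obtain ⟨u, hu⟩ := this
  simp only [LinearMap.comp_apply, LinearMap.coe_single, Matrix.toLin'_apply, map_zero,
    LinearMap.zero_apply]
  rw [← Matrix.mulVec_mulVec, ← hu, Matrix.mulVecLin_apply, Matrix.mulVec_mulVec, h0,
    Matrix.zero_mulVec]

theorem pingpong {Γ H : Type*} [Group Γ] [Group H] {ι : Type} [Finite ι]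
    (Ld : Γ → Matrix d d κ → Prop) (c : H →* Γ) (τ : H →* Matrix d d κ)
    (h0 : ∀ x σ, Ld x σ → σ ≠ 0) (hex : ∀ x, ∃ σ, Ld x σ)
    (hmul : ∀ x y σ σ', Ld x σ → Ld y σ' → σ * σ' ≠ 0 → Ld (x * y) (σ * σ'))
    (hc : ∀ g, Ld (c g) (τ g))
    (hgen : ∀ F : Finset (Matrix d d κ × Matrix d d κ), (∀ q ∈ F, q.1 ≠ 0 ∧ q.2 ≠ 0) →
      ∃ g, ∀ q ∈ F, q.1 * τ g * q.2 ≠ 0 ∧ q.1 * τ g⁻¹ * q.2 ≠ 0)
    (w : FreeGroup ι) (hw : w ≠ 1)
    (hlaw : ∀ x : ι → Γ, ∀ σ, Ld (FreeGroup.lift x w) σ → IsUnit σ)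
    (hsing : ∃ x σ, Ld x σ ∧ ¬ IsUnit σ) : False := by
  classical
  have hτ : ∀ g, τ g * τ g⁻¹ = 1 := fun g => by rw [← map_mul, mul_inv_cancel, map_one]
  have hτ' : ∀ g, τ g⁻¹ * τ g = 1 := fun g => by rw [← map_mul, inv_mul_cancel, map_one]
  have hnL : ∀ g (σ : Matrix d d κ), σ ≠ 0 → τ g * σ ≠ 0 := by
    intro g σ hσ h
    apply hσ
    rw [← one_mul σ, ← hτ' g, mul_assoc, h, mul_zero]
  have hnR : ∀ g (σ : Matrix d d κ), σ ≠ 0 → σ * τ g ≠ 0 := by
    intro g σ hσ h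
    apply hσ
    rw [← mul_one σ, ← hτ g, ← mul_assoc, h, zero_mul]
  have hL : ∀ g x σ, Ld x σ → Ld (c g * x) (τ g * σ) := fun g x σ h =>
    hmul _ _ _ _ (hc g) h (hnL g σ (h0 _ _ h))
  have hR : ∀ g x σ, Ld x σ → Ld (x * c g) (σ * τ g) := fun g x σ h =>
    hmul _ _ _ _ h (hc g) (hnR g σ (h0 _ _ h))
  have hP : ∃ n, ∃ x σ, Ld x σ ∧ σ.rank = n := by
    obtain ⟨σ, hσ⟩ := hex 1
    exact ⟨_, 1, σ, hσ, rfl⟩
  have hmin : ∀ x σ, Ld x σ → Nat.find hP ≤ σ.rank := fun x σ h =>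
    Nat.find_min' hP ⟨x, σ, h, rfl⟩
  obtain ⟨h, S, hS, hSr⟩ := Nat.find_spec hP
  generalize Nat.find hP = ρ at hmin hSr
  obtain ⟨S', hS'⟩ := hex h⁻¹
  obtain ⟨g, hg⟩ := hgen {(S, S')} (by simpa using ⟨h0 _ _ hS, h0 _ _ hS'⟩)
  have hg := hg (S, S') (by simp)
  have hA : Ld (h * c g * h⁻¹) (S * τ g * S') := hmul _ _ _ _ (hR g _ _ hS) hS' hg.1
  have hB : Ld (h * c g * h⁻¹)⁻¹ (S * τ g⁻¹ * S') := by
    have := hmul _ _ _ _ (hR g⁻¹ _ _ hS) hS' hg.2
    have he : (h * c g * h⁻¹)⁻¹ = h * c g⁻¹ * h⁻¹ := by rw [map_inv]; group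
    rwa [he]
  have hAr : (S * τ g * S').rank ≤ ρ := by
    rw [mul_assoc]; exact (Matrix.rank_mul_le_left _ _).trans hSr.le
  have hBr : (S * τ g⁻¹ * S').rank ≤ ρ := by
    rw [mul_assoc]; exact (Matrix.rank_mul_le_left _ _).trans hSr.le
  generalize h * c g * h⁻¹ = h1 at hA hB
  generalize S * τ g * S' = A at hA hAr
  generalize S * τ g⁻¹ * S' = B at hB hBr
  obtain ⟨g0, hg0⟩ := hgen {(A, A), (B, B)} (by simpa using ⟨h0 _ _ hA, h0 _ _ hB⟩)
  have hA' : Ld (h1 * c g0) (A * τ g0) := hR g0 _ _ hA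
  have hB' : Ld (h1 * c g0)⁻¹ (τ g0⁻¹ * B) := by
    have := hL g0⁻¹ _ _ hB
    have he : (h1 * c g0)⁻¹ = c g0⁻¹ * h1⁻¹ := by rw [map_inv]; group
    rwa [he]
  have hAA : (A * τ g0) * (A * τ g0) ≠ 0 := by
    rw [← mul_assoc]; exact hnR _ _ (hg0 (A, A) (by simp)).1
  have hBB : (τ g0⁻¹ * B) * (τ g0⁻¹ * B) ≠ 0 := by
    rw [mul_assoc, ← mul_assoc B]; exact hnL _ _ (hg0 (B, B) (by simp)).2
  let C : Bool → Matrix d d κ := fun b => cond b (A * τ g0) (τ g0⁻¹ * B)
  have hCr : ∀ b, (C b).rank ≤ ρ := by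
    rintro (_ | _)
    · exact (Matrix.rank_mul_le_right _ _).trans hBr
    · exact (Matrix.rank_mul_le_left _ _).trans hAr
  have hCC : ∀ b, C b * C b ≠ 0 := by
    rintro (_ | _)
    · exact hBB
    · exact hAA
  have hCL : ∀ b, Ld (cond b (h1 * c g0) (h1 * c g0)⁻¹) (C b) := by
    rintro (_ | _)
    · exact hB'
    · exact hA'
  have hC0 : ∀ b, C b ≠ 0 := fun b => h0 _ _ (hCL b)
  generalize h1 * c g0 = h2 at hCL
  have hsel : ∀ s : Finset ι, ∃ e : ι → H, ∀ i ∈ s, ∀ j ∈ s, i ≠ j → ∀ b b',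
      C b * τ (e i)⁻¹ * τ (e j) * C b' ≠ 0 := by
    intro s
    induction s using Finset.induction_on with
    | empty => exact ⟨fun _ => 1, by simp⟩
    | insert a s ha ih =>
      obtain ⟨e, he⟩ := ih
      obtain ⟨z, hz⟩ := hgen
        (((s ×ˢ (Finset.univ : Finset (Bool × Bool))).image
            fun q => (C q.2.1 * τ (e q.1)⁻¹, C q.2.2)) ∪
          ((s ×ˢ (Finset.univ : Finset (Bool × Bool))).image
            fun q => (C q.2.1, τ (e q.1) * C q.2.2))) (by
          intro q hq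
          rcases Finset.mem_union.1 hq with hq | hq
          · obtain ⟨q', -, rfl⟩ := Finset.mem_image.1 hq
            exact ⟨hnR _ _ (hC0 _), hC0 _⟩
          · obtain ⟨q', -, rfl⟩ := Finset.mem_image.1 hq
            exact ⟨hC0 _, hnL _ _ (hC0 _)⟩)
      refine ⟨Function.update e a z, ?_⟩
      intro i hi j hj hij b b'
      rcases Finset.mem_insert.1 hi with rfl | hi'
      · rcases Finset.mem_insert.1 hj with rfl | hj'
        · exact (hij rfl).elim
        · rw [Function.update_self, Function.update_of_ne hij.symm, mul_assoc]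
          exact (hz (C b, τ (e j) * C b') (Finset.mem_union_right _
            (Finset.mem_image.2 ⟨(j, b, b'), by simpa using hj', rfl⟩))).2
      · have hia : i ≠ a := fun h => ha (h ▸ hi')
        rcases Finset.mem_insert.1 hj with rfl | hj'
        · rw [Function.update_self, Function.update_of_ne hia]
          exact (hz (C b * τ (e i)⁻¹, C b') (Finset.mem_union_left _
            (Finset.mem_image.2 ⟨(i, b, b'), by simpa using hi', rfl⟩))).1
        · have hja : j ≠ a := fun h => ha (h ▸ hj')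
          rw [Function.update_of_ne hia, Function.update_of_ne hja]
          exact he i hi' j hj' hij b b'
  have := Fintype.ofFinite ι
  obtain ⟨e, he⟩ := hsel Finset.univ
  let x : ι → Γ := fun i => c (e i) * h2 * c (e i)⁻¹
  let T : ι × Bool → Matrix d d κ := fun a => τ (e a.1) * C a.2 * τ (e a.1)⁻¹
  have hT : ∀ a : ι × Bool, Ld (cond a.2 (x a.1) (x a.1)⁻¹) (T a) := by
    rintro ⟨i, b⟩
    have := hR (e i)⁻¹ _ _ (hL (e i) _ _ (hCL b))
    have he : cond b (x i) (x i)⁻¹ = c (e i) * cond b h2 h2⁻¹ * c (e i)⁻¹ := by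
      cases b
      · simp only [x, cond_false, map_inv]; group
      · rfl
    rwa [he]
  have hTr : ∀ a, (T a).rank ≤ ρ := fun a =>
    (Matrix.rank_mul_le_left _ _).trans ((Matrix.rank_mul_le_right _ _).trans (hCr _))
  have hTT : ∀ a b : ι × Bool, (a.1 = b.1 → a.2 = b.2) → T a * T b ≠ 0 := by
    rintro ⟨i, b⟩ ⟨j, b'⟩ hab
    have he' : T (i, b) * T (j, b') =
        τ (e i) * (C b * τ (e i)⁻¹ * τ (e j) * C b') * τ (e j)⁻¹ := by
      simp only [T, mul_assoc]
    rw [he']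
    refine hnR _ _ (hnL _ _ ?_)
    by_cases hij : i = j
    · subst hij
      obtain rfl : b = b' := hab rfl
      rw [mul_assoc (C b), hτ', mul_one]
      exact hCC b
    · exact he i (by simp) j (by simp) hij b b'
  have key : ∀ (L : List (ι × Bool)) (a : ι × Bool), FreeGroup.IsReduced (a :: L) →
      Ld (FreeGroup.lift x (FreeGroup.mk (a :: L))) (T a * (L.map T).prod) := by
    intro L
    induction L with
    | nil => intro a _; simpa using hT a
    | cons b L ih =>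
      intro a hr
      rw [FreeGroup.isReduced_cons_cons] at hr
      have h1 := ih b hr.2
      have := hmul _ _ _ _ (hT a) h1
        (mul_ne_zero_of_rank (hTT a b hr.1) ((hTr b).trans (hmin _ _ h1)))
      simpa using this
  obtain ⟨a, L, hL'⟩ := List.exists_cons_of_ne_nil (mt FreeGroup.toWord_eq_nil_iff.1 hw)
  have h1 := key L a (hL' ▸ FreeGroup.isReduced_toWord)
  rw [← hL', FreeGroup.mk_toWord] at h1
  have h2 := Matrix.rank_of_isUnit _ (hlaw _ _ h1)
  obtain ⟨y, σ, hy, hσ⟩ := hsing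
  apply hσ
  apply isUnit_of_card_le_rank
  rw [← h2]
  exact (Matrix.rank_mul_le_left _ _).trans ((hTr a).trans (hmin _ _ hy))

end Pool.Agent.Lib.MP_2551c4_al
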