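import Mathlib
import Pool.Agent.Lib.MP_2551c4_al.PingPong
import Pool.Agent.Lib.MP_2551c4_al.Conn

/-! A connected irreducible linear group satisfying a law is projectively torsion. -/

namespace Pool.Agent.Lib.MP_2551c4_al

open Filter IsLocalRing

variable {d : Type*} [Fintype d] [DecidableEq d]

theorem exists_generic {K κ : Type*} [Field K] [Field κ] [Algebra K κ] {H : Type*} [Group H]
    (ρ : H →* Matrix d d K) (hspan : Submodule.span K (Set.range ρ) = ⊤)
    (hirr : Irr K (fun g : H => (ρ g, ρ g⁻¹)) Set.univ)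
    (F : Finset (Matrix d d κ × Matrix d d κ)) (hF : ∀ q ∈ F, q.1 ≠ 0 ∧ q.2 ≠ 0) :
    ∃ g, ∀ q ∈ F, q.1 * (ρ g).map (algebraMap K κ) * q.2 ≠ 0 ∧
      q.1 * (ρ g⁻¹).map (algebraMap K κ) * q.2 ≠ 0 := by
  classical
  let ℓ : Matrix d d κ × Matrix d d κ → Matrix d d K →ₗ[K] Matrix d d κ := fun q =>
    (LinearMap.mulRight K q.2).comp ((LinearMap.mulLeft K q.1).comp
      (Algebra.linearMap K κ).mapMatrix)
  have hℓ : ∀ q X, ℓ q X = q.1 * X.map (algebraMap K κ) * q.2 := fun q X => rfl
  have key : ∀ q ∈ F, ¬ ∀ g, ℓ q (ρ g) = 0 := by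
    intro q hq h
    have h1 : ⊤ ≤ LinearMap.ker (ℓ q) := by
      rw [← hspan, Submodule.span_le]
      rintro _ ⟨g, rfl⟩
      exact h g
    obtain ⟨i, k, hik⟩ : ∃ i k, q.1 i k ≠ 0 := by
      by_contra hc
      push Not at hc
      exact (hF q hq).1 (Matrix.ext hc)
    obtain ⟨l, j, hlj⟩ : ∃ i k, q.2 i k ≠ 0 := by
      by_contra hc
      push Not at hc
      exact (hF q hq).2 (Matrix.ext hc)
    have h2 : ℓ q (Matrix.single k l 1) = 0 := h1 trivial
    rw [hℓ, Matrix.map_single _ _ _ _ , map_one] at h2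
    have h3 := congrFun (congrFun h2 i) j
    rw [Matrix.mul_assoc, Matrix.mul_apply, Finset.sum_eq_single k] at h3
    · simp only [Matrix.single_mul_apply_same, one_mul, Matrix.zero_apply] at h3
      exact mul_ne_zero hik hlj h3
    · intro b _ hb
      rw [Matrix.single_mul_apply_of_ne _ _ _ _ _ hb, mul_zero]
    · simp
  by_contra hcon
  push Not at hcon
  obtain ⟨U, hU, hU'⟩ := hirr
    ((F.image fun q => LinearMap.ker ((ℓ q).comp (LinearMap.fst K _ _))) ∪
      (F.image fun q => LinearMap.ker ((ℓ q).comp (LinearMap.snd K _ _)))) (by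
      intro g _
      obtain ⟨q, hq, h⟩ := hcon g
      by_cases h1 : q.1 * (ρ g).map (algebraMap K κ) * q.2 = 0
      · exact ⟨_, Finset.mem_union_left _ (Finset.mem_image_of_mem _ hq), h1⟩
      · exact ⟨_, Finset.mem_union_right _ (Finset.mem_image_of_mem _ hq), h h1⟩)
  rcases Finset.mem_union.1 hU with hU | hU
  · obtain ⟨q, hq, rfl⟩ := Finset.mem_image.1 hU
    exact key q hq fun g => hU' g trivial
  · obtain ⟨q, hq, rfl⟩ := Finset.mem_image.1 hU
    refine key q hq fun g => ?_
    have := hU' g⁻¹ trivial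
    simpa using this

section lead

variable {k : Type*} [Field k] (O : ValuationSubring k)

/-- `σ` is a leading term of `A` -/
def Lead (A : Matrix d d k) (σ : Matrix d d (ResidueField O)) : Prop :=
  σ ≠ 0 ∧ ∃ a : k, ∃ A0 : Matrix d d O, A = a • A0.map O.subtype ∧ σ = A0.map (residue O)

omit [DecidableEq d] in
theorem exists_lead {A : Matrix d d k} (hA : A ≠ 0) : ∃ σ, Lead O A σ := by
  classical
  obtain ⟨i0, j0, h0⟩ : ∃ i j, A i j ≠ 0 := by
    by_contra hc
    push Not at hc
    exact hA (Matrix.ext hc)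
  obtain ⟨⟨i, j⟩, -, hmax⟩ := Finset.exists_max_image (Finset.univ : Finset (d × d))
    (fun q => O.valuation (A q.1 q.2)) ⟨(i0, j0), by simp⟩
  have ha : A i j ≠ 0 := by
    intro h
    have := hmax (i0, j0) (by simp)
    simp only [h, map_zero, le_zero_iff, map_eq_zero] at this
    exact h0 this
  have hm : ∀ i' j', A i' j' / A i j ∈ O := by
    intro i' j'
    rw [← O.valuation_le_one_iff, map_div₀]
    exact div_le_one_of_le₀ (hmax (i', j') (by simp)) zero_le
  refine ⟨(Matrix.of fun i' j' => (⟨_, hm i' j'⟩ : O)).map (residue O), ?_, A i j,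
    Matrix.of fun i' j' => ⟨_, hm i' j'⟩, ?_, rfl⟩
  · intro h
    have h1 := congrFun (congrFun h i) j
    have h2 : (⟨_, hm i j⟩ : O) = 1 := Subtype.ext (div_self ha)
    simp only [Matrix.map_apply, Matrix.of_apply, h2, map_one, Matrix.zero_apply] at h1
    exact one_ne_zero h1
  · ext i' j'
    simp only [Matrix.smul_apply, Matrix.map_apply, Matrix.of_apply, smul_eq_mul]
    change A i' j' = A i j * (A i' j' / A i j)
    field_simp

omit [DecidableEq d] in
theorem Lead.mul {A B : Matrix d d k} {σ τ : Matrix d d (ResidueField O)} (hA : Lead O A σ)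
    (hB : Lead O B τ) (h : σ * τ ≠ 0) : Lead O (A * B) (σ * τ) := by
  obtain ⟨-, a, A0, rfl, rfl⟩ := hA
  obtain ⟨-, b, B0, rfl, rfl⟩ := hB
  refine ⟨h, a * b, A0 * B0, ?_, ?_⟩
  · rw [Matrix.map_mul, Matrix.smul_mul, Matrix.mul_smul, smul_smul]
  · rw [Matrix.map_mul]

theorem Lead.isUnit {σ : Matrix d d (ResidueField O)} (h : Lead O 1 σ) : IsUnit σ := by
  obtain ⟨h0, a, A0, h1, rfl⟩ := h
  obtain ⟨i, j, hij⟩ : ∃ i j, (A0.map (residue O)) i j ≠ 0 := by
    by_contra hc
    push Not at hc
    exact h0 (Matrix.ext hc)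
  have he : ∀ i j, (1 : Matrix d d k) i j = a * (A0 i j : k) := fun i j =>
    congrFun (congrFun h1 i) j
  have ha : a ≠ 0 := by
    rintro rfl
    simpa using he i i
  have hoff : ∀ i j, i ≠ j → A0 i j = 0 := by
    intro i j hij
    have := he i j
    rw [Matrix.one_apply_ne hij] at this
    exact Subtype.ext ((mul_eq_zero.1 this.symm).resolve_left ha)
  have hd : ∀ j, A0 j j = A0 i i := by
    intro j
    apply Subtype.ext
    apply mul_left_cancel₀ ha
    rw [← he, ← he]; simp
  have hi : i = j := by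
    by_contra hne
    exact hij (by simp [hoff i j hne])
  subst hi
  have : A0.map (residue O) = residue O (A0 i i) • (1 : Matrix d d (ResidueField O)) := by
    ext i' j'
    by_cases h : i' = j'
    · subst h; simp [hd i']
    · simp [hoff i' j' h, Matrix.one_apply_ne h]
  rw [this]
  have hij' : residue O (A0 i i) ≠ 0 := hij
  exact IsUnit.of_mul_eq_one ((residue O (A0 i i))⁻¹ • 1) (by
    rw [Matrix.smul_mul, Matrix.mul_smul, smul_smul, mul_inv_cancel₀ hij']; simp)

theorem Lead.not_isUnit {A B : Matrix d d k} {σ τ : Matrix d d (ResidueField O)}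
    (hA : Lead O A σ) (hB : Lead O B τ) (hAB : A * B = 1) {i j i' j' : d}
    (h : A i j * B i' j' ∉ O) : ¬ IsUnit σ := by
  obtain ⟨-, a, A0, rfl, rfl⟩ := hA
  obtain ⟨hτ, b, B0, rfl, rfl⟩ := hB
  have hab : a * b ∉ O := by
    intro hab
    apply h
    have : (a • A0.map O.subtype) i j * (b • B0.map O.subtype) i' j' =
        (a * b) * ((A0 i j * B0 i' j' : O) : k) := by
      simp only [Matrix.smul_apply, Matrix.map_apply, smul_eq_mul]
      change _ = a * b * ((A0 i j : k) * (B0 i' j' : k))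
      change a * (A0 i j : k) * (b * (B0 i' j' : k)) = _
      ring
    rw [this]
    exact mul_mem hab (SetLike.coe_mem _)
  have hab0 : a * b ≠ 0 := fun h0 => hab (h0 ▸ zero_mem O)
  have hinv : (a * b)⁻¹ ∈ O := (O.mem_or_inv_mem _).resolve_left hab
  have hres : residue O ⟨_, hinv⟩ = 0 := by
    rw [residue_eq_zero_iff, mem_maximalIdeal, mem_nonunits_iff]
    intro hu
    obtain ⟨u, hu⟩ := hu.exists_right_inv
    apply hab
    have h1 : (a * b)⁻¹ * (u : k) = 1 := congrArg Subtype.val hu
    have : a * b = u := by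
      rw [← mul_one (a * b), ← h1, ← mul_assoc, mul_inv_cancel₀ hab0, one_mul]
    rw [this]; exact u.2
  have h1 : A0 * B0 = (⟨_, hinv⟩ : O) • (1 : Matrix d d O) := by
    apply Matrix.map_injective O.subtype_injective
    simp only
    rw [Matrix.smul_mul, Matrix.mul_smul, smul_smul, ← Matrix.map_mul] at hAB
    ext x y
    have := congrFun (congrFun hAB x) y
    simp only [Matrix.smul_apply, smul_eq_mul] at this
    rw [← one_mul ((A0 * B0).map O.subtype x y), ← inv_mul_cancel₀ hab0, mul_assoc, this]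
    by_cases hxy : x = y
    · subst hxy; simp
    · simp [Matrix.one_apply_ne hxy]
  intro hu
  apply hτ
  have h2 : A0.map (residue O) * B0.map (residue O) = 0 := by
    rw [← Matrix.map_mul, h1]
    ext x y
    rw [Matrix.map_apply, Matrix.smul_apply, smul_eq_mul, map_mul, hres, zero_mul,
      Matrix.zero_apply]
  exact (hu.mul_right_eq_zero).1 h2

end lead

theorem tits0 {K : Type*} [Field K] [IsAlgClosed K] [Nonempty d] {H : Type*} [Group H]
    (ρ : H →* Matrix d d K) (hspan : Submodule.span K (Set.range ρ) = ⊤)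
    (hirr : Irr K (fun g : H => (ρ g, ρ g⁻¹)) Set.univ)
    {ι : Type} [Finite ι] (w : FreeGroup ι) (hw : w ≠ 1)
    (hlaw : ∀ g : ι → H, ρ (FreeGroup.lift g w) = 1) (γ : H) :
    ∃ N, 0 < N ∧ ∃ c : K, ρ γ ^ N = c • (1 : Matrix d d K) := by
  classical
  let k := Germ (hyperfilter ℕ : Filter ℕ) K
  let co : (ℕ → K) →+* k := Germ.coeRingHom _
  let cst : K →+* k := co.comp (Pi.constRingHom ℕ K)
  let ρ' : (ℕ → H) →* Matrix d d k :=
    (co.mapMatrix.toMonoidHom.comp
      (Matrix.piRingEquiv (β := fun _ : ℕ => K) (n := d)).symm.toRingHom.toMonoidHom).comp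
      (ρ.compLeft ℕ)
  have hρ' : ∀ x i j, ρ' x i j = co fun n => ρ (x n) i j := fun x i j => rfl
  let h : ℕ → H := fun n => γ ^ n
  by_cases hall : ∀ i j i' j', ρ' h i j * ρ' h⁻¹ i' j' ∈ cst.range
  · choose c hc using hall
    have hev : ∀ᶠ n in (hyperfilter ℕ : Filter ℕ), ∀ i j i' j',
        ρ (γ ^ n) i j * ρ (γ ^ n)⁻¹ i' j' = c i j i' j' := by
      simp only [eventually_all]
      intro i j i' j'
      have := hc i j i' j'
      rw [hρ', hρ', ← map_mul] at this
      exact (Germ.coe_eq.1 this).symm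
    have hinf : {n | ∀ i j i' j', ρ (γ ^ n) i j * ρ (γ ^ n)⁻¹ i' j' = c i j i' j'}.Infinite :=
      fun hfin => hfin.notMem_hyperfilter hev
    obtain ⟨n, hn⟩ := hinf.nonempty
    obtain ⟨m, hm, hnm⟩ := hinf.exists_gt n
    have hconj : ∀ X : Matrix d d K, ρ (γ ^ m) * X * ρ (γ ^ m)⁻¹ = ρ (γ ^ n) * X * ρ (γ ^ n)⁻¹ := by
      intro X
      ext i j'
      simp only [Matrix.mul_apply, Finset.sum_mul]
      refine Finset.sum_congr rfl fun i' _ => Finset.sum_congr rfl fun j _ => ?_
      rw [mul_right_comm, hm i j i' j', mul_right_comm _ (X j i'), hn i j i' j']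
    obtain ⟨N, rfl⟩ := Nat.exists_eq_add_of_lt hnm
    refine ⟨N + 1, Nat.succ_pos _, ?_⟩
    have hcomm : ∀ X : Matrix d d K, Commute X (ρ γ ^ (N + 1)) := by
      intro X
      have h1 := hconj X
      have e1 : ρ (γ ^ n)⁻¹ * ρ (γ ^ (n + N + 1)) = ρ γ ^ (N + 1) := by
        rw [← map_mul, ← map_pow]; congr 1; group
      have e2 : ρ (γ ^ (n + N + 1))⁻¹ * ρ (γ ^ (n + N + 1)) = 1 := by
        rw [← map_mul, inv_mul_cancel, map_one]
      have e3 : ρ (γ ^ n)⁻¹ * ρ (γ ^ n) = 1 := by
        rw [← map_mul, inv_mul_cancel, map_one]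
      have h2 := congrArg (fun Y => ρ (γ ^ n)⁻¹ * Y * ρ (γ ^ (n + N + 1))) h1
      simp only [← mul_assoc] at h2
      rw [e1, e3, mul_assoc, mul_assoc, e2, one_mul, mul_one, mul_assoc, e1] at h2
      exact h2.symm
    obtain ⟨c', hc'⟩ := Matrix.mem_range_scalar_of_commute_single (M := ρ γ ^ (N + 1))
      fun i j _ => hcomm _
    exact ⟨c', by rw [← hc', Matrix.scalar_apply, Matrix.smul_one_eq_diagonal]⟩
  · exfalso
    push Not at hall
    obtain ⟨i, j, i', j', ht⟩ := hall
    have hic : IsIntegrallyClosedIn cst.range k := by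
      rw [Subring.isIntegrallyClosedIn_iff]
      intro x hx
      let : Algebra K k := cst.toAlgebra
      have hx' : IsIntegral K x := by
        obtain ⟨f, hf, hf'⟩ := hx
        let e := RingEquiv.ofBijective cst.rangeRestrict
          ⟨fun a b hab => cst.injective (congrArg Subtype.val hab), cst.rangeRestrict_surjective⟩
        refine ⟨f.map e.symm.toRingHom, hf.map _, ?_⟩
        rw [Polynomial.eval₂_map]
        have : (algebraMap K k).comp e.symm.toRingHom = algebraMap cst.range k := by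
          ext y
          exact congrArg Subtype.val (e.apply_symm_apply y)
        rw [this, hf']
      have := minpoly.mem_range_of_degree_eq_one K x
        (IsAlgClosed.degree_eq_one_of_irreducible K (minpoly.irreducible hx'))
      exact this
    obtain ⟨O, hO, htO⟩ := Subring.exists_le_valuationSubring_of_isIntegrallyClosedIn ht
    let ψ : K →+* O := cst.codRestrict O fun x => hO ⟨x, rfl⟩
    let : Algebra K (ResidueField O) := ((residue O).comp ψ).toAlgebra
    have hne : ∀ x, ρ' x ≠ 0 := by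
      intro x h0
      have : ρ' x * ρ' x⁻¹ = 1 := by rw [← map_mul, mul_inv_cancel, map_one]
      rw [h0, zero_mul] at this
      exact zero_ne_one this
    let τ : H →* Matrix d d (ResidueField O) :=
      (algebraMap K (ResidueField O)).mapMatrix.toMonoidHom.comp ρ
    refine pingpong (fun x σ => Lead O (ρ' x) σ) (Pi.constMonoidHom ℕ H) τ
      (fun x σ h => h.1) (fun x => exists_lead O (hne x)) ?_ ?_
      (exists_generic ρ hspan hirr) w hw ?_ ?_
    · intro x y σ σ' h1 h2 h3
      rw [map_mul]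
      exact h1.mul O h2 h3
    · intro g
      refine ⟨?_, 1, (ρ g).map ψ, ?_, ?_⟩
      · intro h0
        have : τ g * τ g⁻¹ = 1 := by rw [← map_mul, mul_inv_cancel, map_one]
        rw [h0, zero_mul] at this
        exact zero_ne_one this
      · rw [one_smul]; rfl
      · rfl
    · intro x σ hσ
      have : ρ' (FreeGroup.lift x w) = 1 := by
        have h1 : ρ.compLeft ℕ (FreeGroup.lift x w) = 1 := by
          ext1 n
          change ρ (FreeGroup.lift x w n) = 1
          rw [lift_apply_pi (N := fun _ : ℕ => H), hlaw]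
        simp only [ρ', MonoidHom.comp_apply, h1, map_one]
      rw [this] at hσ
      exact hσ.isUnit
    · obtain ⟨σ, hσ⟩ := exists_lead O (hne h)
      obtain ⟨σ', hσ'⟩ := exists_lead O (hne h⁻¹)
      exact ⟨h, σ, hσ, hσ.not_isUnit O hσ' (by rw [← map_mul, mul_inv_cancel, map_one]) htO⟩

end Pool.Agent.Lib.MP_2551c4_al
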