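import Mathlib
import Pool.Agent.Lib.MP_2551c4_al.Tits

/-! Linear groups satisfying a law: the derived group of a congruence part of a finite index
subgroup is unipotent. -/

namespace Pool.Agent.Lib.MP_2551c4_al

open Polynomial

variable {K : Type*} [Field K]

/-- `α` is a root of every polynomial killing `x` -/
def Eig {B : Type*} [Ring B] [Algebra K B] (x : B) (α : K) : Prop :=
  ∀ f : K[X], aeval x f = 0 → f.eval α = 0

theorem scalar_of_pow [IsAlgClosed K] [CharZero K] {B : Type*} [Ring B] [Algebra K B]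
    [Nontrivial B] [FiniteDimensional K B] {x : B} (hx : IsUnit x) {N : ℕ} (hN : 0 < N) {c : K}
    (h : x ^ N = c • (1 : B))
    (he : ∀ α β : K, Eig x α → Eig x β → α ^ N = β ^ N → α = β) : ∃ α : K, x = α • (1 : B) := by
  have hc : c ≠ 0 := by
    rintro rfl
    rw [zero_smul] at h
    exact (hx.pow N).ne_zero h
  have hint : IsIntegral K x := Algebra.IsIntegral.isIntegral x
  have hdvd : minpoly K x ∣ X ^ N - C c := minpoly.dvd K x (by
    simp [h, Algebra.algebraMap_eq_smul_one])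
  have hsq : Squarefree (minpoly K x) :=
    ((separable_X_pow_sub_C c (by exact_mod_cast hN.ne') hc).of_dvd hdvd).squarefree
  have hroot : ∀ α, (minpoly K x).IsRoot α → Eig x α ∧ α ^ N = c := by
    intro α hα
    refine ⟨fun f hf => (hα.dvd (minpoly.dvd K x hf)), ?_⟩
    have := hα.dvd hdvd
    simpa [sub_eq_zero] using this
  obtain ⟨α, hα⟩ := IsAlgClosed.exists_root (minpoly K x) (minpoly.degree_pos hint).ne'
  obtain ⟨ν, hν⟩ := dvd_iff_isRoot.2 hα
  have hν0 : ν.degree = 0 := by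
    by_contra hne
    obtain ⟨β, hβ⟩ := IsAlgClosed.exists_root ν hne
    have hβ' : (minpoly K x).IsRoot β := hβ.dvd ⟨X - C α, by rw [hν, mul_comm]⟩
    have : α = β := he α β (hroot α hα).1 (hroot β hβ').1 ((hroot α hα).2.trans (hroot β hβ').2.symm)
    subst this
    obtain ⟨ν', rfl⟩ := dvd_iff_isRoot.2 hβ
    exact not_isUnit_X_sub_C α (hsq _ ⟨ν', by rw [hν, mul_assoc]⟩)
  have hν1 := eq_C_of_degree_eq_zero hν0
  have ha : ν.coeff 0 ≠ 0 := by
    intro h0
    rw [hν1, h0] at hν0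
    simp at hν0
  have h1 := minpoly.aeval K x
  rw [hν, hν1, mul_comm, map_mul, aeval_C, ← Algebra.smul_def, smul_eq_zero] at h1
  refine ⟨α, ?_⟩
  have h2 := h1.resolve_left ha
  simpa [sub_eq_zero, Algebra.algebraMap_eq_smul_one] using h2

theorem Irr.comp {G : Type*} [Group G] {E E' : Type*} [AddCommGroup E] [Module K E]
    [AddCommGroup E'] [Module K E'] {Φ : G → E} {H : Subgroup G} (h : Irr K Φ (H : Set G))
    (f : E →ₗ[K] E') (Ψ : H → E') (hΨ : ∀ g : H, Ψ g = f (Φ g)) : Irr K Ψ Set.univ := by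
  classical
  intro T hT
  obtain ⟨U, hU, hU'⟩ := h (T.image fun U => U.comap f) (by
    intro g hg
    obtain ⟨U, hU, hU'⟩ := hT ⟨g, hg⟩ trivial
    exact ⟨_, Finset.mem_image_of_mem _ hU, by rw [hΨ] at hU'; exact hU'⟩)
  obtain ⟨U', hU'', rfl⟩ := Finset.mem_image.1 hU
  exact ⟨U', hU'', fun g _ => by rw [hΨ]; exact hU' g g.2⟩

theorem list_prod_mem_pow {R : Type*} [Ring R] (J : Ideal R) [J.IsTwoSided] (l : List R)
    (hl : ∀ x ∈ l, x ∈ J) : l.prod ∈ J ^ l.length := by
  induction l with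
  | nil => simp [Submodule.pow_zero]
  | cons a l ih =>
    rw [List.prod_cons, List.length_cons, Ideal.IsTwoSided.pow_succ]
    exact Ideal.mul_mem_mul (hl a (by simp)) (ih fun x hx => hl x (by simp [hx]))

theorem linear_nil [IsAlgClosed K] [CharZero K] {B : Type*} [Ring B] [Algebra K B]
    [FiniteDimensional K B] {Γ : Type*} [Group Γ] (ρ : Γ →* B) {ι : Type} [Finite ι]
    (w : FreeGroup ι) (hw : w ≠ 1) (hlaw : ∀ g : ι → Γ, ρ (FreeGroup.lift g w) = 1) :
    ∃ H : Subgroup Γ, H.FiniteIndex ∧ ∃ c : ℕ, ∀ V : Subgroup Γ, V ≤ H →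
      (∀ γ ∈ V, ∀ α β : K, Eig (ρ γ) α → Eig (ρ γ) β → ∀ N, 0 < N → α ^ N = β ^ N → α = β) →
      ∀ l : List Γ, c ≤ l.length → (∀ x ∈ l, x ∈ ⁅V, V⁆) →
        (l.map fun x => ρ x - 1).prod = 0 := by
  classical
  obtain ⟨H, hH, hirr⟩ := exists_connected (K := K) (fun g : Γ => (ρ g, ρ g⁻¹))
    (fun a => (LinearMap.mulLeft K (ρ a)).prodMap (LinearMap.mulRight K (ρ a⁻¹)))
    (fun a g => by simp)
  refine ⟨H, hH, ?_⟩
  let A : Subalgebra K B := Algebra.adjoin K (Set.range (ρ.comp H.subtype))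
  let ρA : H →* A := (ρ.comp H.subtype).codRestrict A fun g => Algebra.subset_adjoin ⟨g, rfl⟩
  have hspanA : Submodule.span K (Set.range ρA) = ⊤ := by
    apply Submodule.map_injective_of_injective (f := A.val.toLinearMap) Subtype.val_injective
    rw [Submodule.map_span, Submodule.map_top, ← Set.range_comp]
    have h1 : Subalgebra.toSubmodule A = Submodule.span K (Set.range (ρ.comp H.subtype)) := by
      apply Algebra.adjoin_eq_span_of_subset
      refine subset_trans ?_ Submodule.subset_span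
      rw [← MonoidHom.coe_mrange, Submonoid.closure_eq]
    have h2 : LinearMap.range A.val.toLinearMap = Subalgebra.toSubmodule A := by
      ext x
      simp
    rw [h2, h1]
    rfl
  have : IsArtinianRing A := IsArtinianRing.of_finite K A
  let J : Ideal A := Ring.jacobson A
  obtain ⟨c, hc⟩ : IsNilpotent J := IsSemiprimaryRing.isNilpotent
  have : FiniteDimensional K (A ⧸ J) :=
    Module.Finite.of_surjective (Ideal.Quotient.mkₐ K J).toLinearMap
      (Ideal.Quotient.mkₐ_surjective K J)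
  obtain ⟨n, dd, hdd, ⟨e⟩⟩ :=
    IsSemisimpleRing.exists_algEquiv_pi_matrix_of_isAlgClosed K (A ⧸ J)
  let π : ∀ i, A →ₐ[K] Matrix (Fin (dd i)) (Fin (dd i)) K := fun i =>
    (Pi.evalAlgHom K _ i).comp (e.toAlgHom.comp (Ideal.Quotient.mkₐ K J))
  have hπ : ∀ i, Function.Surjective (π i) := fun i =>
    (Function.surjective_eval i).comp (e.surjective.comp (Ideal.Quotient.mkₐ_surjective K J))
  refine ⟨c, fun V hV hE l hl hl' => ?_⟩
  have hsc : ∀ i, ∀ γ : H, (γ : Γ) ∈ V → ∃ α : K, π i (ρA γ) = α • 1 := by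
    intro i γ hγ
    let ρi : H →* Matrix (Fin (dd i)) (Fin (dd i)) K := (π i).toMonoidHom.comp ρA
    obtain ⟨f, hf⟩ := LinearMap.exists_extend (p := Subalgebra.toSubmodule A) (π i).toLinearMap
    have hf' : ∀ a : A, f a = π i a := fun a => LinearMap.congr_fun hf a
    obtain ⟨N, hN, c', hc'⟩ := tits0 ρi (by
        have : Set.range ρi = (π i).toLinearMap '' Set.range ρA := by
          rw [← Set.range_comp]; rfl
        rw [this, ← Submodule.map_span, hspanA, Submodule.map_top, LinearMap.range_eq_top]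
        exact hπ i)
      (hirr.comp (f.prodMap f) _ fun g => Prod.ext (hf' (ρA g)).symm (hf' (ρA g⁻¹)).symm)
      w hw (by
        intro g
        have : ρA (FreeGroup.lift g w) = 1 := by
          apply Subtype.ext
          change ρ (H.subtype (FreeGroup.lift g w)) = 1
          rw [map_lift H.subtype, hlaw]
        change π i (ρA _) = 1
        rw [this, map_one]) γ
    have hE' : ∀ α : K, Eig (ρi γ) α → Eig (ρ γ) α := by
      intro α hα f hf
      apply hα
      have h1 : aeval (ρA γ) f = 0 := by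
        apply Subtype.val_injective
        change A.val (aeval (ρA γ) f) = 0
        rw [← aeval_algHom_apply]
        exact hf
      change aeval (π i (ρA γ)) f = 0
      rw [aeval_algHom_apply, h1, map_zero]
    exact scalar_of_pow (x := ρi γ) (ρi.toHomUnits γ).isUnit hN hc'
      fun α β hα hβ => hE γ hγ α β (hE' α hα) (hE' β hβ) N hN
  have hJ : ∀ x ∈ ⁅V, V⁆, ∃ a ∈ J, (a : B) = ρ x - 1 := by
    intro x hx
    have h1 : ⁅V, V⁆ ≤ (⨅ i, ((π i).toMonoidHom.comp ρA).ker).map H.subtype := by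
      rw [Subgroup.commutator_le]
      intro a ha b hb
      refine ⟨(⟨a, hV ha⟩ : H) * ⟨b, hV hb⟩ * (⟨a, hV ha⟩ : H)⁻¹ * (⟨b, hV hb⟩ : H)⁻¹, ?_, rfl⟩
      rw [SetLike.mem_coe, Subgroup.mem_iInf]
      intro i
      obtain ⟨α, hα⟩ := hsc i ⟨a, hV ha⟩ ha
      rw [MonoidHom.mem_ker]
      set φ := (π i).toMonoidHom.comp ρA
      have hα' : φ ⟨a, hV ha⟩ = α • 1 := hα
      have hco : φ ⟨a, hV ha⟩ * φ ⟨b, hV hb⟩ = φ ⟨b, hV hb⟩ * φ ⟨a, hV ha⟩ := by
        rw [hα']; simp
      rw [map_mul, map_mul, map_mul, hco, mul_assoc (φ _), ← map_mul, mul_inv_cancel, map_one,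
        mul_one, ← map_mul, mul_inv_cancel, map_one]
    obtain ⟨y, hy, rfl⟩ := h1 hx
    refine ⟨ρA y - 1, ?_, rfl⟩
    rw [← Ideal.Quotient.eq_zero_iff_mem]
    apply e.injective
    rw [map_zero]
    ext1 i
    have : π i (ρA y) = 1 := (Subgroup.mem_iInf.1 hy) i
    change π i (ρA y - 1) = 0
    rw [map_sub, this, map_one, sub_self]
  choose! a ha using hJ
  have h1 : (l.map a).prod ∈ J ^ (l.map a).length := list_prod_mem_pow J _ (by
    intro y hy
    obtain ⟨x, hx, rfl⟩ := List.mem_map.1 hy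
    exact (ha x (hl' x hx)).1)
  have h2 := Ideal.pow_le_pow_right (I := J) (m := c) (by simpa using hl) h1
  rw [hc] at h2
  have h3 : (l.map a).prod = 0 := h2
  have h4 := congrArg A.val h3
  rw [map_list_prod, map_zero, List.map_map] at h4
  rw [← h4]
  congr 1
  exact List.map_congr_left fun x hx => (ha x (hl' x hx)).2.symm

end Pool.Agent.Lib.MP_2551c4_al
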