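import Mathlib
import Pool.Agent.Lib.MP_2551c4_al.Linear

/-! Eigenvalues of congruence elements. -/

namespace Pool.Agent.Lib.MP_2551c4_al

open Polynomial

theorem eq_one_of_root_unity {D : Type*} [CommRing D] [IsDomain D] (I : Ideal D)
    (hI : ∀ l : ℕ, l.Prime → (l : D) ∉ I) (N : ℕ) :
    ∀ ω : D, ω - 1 ∈ I → 0 < N → ω ^ N = 1 → ω = 1 := by
  induction N using Nat.strong_induction_on with
  | _ N ih =>
    intro ω hω hN h
    by_cases h1 : N = 1
    · simpa [h1] using h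
    obtain ⟨l, hl, N', rfl⟩ := Nat.exists_prime_and_dvd h1
    have hpow : ∀ k : ℕ, ω ^ k - 1 ∈ I := fun k => by
      have := sub_dvd_pow_sub_pow ω 1 k
      rw [one_pow] at this
      exact Ideal.mem_of_dvd _ this hω
    have hN' : 0 < N' := Nat.pos_of_mul_pos_left hN
    have h2 : ω ^ l = 1 := ih N' (by have := hl.two_le; nlinarith) _ (hpow l) hN'
      (by rw [← pow_mul, h])
    by_contra hne
    apply hI l hl
    have h3 : ∑ i ∈ Finset.range l, ω ^ i = 0 := by
      have := mul_geom_sum ω l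
      rw [h2, sub_self] at this
      exact (mul_eq_zero.1 this).resolve_left (sub_ne_zero.2 hne)
    have h4 : ∑ i ∈ Finset.range l, (ω ^ i - 1) ∈ I := Ideal.sum_mem _ fun i _ => hpow i
    rw [Finset.sum_sub_distrib, h3] at h4
    simpa using h4

variable {Λ K : Type*} [CommRing Λ] [Field K] [Algebra Λ K]

theorem eig_unique (I : Ideal (integralClosure Λ K))
    (hI : ∀ l : ℕ, l.Prime → (l : integralClosure Λ K) ∉ I) {α β : K}
    (hα : ∃ h : IsIntegral Λ α, (⟨α, h⟩ : integralClosure Λ K) - 1 ∈ I)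
    (hβ : ∃ h : IsIntegral Λ β, (⟨β, h⟩ : integralClosure Λ K) - 1 ∈ I)
    {N : ℕ} (hN : 0 < N) (h : α ^ N = β ^ N) : α = β := by
  by_cases h0 : β = 0
  · subst h0
    rw [zero_pow hN.ne'] at h
    exact pow_eq_zero_iff hN.ne' |>.1 h
  obtain ⟨hα, hα'⟩ := hα
  obtain ⟨hβ, hβ'⟩ := hβ
  have h1 : (α / β) ^ N = 1 := by rw [div_pow, h, div_self (pow_ne_zero _ h0)]
  have h2 : IsIntegral Λ (α / β) := IsIntegral.of_pow hN (by rw [h1]; exact isIntegral_one)
  have h3 := eq_one_of_root_unity I hI N ⟨α / β, h2⟩ (by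
    have : (⟨α / β, h2⟩ : integralClosure Λ K) - 1 =
        (⟨α, hα⟩ - 1) - ⟨α / β, h2⟩ * (⟨β, hβ⟩ - 1) := by
      apply Subtype.ext
      change α / β - 1 = (α - 1) - α / β * (β - 1)
      field_simp
      ring
    rw [this]
    exact I.sub_mem hα' (I.mul_mem_left _ hβ')) hN (Subtype.ext h1)
  have h4 : α / β = 1 := congrArg Subtype.val h3
  exact (div_eq_one_iff_eq h0).1 h4

theorem not_unit_integral {π : Λ} (hπ : ∀ x : Λ, IsUnit (1 - π * x)) {b : K}
    (hb : IsIntegral Λ b) : algebraMap Λ K π * b ≠ 1 := by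
  intro h
  obtain ⟨f, hf, hf'⟩ := hb
  have hb0 : b ≠ 0 := by
    rintro rfl
    simp at h
  let := invertibleOfNonzero hb0
  have h1 := (eval₂_reverse_eq_zero_iff (algebraMap Λ K) b f).2 hf'
  have h2 : ⅟b = algebraMap Λ K π := by
    rw [invOf_eq_inv]
    exact (eq_inv_of_mul_eq_one_left h).symm
  rw [h2, eval₂_at_apply, ← divX_mul_X_add f.reverse, coeff_zero_reverse, hf.leadingCoeff] at h1
  have h3 := (hπ (-(f.reverse.divX.eval π))).map (algebraMap Λ K)
  apply h3.ne_zero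
  rw [← h1]
  congr 1
  simp only [eval_add, eval_mul, eval_X, eval_C]
  ring

variable {d : Type*} [Fintype d] [DecidableEq d]

theorem eig_int {γ Y : Matrix d d Λ} {κ : Λ} {s : ℕ} (h : (γ - 1) ^ s = κ • Y)
    (hκ : algebraMap Λ K κ ≠ 0) {α : K} (hα : Eig (γ.map (algebraMap Λ K)) α) :
    ∃ θ : K, IsIntegral Λ θ ∧ (α - 1) ^ s = algebraMap Λ K κ * θ := by
  refine ⟨(algebraMap Λ K κ)⁻¹ * (α - 1) ^ s, ⟨Y.charpoly, Y.charpoly_monic, ?_⟩, by field_simp⟩
  have h1 := hα ((Y.charpoly.map (algebraMap Λ K)).comp (C (algebraMap Λ K κ)⁻¹ * (X - 1) ^ s)) (by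
    rw [aeval_comp, ← Matrix.charpoly_map]
    have : aeval (γ.map (algebraMap Λ K)) (C (algebraMap Λ K κ)⁻¹ * (X - 1 : K[X]) ^ s) =
        Y.map (algebraMap Λ K) := by
      have h2 := congrArg (algebraMap Λ K).mapMatrix h
      rw [map_pow, map_sub, map_one] at h2
      simp only [RingHom.mapMatrix_apply] at h2
      rw [map_mul, aeval_C, map_pow, map_sub, aeval_X, map_one, h2, ← Algebra.smul_def]
      ext i j
      simp only [Matrix.smul_apply, Matrix.map_apply, smul_eq_mul, map_mul]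
      field_simp
    rw [this]
    exact Matrix.aeval_self_charpoly _)
  rw [eval_comp, eval_map] at h1
  simpa using h1

theorem eig_fixed [CharZero K] {p : ℕ} (hp : p.Prime) (hπ : ∀ x : Λ, IsUnit (1 - p * x))
    {γ Y : Matrix d d Λ} (h : γ - 1 = ((p : Λ) ^ 2) • Y) {α β : K}
    (hα : Eig (γ.map (algebraMap Λ K)) α) (hβ : Eig (γ.map (algebraMap Λ K)) β)
    {N : ℕ} (hN : 0 < N) (hαβ : α ^ N = β ^ N) : α = β := by
  have hp0 : (p : K) ≠ 0 := by exact_mod_cast hp.ne_zero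
  have key : ∀ α : K, Eig (γ.map (algebraMap Λ K)) α → ∃ h : IsIntegral Λ α,
      (⟨α, h⟩ : integralClosure Λ K) - 1 ∈ Ideal.span {(p : integralClosure Λ K) ^ 2} := by
    intro α hα
    obtain ⟨θ, hθ, h1⟩ := eig_int (s := 1) (by rw [pow_one, h]) (by simpa using hp0) hα
    rw [pow_one, sub_eq_iff_eq_add] at h1
    refine ⟨h1 ▸ (isIntegral_algebraMap.mul hθ).add isIntegral_one, ?_⟩
    rw [Ideal.mem_span_singleton]
    refine ⟨⟨θ, hθ⟩, Subtype.ext ?_⟩
    change α - 1 = ((p : integralClosure Λ K) : K) ^ 2 * θ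
    rw [h1]; simp
  refine eig_unique _ ?_ (key α hα) (key β hβ) hN hαβ
  intro l hl hmem
  rw [Ideal.mem_span_singleton] at hmem
  obtain ⟨b, hb⟩ := hmem
  have hb' : (l : K) = (p : K) ^ 2 * b := by
    have := congrArg Subtype.val hb
    simpa using this
  by_cases hlp : l = p
  · subst hlp
    apply not_unit_integral hπ b.2
    apply mul_left_cancel₀ hp0
    rw [map_natCast, mul_one, ← mul_assoc, ← sq, ← hb']
  · have hco : IsCoprime (l : ℤ) (p : ℤ) :=
      Nat.isCoprime_iff_coprime.2 ((Nat.coprime_primes hl hp).2 hlp)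
    obtain ⟨u, v, huv⟩ := hco
    apply not_unit_integral hπ ((u : integralClosure Λ K) * p * b + v).2
    have h1 : (u : K) * l + v * p = 1 := by exact_mod_cast congrArg (Int.cast : ℤ → K) huv
    rw [map_natCast, ← h1, hb']
    simp
    ring

theorem eig_large {π : Λ} (hπ : ∀ x : Λ, IsUnit (1 - π * x)) (hπ0 : algebraMap Λ K π ≠ 0)
    (hl : ∀ l : ℕ, l.Prime → ∃ x : Λ, algebraMap Λ K (l * x) = 1)
    {γ Y : Matrix d d Λ} {s : ℕ} (hs : 0 < s) (h : (γ - 1) ^ s = π • Y) {α β : K}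
    (hα : Eig (γ.map (algebraMap Λ K)) α) (hβ : Eig (γ.map (algebraMap Λ K)) β)
    {N : ℕ} (hN : 0 < N) (hαβ : α ^ N = β ^ N) : α = β := by
  have key : ∀ α : K, Eig (γ.map (algebraMap Λ K)) α → ∃ h : IsIntegral Λ α,
      (⟨α, h⟩ : integralClosure Λ K) - 1 ∈
        (Ideal.span {algebraMap Λ (integralClosure Λ K) π}).radical := by
    intro α hα
    obtain ⟨θ, hθ, h1⟩ := eig_int h hπ0 hα
    have h2 : IsIntegral Λ (α - 1) := IsIntegral.of_pow hs (h1 ▸ isIntegral_algebraMap.mul hθ)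
    refine ⟨by simpa using h2.add isIntegral_one, s, ?_⟩
    rw [Ideal.mem_span_singleton]
    exact ⟨⟨θ, hθ⟩, Subtype.ext h1⟩
  refine eig_unique _ ?_ (key α hα) (key β hβ) hN hαβ
  rintro l hl' ⟨k, hmem⟩
  rw [Ideal.mem_span_singleton] at hmem
  obtain ⟨b, hb⟩ := hmem
  obtain ⟨x, hx⟩ := hl l hl'
  have hb' : (l : K) ^ k = algebraMap Λ K π * b := by
    have := congrArg Subtype.val hb
    simpa using this
  apply not_unit_integral hπ (b.2.mul (isIntegral_algebraMap (x := x ^ k)))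
  rw [← mul_assoc, ← hb', map_pow, ← mul_pow, ← map_natCast (algebraMap Λ K), ← map_mul, hx,
    one_pow]

end Pool.Agent.Lib.MP_2551c4_al
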