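import Mathlib
import Pool.Agent.Lib.MP_2551c4_al.Eigen

/-! A compactness argument for matrix groups over chain rings. -/

namespace Pool.Agent.Lib.MP_2551c4_al

open scoped commutatorElement

/-- product of the factors `ρ x - 1` -/
def mprod {Γ B : Type*} [Group Γ] [Ring B] (ρ : Γ →* B) (l : List Γ) : B :=
  (l.map fun x => ρ x - 1).prod

section
variable {Γ B : Type*} [Group Γ] [Ring B]

@[simp] theorem mprod_nil (ρ : Γ →* B) : mprod ρ [] = 1 := rfl

theorem mprod_cons (ρ : Γ →* B) (x : Γ) (l : List Γ) :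
    mprod ρ (x :: l) = (ρ x - 1) * mprod ρ l := by simp [mprod]

theorem mprod_append (ρ : Γ →* B) (l l' : List Γ) :
    mprod ρ (l ++ l') = mprod ρ l * mprod ρ l' := by simp [mprod]

theorem mprod_map {Γ' B' : Type*} [Group Γ'] [Ring B'] (ρ : Γ →* B) (ρ' : Γ' →* B')
    (f : B →+* B') (φ : Γ → Γ') (h : ∀ x, f (ρ x) = ρ' (φ x)) (l : List Γ) :
    f (mprod ρ l) = mprod ρ' (l.map φ) := by
  induction l with
  | nil => simp
  | cons x l ih => rw [List.map_cons, mprod_cons, mprod_cons, map_mul, map_sub, map_one, h, ih]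

theorem mprod_replicate (ρ : Γ →* B) (x : Γ) (n : ℕ) :
    mprod ρ (List.replicate n x) = (ρ x - 1) ^ n := by simp [mprod]

end

variable {d : Type} [Fintype d] [DecidableEq d]

/-- the product representation -/
def piRep {G R : ℕ → Type} [∀ n, Group (G n)] [∀ n, CommRing (R n)]
    (ρ : ∀ n, G n →* Matrix d d (R n)) : (∀ n, G n) →* Matrix d d (∀ n, R n) :=
  (Matrix.piRingEquiv (β := R) (n := d)).symm.toRingHom.toMonoidHom.comp
    (MonoidHom.pi fun n => (ρ n).comp (Pi.evalMonoidHom G n))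

theorem piRep_apply {G R : ℕ → Type} [∀ n, Group (G n)] [∀ n, CommRing (R n)]
    (ρ : ∀ n, G n →* Matrix d d (R n)) (x : ∀ n, G n) (i j : d) (n : ℕ) :
    piRep ρ x i j n = ρ n (x n) i j := rfl

theorem exists_min_val {Γ R : Type*} [Group Γ] [CommRing R] (ρ : Γ →* Matrix d d R) (π : R)
    (hR : ∀ x : R, x ≠ 0 → ∃ a : ℕ, ∃ u : Rˣ, x = u * π ^ a) (S : Set Γ) (L k : ℕ)
    (hk : 0 < k) (hcex : ∃ l : List Γ, L * k ≤ l.length ∧ (∀ x ∈ l, x ∈ S) ∧ mprod ρ l ≠ 0) :
    ∃ a : ℕ, (π ^ a) ^ k ≠ 0 ∧ ∃ l : List Γ, l.length = L ∧ (∀ x ∈ l, x ∈ S) ∧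
      ∃ i j, ∃ u : Rˣ, mprod ρ l i j = u * π ^ a := by
  classical
  obtain ⟨l, hl, hlS, hl0⟩ := hcex
  have hsplit : ∀ (l : List Γ) (m : ℕ), mprod ρ l = mprod ρ (l.take m) * mprod ρ (l.drop m) :=
    fun l m => by rw [← mprod_append, List.take_append_drop]
  have hP : ∃ a : ℕ, ∃ l : List Γ, l.length = L ∧ (∀ x ∈ l, x ∈ S) ∧
      ∃ i j, ∃ u : Rˣ, mprod ρ l i j = u * π ^ a := by
    have h1 : mprod ρ (l.take L) ≠ 0 := fun h => hl0 (by rw [hsplit l L, h, zero_mul])
    obtain ⟨i, j, hij⟩ : ∃ i j, mprod ρ (l.take L) i j ≠ 0 := by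
      by_contra hc
      push Not at hc
      exact h1 (Matrix.ext hc)
    obtain ⟨a, u, hu⟩ := hR _ hij
    refine ⟨a, l.take L, ?_, fun x hx => hlS x (List.mem_of_mem_take hx), i, j, u, hu⟩
    rw [List.length_take]
    exact min_eq_left (le_trans (Nat.le_mul_of_pos_right _ hk) hl)
  refine ⟨Nat.find hP, ?_, Nat.find_spec hP⟩
  have hdiv : ∀ l : List Γ, l.length = L → (∀ x ∈ l, x ∈ S) →
      ∃ Y, mprod ρ l = π ^ Nat.find hP • Y := by
    intro l h1 h2
    have : ∀ i j, ∃ y, mprod ρ l i j = π ^ Nat.find hP * y := by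
      intro i j
      by_cases h0 : mprod ρ l i j = 0
      · exact ⟨0, by simp [h0]⟩
      · obtain ⟨a, u, hu⟩ := hR _ h0
        obtain ⟨b, rfl⟩ := Nat.exists_eq_add_of_le (Nat.find_min' hP ⟨l, h1, h2, i, j, u, hu⟩)
        exact ⟨u * π ^ b, by rw [hu]; ring⟩
    choose Y hY using this
    exact ⟨Matrix.of Y, Matrix.ext hY⟩
  have hdiv' : ∀ k : ℕ, ∀ l : List Γ, L * k ≤ l.length → (∀ x ∈ l, x ∈ S) →
      ∃ Y, mprod ρ l = (π ^ Nat.find hP) ^ k • Y := by
    intro k
    induction k with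
    | zero => intro l _ _; exact ⟨mprod ρ l, by simp⟩
    | succ k ih =>
      intro l h1 h2
      obtain ⟨Y, hY⟩ := hdiv (l.take L) (by
        rw [List.length_take]; exact min_eq_left (by nlinarith))
        fun x hx => h2 x (List.mem_of_mem_take hx)
      obtain ⟨Y', hY'⟩ := ih (l.drop L) (by rw [List.length_drop, mul_add] at *; omega)
        fun x hx => h2 x (List.mem_of_mem_drop hx)
      exact ⟨Y * Y', by rw [hsplit l L, hY, hY', smul_mul_smul_comm, pow_succ']⟩
  intro h0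
  obtain ⟨Y, hY⟩ := hdiv' k l hl hlS
  exact hl0 (by rw [hY, h0, zero_smul])

theorem compact_core {G R : ℕ → Type} [∀ n, Group (G n)] [∀ n, CommRing (R n)]
    (ρ : ∀ n, G n →* Matrix d d (R n)) (π : ∀ n, R n) (V : ∀ n, Subgroup (G n)) (r : ℕ)
    {ι : Type} [Finite ι] (w : FreeGroup ι) (hw : w ≠ 1)
    (hR : ∀ n, ∀ x : R n, x ≠ 0 → ∃ a : ℕ, ∃ u : (R n)ˣ, x = u * π n ^ a)
    (hπ : ∀ n, ∀ x : R n, IsUnit (1 - π n * x))
    (hlaw : ∀ n, ∀ g : ι → G n, ρ n (FreeGroup.lift g w) = 1)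
    (hU : ∀ n, ∀ l : List (G n), r ≤ l.length → ∃ Y, mprod (ρ n) l = π n • Y)
    (hcex : ∀ n, ∃ l : List (G n), (n + r + 1) * (n + r + 1) ≤ l.length ∧
      (∀ x ∈ l, x ∈ ⁅V n, V n⁆) ∧ mprod (ρ n) l ≠ 0)
    (hfin : ∀ H : Subgroup (∀ n, G n), H.FiniteIndex → ∃ n0, ∀ x : ∀ n, G n,
      (∀ n, x n ∈ V n) → (∀ n < n0, x n = 1) → x ∈ H)
    (hcomm : ∀ n, ∀ c ∈ ⁅V n, V n⁆, ∃ y z : Fin r → G n, (∀ i, y i ∈ V n) ∧ (∀ i, z i ∈ V n) ∧
      c = ((List.finRange r).map fun i => ⁅y i, z i⁆).prod)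
    (hE : ∀ (K : Type) [Field K] [Algebra (∀ n, R n) K], algebraMap _ K π ≠ 0 →
      (∀ x y : ∀ n, R n, (∃ n0, ∀ n, n0 ≤ n → x n = y n) →
        algebraMap _ K x = algebraMap _ K y) →
      CharZero K ∧ (CharZero K → ∀ γ : ∀ n, G n, (∀ n, γ n ∈ V n) → ∀ α β : K,
        Eig ((piRep ρ γ).map (algebraMap _ K)) α → Eig ((piRep ρ γ).map (algebraMap _ K)) β →
        ∀ N, 0 < N → α ^ N = β ^ N → α = β)) : False := by
  classical
  choose a ha l hl hlV i j u hu using fun n => exists_min_val (ρ n) (π n) (hR n)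
    (⁅V n, V n⁆ : Subgroup (G n)) (n + r + 1) (n + r + 1) (Nat.succ_pos _) (hcex n)
  let ζ : ∀ n, R n := fun n => π n ^ a n
  have ha0 : ∀ n, a n ≠ 0 := by
    intro n h0
    obtain ⟨Y, hY⟩ := hU n (l n) (by rw [hl]; omega)
    have h1 := hu n
    rw [hY, h0, pow_zero, mul_one, Matrix.smul_apply, smul_eq_mul] at h1
    have h2 := hπ n (Y (i n) (j n) * ↑(u n)⁻¹)
    rw [← mul_assoc, h1, Units.mul_inv, sub_self, isUnit_zero_iff] at h2
    apply ha n
    rw [← mul_one ((π n ^ a n) ^ (n + r + 1)), ← h2, mul_zero]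
  let S : Submonoid (∀ n, R n) :=
    { carrier := {x | ∃ k n0 : ℕ, ∀ n, n0 ≤ n → x n = ζ n ^ k}
      one_mem' := ⟨0, 0, fun n _ => by simp⟩
      mul_mem' := by
        rintro x y ⟨k, n0, hx⟩ ⟨k', n0', hy⟩
        refine ⟨k + k', max n0 n0', fun n hn => ?_⟩
        rw [Pi.mul_apply, hx n (le_of_max_le_left hn), hy n (le_of_max_le_right hn), pow_add] }
  obtain ⟨P, hP, -, hPS⟩ := Ideal.exists_le_prime_disjoint (⊥ : Ideal (∀ n, R n)) S (by
    rw [Set.disjoint_left]
    rintro x hx ⟨k, n0, h⟩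
    have hx0 : x = 0 := hx
    subst hx0
    have h1 := h (max n0 k) (le_max_left _ _)
    apply ha (max n0 k)
    obtain ⟨b, hb⟩ := Nat.exists_eq_add_of_le
      (show k ≤ max n0 k + r + 1 by have := le_max_right n0 k; omega)
    rw [hb, pow_add]
    change ζ _ ^ k * _ = 0
    rw [← h1, Pi.zero_apply, zero_mul])
  let K := AlgebraicClosure (FractionRing ((∀ n, R n) ⧸ P))
  let ψ0 : ((∀ n, R n) ⧸ P) →+* K := (algebraMap (FractionRing ((∀ n, R n) ⧸ P)) K).comp
    (algebraMap ((∀ n, R n) ⧸ P) (FractionRing ((∀ n, R n) ⧸ P)))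
  have hψ0 : Function.Injective ψ0 :=
    (algebraMap (FractionRing ((∀ n, R n) ⧸ P)) K).injective.comp (IsFractionRing.injective _ _)
  let ψ : (∀ n, R n) →+* K := ψ0.comp (Ideal.Quotient.mk P)
  have hψ : ∀ x ∈ S, ψ x ≠ 0 := by
    intro x hx h0
    have h1 : Ideal.Quotient.mk P x = 0 := by
      apply hψ0
      rw [map_zero]; exact h0
    exact Set.disjoint_left.1 hPS (Ideal.Quotient.eq_zero_iff_mem.1 h1) hx
  have hψζ : ψ ζ ≠ 0 := hψ ζ ⟨1, 0, fun n _ => by simp⟩
  have hψe : ∀ x y : ∀ n, R n, (∃ n0, ∀ n, n0 ≤ n → x n = y n) → ψ x = ψ y := by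
    rintro x y ⟨n0, h⟩
    let ε : ∀ n, R n := fun n => if n0 ≤ n then 1 else 0
    apply mul_left_cancel₀ (hψ ε ⟨0, n0, fun n hn => by simp [ε, hn]⟩)
    rw [← map_mul, ← map_mul]
    congr 1
    ext n
    by_cases hn : n0 ≤ n
    · simp [ε, hn, h n hn]
    · simp [ε, hn]
  have hψπ : ψ π ≠ 0 := by
    intro h0
    apply hψζ
    have : ζ = π * fun n => π n ^ (a n - 1) := by
      ext n
      simp only [ζ, Pi.mul_apply]
      rw [← pow_succ', Nat.sub_add_cancel (Nat.pos_of_ne_zero (ha0 n))]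
    rw [this, map_mul, h0, zero_mul]
  obtain ⟨hK, hE⟩ := @hE K _ ψ.toAlgebra hψπ hψe
  replace hE := hE hK
  let ρK : (∀ n, G n) →* Matrix d d K := ψ.mapMatrix.toMonoidHom.comp (piRep ρ)
  obtain ⟨H, hH, c, hc⟩ := linear_nil (K := K) ρK w hw (by
    intro g
    have : piRep ρ (FreeGroup.lift g w) = 1 := by
      ext i j n
      rw [piRep_apply, lift_apply_pi, hlaw]
      by_cases hij : i = j
      · subst hij; simp
      · simp [Matrix.one_apply_ne hij]
    change ψ.mapMatrix (piRep ρ _) = 1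
    rw [this, map_one])
  obtain ⟨n0, hn0⟩ := hfin H hH
  let n1 := max n0 c
  let W : Subgroup (∀ n, G n) := Subgroup.pi Set.univ fun n => if n1 ≤ n then V n else ⊥
  have hW : ∀ x ∈ W, (∀ n, x n ∈ V n) ∧ ∀ n < n1, x n = 1 := by
    intro x hx
    have h1 : ∀ n < n1, x n = 1 := by
      intro n hn
      have := hx n trivial
      simpa [not_le.2 hn] using this
    refine ⟨fun n => ?_, h1⟩
    by_cases hn : n1 ≤ n
    · simpa [hn] using hx n trivial
    · rw [h1 n (not_le.1 hn)]; exact one_mem _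
  let x : ℕ → ∀ n, G n := fun k n => if n1 ≤ n then (l n).getD k 1 else 1
  have hx : ∀ k, x k ∈ ⁅W, W⁆ := by
    intro k
    have h1 : ∀ n, (l n).getD k 1 ∈ ⁅V n, V n⁆ := by
      intro n
      rw [List.getD_eq_getElem?_getD]
      cases h : (l n)[k]? with
      | none => exact one_mem _
      | some y => exact hlV n y (List.mem_of_getElem? h)
    choose y z hy hz hyz using fun n => hcomm n _ (h1 n)
    let y' : Fin r → ∀ n, G n := fun i n => if n1 ≤ n then y n i else 1
    let z' : Fin r → ∀ n, G n := fun i n => if n1 ≤ n then z n i else 1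
    have : x k = ((List.finRange r).map fun i => ⁅y' i, z' i⁆).prod := by
      ext n
      rw [Pi.list_prod_apply, List.map_map]
      by_cases hn : n1 ≤ n
      · simp only [x, hn, if_true]
        rw [hyz n]
        congr 1
        refine List.map_congr_left fun i _ => ?_
        simp [y', z', hn, commutatorElement_def]
      · simp only [x, hn, if_false]
        symm
        apply List.prod_eq_one
        intro g hg
        obtain ⟨i, -, rfl⟩ := List.mem_map.1 hg
        simp [y', z', hn, commutatorElement_def]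
    rw [this]
    apply Subgroup.list_prod_mem
    intro g hg
    obtain ⟨i, -, rfl⟩ := List.mem_map.1 hg
    refine Subgroup.commutator_mem_commutator ?_ ?_
    · intro n _
      by_cases hn : n1 ≤ n <;> simp [y', hn, hy]
    · intro n _
      by_cases hn : n1 ≤ n <;> simp [z', hn, hz]
  have h0 : mprod ρK ((List.range c).map x) = 0 := hc W
    (fun g hg => hn0 g (hW g hg).1 fun n hn => (hW g hg).2 n (hn.trans_le (le_max_left _ _)))
    (fun γ hγ => hE γ (hW γ hγ).1) _ (by simp) (by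
      intro g hg
      obtain ⟨k, -, rfl⟩ := List.mem_map.1 hg
      exact hx k)
  let Y := mprod (piRep ρ) ((List.range c).map x)
  have hY : ∀ i j, ψ (Y i j) = 0 := by
    intro i j
    have := mprod_map (piRep ρ) ρK ψ.mapMatrix id (fun _ => rfl) ((List.range c).map x)
    rw [List.map_id, h0] at this
    exact congrFun (congrFun this i) j
  have hYn : ∀ n, n1 ≤ n → ∀ i j, Y i j n = mprod (ρ n) ((l n).take c) i j := by
    intro n hn i j
    have := mprod_map (piRep ρ) (ρ n) (Pi.evalRingHom R n).mapMatrix (fun g => g n)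
      (fun _ => rfl) ((List.range c).map x)
    have h2 : ((List.range c).map x).map (fun g => g n) = (l n).take c := by
      have hc' : c ≤ (l n).length := by
        rw [hl]; have := le_max_right n0 c; omega
      apply List.ext_getElem
      · simp [hc']
      · intro k h1 h2
        simp only [List.length_map, List.length_range] at h1
        simp [x, hn, List.getElem?_eq_getElem (h1.trans_le hc')]
    rw [h2] at this
    exact congrFun (congrFun this i) j
  let lam : d → d → ∀ n, R n := fun i' k n =>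
    if i' = i n then ↑(u n)⁻¹ * mprod (ρ n) ((l n).drop c) k (j n) else 0
  apply hψζ
  rw [hψe ζ (∑ i', ∑ k, lam i' k * Y i' k) ⟨n1, fun n hn => ?_⟩]
  · simp [hY]
  · simp only [Finset.sum_apply, Pi.mul_apply, lam, hYn n hn, ite_mul, zero_mul]
    rw [Finset.sum_comm]
    simp only [Finset.sum_ite_eq', Finset.mem_univ, if_true]
    have h1 := hu n
    rw [← List.take_append_drop c (l n), mprod_append, Matrix.mul_apply] at h1
    simp only [mul_assoc]
    rw [← Finset.mul_sum, Units.eq_inv_mul_iff_mul_eq, ← h1]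
    exact Finset.sum_congr rfl fun k _ => mul_comm _ _

end Pool.Agent.Lib.MP_2551c4_al
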