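import Mathlib
import Pool.Agent.Lib.MP_2551c4_al.Powered

/-! Polycyclic generating lists in products of nilpotent groups. -/

namespace Pool.Agent.Lib.MP_2551c4_al

open scoped commutatorElement

universe u

variable {I : Type} {N : I → Type u} [∀ i, Group (N i)]

/-- the subgroup generated by the components of a list -/
def cl (ys : List (∀ i, N i)) (i : I) : Subgroup (N i) :=
  Subgroup.closure {z | ∃ y ∈ ys, y i = z}

theorem mem_cl {ys : List (∀ i, N i)} {y : ∀ i, N i} (hy : y ∈ ys) (i : I) : y i ∈ cl ys i :=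
  Subgroup.subset_closure ⟨y, hy, rfl⟩

theorem cl_mono {ys zs : List (∀ i, N i)} (h : ∀ y ∈ ys, y ∈ zs) (i : I) : cl ys i ≤ cl zs i :=
  Subgroup.closure_mono fun _ ⟨y, hy, hz⟩ => ⟨y, h y hy, hz⟩

theorem cl_le {ys : List (∀ i, N i)} {i : I} {K : Subgroup (N i)} (h : ∀ y ∈ ys, y i ∈ K) :
    cl ys i ≤ K := (Subgroup.closure_le _).2 fun _ ⟨y, hy, hz⟩ => hz ▸ h y hy

/-- pointwise central lists -/
def Pc (M : ∀ i, Subgroup (N i)) : List (∀ i, N i) → Prop
  | [] => True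
  | y :: ys => (∀ i, y i ∈ M i) ∧ (∀ i, ∀ x ∈ M i, ⁅y i, x⁆ ∈ cl ys i) ∧ Pc M ys

variable {M : ∀ i, Subgroup (N i)}

theorem Pc.mem : ∀ {ys : List (∀ i, N i)}, Pc M ys → ∀ y ∈ ys, ∀ i, y i ∈ M i
  | [], _, _, hy => by simp at hy
  | z :: ys, h, y, hy => by
    rcases List.mem_cons.1 hy with rfl | hy
    · exact h.1
    · exact h.2.2.mem y hy

theorem Pc.comm : ∀ {ys : List (∀ i, N i)}, Pc M ys → ∀ y ∈ ys, ∀ i, ∀ x ∈ M i,
    ⁅y i, x⁆ ∈ cl ys i
  | [], _, _, hy => by simp at hy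
  | z :: ys, h, y, hy => by
    intro i x hx
    apply cl_mono (ys := ys) (fun y hy => by simp [hy])
    rcases List.mem_cons.1 hy with rfl | hy
    · exact h.2.1 i x hx
    · exact h.2.2.comm y hy i x hx

theorem Pc.nz {ys : List (∀ i, N i)} (h : Pc M ys) (i : I) : Nz (M i) (cl ys i) := by
  intro x hx k hk
  have : cl ys i ≤ (cl ys i).comap (MulAut.conj x).toMonoidHom := by
    refine cl_le fun y hy => ?_
    change x * y i * x⁻¹ ∈ cl ys i
    have : x * y i * x⁻¹ = ⁅y i, x⁆⁻¹ * y i := by simp only [commutatorElement_def]; group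
    rw [this]
    exact mul_mem (inv_mem (h.comm y hy i x hx)) (mem_cl hy i)
  exact this hk

theorem Pc.tail : ∀ (bs : List (∀ i, N i)) {ys : List (∀ i, N i)}, Pc M (bs ++ ys) → Pc M ys
  | [], _, h => h
  | _ :: bs, _, h => Pc.tail bs h.2.2

theorem Pc.append {ys : List (∀ i, N i)} (h : Pc M ys) : ∀ bs : List (∀ i, N i),
    (∀ b ∈ bs, ∀ i, b i ∈ M i ∧ ∀ x ∈ M i, ⁅b i, x⁆ ∈ cl ys i) → Pc M (bs ++ ys)
  | [], _ => h
  | b :: bs, hb => ⟨fun i => (hb b (by simp) i).1,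
      fun i x hx => cl_mono (fun y hy => by simp [hy]) i ((hb b (by simp) i).2 x hx),
      h.append bs fun b' hb' => hb b' (by simp [hb'])⟩

theorem Pc.coord_top : ∀ {ys : List (∀ i, N i)}, Pc M ys → ∀ x : ∀ i, N i,
    (∀ i, x i ∈ cl ys i) → x ∈ Coord ⊤ ys
  | [], _, x, hx => funext fun i => by simpa [cl] using hx i
  | y :: ys, h, x, hx => by
    have : ∀ i, ∃ t : ℤ, ∃ k ∈ cl ys i, x i = y i ^ t * k := by
      intro i
      have hn := h.2.2.nz i
      let K : Subgroup (N i) :=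
        { carrier := {x | ∃ t : ℤ, ∃ k ∈ cl ys i, x = y i ^ t * k}
          one_mem' := ⟨0, 1, one_mem _, by simp⟩
          mul_mem' := by
            rintro _ _ ⟨t, k, hk, rfl⟩ ⟨t', k', hk', rfl⟩
            refine ⟨t + t', _, mul_mem (hn _ (inv_mem (zpow_mem (h.1 i) t')) k hk) hk', ?_⟩
            group
          inv_mem' := by
            rintro _ ⟨t, k, hk, rfl⟩
            refine ⟨-t, _, hn _ (zpow_mem (h.1 i) t) _ (inv_mem hk), ?_⟩
            group }
      have : cl (y :: ys) i ≤ K := by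
        refine cl_le fun z hz => ?_
        rcases List.mem_cons.1 hz with rfl | hz
        · exact ⟨1, 1, one_mem _, by simp⟩
        · exact ⟨0, z i, mem_cl hz i, by simp⟩
      exact this (hx i)
    choose t k hk hx' using this
    exact ⟨t, trivial, k, h.2.2.coord_top k hk, funext hx'⟩

theorem coord_cl {R : Subring (I → ℤ)} {ys : List (∀ i, N i)} {x : ∀ i, N i}
    (hx : x ∈ Coord R ys) (i : I) : x i ∈ cl ys i :=
  coord_le (K := (cl ys i).comap (Pi.evalMonoidHom N i))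
    (fun _ hy _ _ => zpow_mem (mem_cl hy i) _) x hx

theorem exists_finset_coord : ∀ {ys : List (∀ i, N i)} {x : ∀ i, N i}, x ∈ Coord ⊤ ys →
    ∃ T : Finset (I → ℤ), ∀ R : Subring (I → ℤ), (∀ t ∈ T, t ∈ R) → x ∈ Coord R ys
  | [], _, hx => ⟨∅, fun _ _ => hx⟩
  | _ :: _, _, ⟨t, _, k, hk, hx⟩ => by
    classical
    obtain ⟨T, hT⟩ := exists_finset_coord hk
    exact ⟨insert t T, fun R hR => ⟨t, hR t (by simp), k,
      hT R fun s hs => hR s (by simp [hs]), hx⟩⟩

theorem exists_finset_coord' {ys : List (∀ i, N i)} {X : Set (∀ i, N i)} (hX : X.Finite)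
    (h : ∀ x ∈ X, x ∈ Coord ⊤ ys) :
    ∃ T : Finset (I → ℤ), ∀ R : Subring (I → ℤ), (∀ t ∈ T, t ∈ R) → ∀ x ∈ X, x ∈ Coord R ys := by
  classical
  choose! T hT using fun x hx => exists_finset_coord (h x hx)
  exact ⟨hX.toFinset.biUnion T, fun R hR x hx => hT x hx R fun t ht =>
    hR t (Finset.mem_biUnion.2 ⟨x, hX.mem_toFinset.2 hx, ht⟩)⟩

theorem Pc.exists_finset_cen {D : Set (∀ i, N i)} (hD : D.Finite) (hD' : ∀ d ∈ D, ∀ i, d i ∈ M i) :
    ∀ {ys : List (∀ i, N i)}, Pc M ys →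
      ∃ T : Finset (I → ℤ), ∀ R : Subring (I → ℤ), (∀ t ∈ T, t ∈ R) → Cen R D ys
  | [], _ => ⟨∅, fun _ _ => trivial⟩
  | y :: ys, h => by
    classical
    obtain ⟨T, hT⟩ := h.2.2.exists_finset_cen hD hD'
    obtain ⟨T', hT'⟩ := exists_finset_coord' (ys := ys) (hD.image fun d => ⁅y, d⁆) (by
      rintro _ ⟨d, hd, rfl⟩
      exact h.2.2.coord_top _ fun i => h.2.1 i _ (hD' d hd i))
    exact ⟨T ∪ T', fun R hR => ⟨fun d hd => hT' R (fun t ht => hR t (by simp [ht])) _ ⟨d, hd, rfl⟩,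
      hT R fun t ht => hR t (by simp [ht])⟩⟩

section lift

variable {I' : Type} (f : I' → I)

/-- reindexing -/
def lf : (∀ i, N i) →* ∀ i, N (f i) where
  toFun x i := x (f i)
  map_one' := rfl
  map_mul' _ _ := rfl

theorem cl_map_lf (ys : List (∀ i, N i)) (i : I') : cl (ys.map (lf f)) i = cl ys (f i) := by
  unfold cl
  congr 1
  ext z
  simp only [List.mem_map, Set.mem_ofPred_eq, exists_exists_and_eq_and]
  rfl

variable {f} {R : Subring (I' → ℤ)}

theorem lf_mem_coord (hR : ∀ t : I → ℤ, t ∘ f ∈ R) : ∀ {ys : List (∀ i, N i)} {x : ∀ i, N i},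
    x ∈ Coord ⊤ ys → lf f x ∈ Coord R (ys.map (lf f))
  | [], x, hx => by rw [show x = 1 from hx]; rfl
  | _ :: _, _, ⟨t, _, k, hk, hx⟩ => ⟨t ∘ f, hR t, lf f k, lf_mem_coord hR hk, by rw [hx]; rfl⟩

theorem Pc.cen_lf (hR : ∀ t : I → ℤ, t ∘ f ∈ R) {D : Set (∀ i, N (f i))}
    (hD : ∀ d ∈ D, ∃ x : ∀ i, N i, (∀ i, x i ∈ M i) ∧ d = lf f x) :
    ∀ {ys : List (∀ i, N i)}, Pc M ys → Cen R D (ys.map (lf f))
  | [], _ => trivial
  | y :: ys, h => by
    refine ⟨fun d hd => ?_, h.2.2.cen_lf hR hD⟩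
    obtain ⟨x, hx, rfl⟩ := hD d hd
    rw [← map_commutatorElement]
    exact lf_mem_coord hR (h.2.2.coord_top _ fun i => h.2.1 i _ (hx i))

theorem Pc.coord_desc [∀ i, Finite (N i)] (hR : ∀ t : I → ℤ, t ∘ f ∈ R)
    (hsat : ∀ π : I → ℤ, (∀ i, π i ≠ 0) → ∀ t, (π ∘ f) * t ∈ R → t ∈ R)
    {ys : List (∀ i, N i)} : ∀ bs : List (∀ i, N i), Pc M (bs ++ ys) →
      (∀ zs : List (∀ i, N i), zs <:+ bs ++ ys → (∀ x ∈ csub R (zs.map (lf f)),
        x ∈ Coord R (zs.map (lf f))) ∧ Powered R (csub R (zs.map (lf f)))) →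
      ∀ h ∈ Coord R ((bs ++ ys).map (lf f)), (∀ i, h i ∈ cl ys (f i)) →
        h ∈ Coord R (ys.map (lf f))
  | [], _, _, h, hh, _ => hh
  | b :: bs, hP, hg, _, ⟨t, ht, k, hk, rfl⟩, hh => by
    refine hP.2.2.coord_desc hR hsat bs (fun zs hz => hg zs (hz.trans (List.suffix_cons _ _))) _
      ?_ hh
    obtain ⟨h1, h2⟩ := hg (bs ++ ys) (List.suffix_cons _ _)
    have : ∀ i, ∃ π : ℤ, π ≠ 0 ∧ b i ^ π ∈ cl (bs ++ ys) i ∧
        ∀ s : ℤ, b i ^ s ∈ cl (bs ++ ys) i → π ∣ s := by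
      intro i
      let H : AddSubgroup ℤ :=
        { carrier := {s | b i ^ s ∈ cl (bs ++ ys) i}
          zero_mem' := by simp
          add_mem' := fun h h' => by
            simp only [Set.mem_ofPred_eq, zpow_add]; exact mul_mem h h'
          neg_mem' := fun h => by
            simp only [Set.mem_ofPred_eq, zpow_neg]; exact inv_mem h }
      obtain ⟨a, ha⟩ := Int.subgroup_cyclic H
      have hd : ∀ s ∈ H, a ∣ s := by
        intro s hs
        rw [ha, AddSubgroup.mem_closure_singleton] at hs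
        obtain ⟨n, rfl⟩ := hs
        exact Dvd.intro_left n rfl
      refine ⟨a, ?_, ?_, hd⟩
      · rintro rfl
        have := hd (orderOf (b i)) (by
          change b i ^ (orderOf (b i) : ℤ) ∈ cl (bs ++ ys) i
          rw [zpow_natCast, pow_orderOf_eq_one]; exact one_mem _)
        exact (orderOf_pos (b i)).ne' (by simpa using this)
      · change a ∈ H
        rw [ha]; exact AddSubgroup.subset_closure rfl
    choose π hπ hπ1 hπ2 using this
    have hdiv : ∀ i, π (f i) ∣ t i := by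
      intro i
      apply hπ2
      have e1 := cl_mono (ys := ys) (zs := bs ++ ys) (fun y hy => by simp [hy]) _ (hh i)
      have e2 := coord_cl hk i
      rw [cl_map_lf] at e2
      have e3 := mul_mem e1 (inv_mem e2)
      rw [Pi.mul_apply, mul_inv_cancel_right] at e3
      exact e3
    choose t' ht' using hdiv
    have e : t = (π ∘ f) * t' := funext ht'
    apply h1
    refine mul_mem ?_ (Subgroup.subset_closure hk)
    rw [e, pw_mul]
    refine h2 _ (Subgroup.subset_closure ?_) _ (hsat π hπ t' (e ▸ ht))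
    exact lf_mem_coord hR (x := pw b π) (hP.2.2.coord_top _ hπ1)

end lift

/-- blocks of generators of an ascending chain -/
def bl {r : ℕ} (gen : ℕ → Fin r → ∀ i, N i) : ℕ → List (∀ i, N i)
  | 0 => []
  | k + 1 => List.ofFn (gen (k + 1)) ++ bl gen k

omit [∀ i, Group (N i)] in
theorem bl_suffix {r : ℕ} (gen : ℕ → Fin r → ∀ i, N i) {k l : ℕ} (h : k ≤ l) :
    bl gen k <:+ bl gen l := by
  induction h with
  | refl => exact List.suffix_refl _
  | step _ ih => exact ih.trans (List.suffix_append _ _)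

theorem pc_bl {r : ℕ} (gen : ℕ → Fin r → ∀ i, N i) (U : ℕ → ∀ i, Subgroup (N i))
    (h0 : ∀ i, U 0 i = ⊥) (hU : ∀ k i, U k i ≤ U (k + 1) i) (hM : ∀ k i, U k i ≤ M i)
    (hc : ∀ k i, ⁅U (k + 1) i, M i⁆ ≤ U k i)
    (hg : ∀ k i, Subgroup.closure (Set.range fun a => gen k a i) = U k i) (k : ℕ) :
    Pc M (bl gen k) ∧ ∀ i, cl (bl gen k) i = U k i := by
  have hg' : ∀ k a i, gen k a i ∈ U k i := fun k a i =>
    hg k i ▸ Subgroup.subset_closure ⟨a, rfl⟩
  induction k with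
  | zero => exact ⟨trivial, fun i => by simp [cl, bl, h0]⟩
  | succ k ih =>
    refine ⟨ih.1.append _ fun b hb i => ?_, fun i => le_antisymm (cl_le fun y hy => ?_) ?_⟩
    · obtain ⟨a, rfl⟩ := List.mem_ofFn.1 hb
      refine ⟨hM _ _ (hg' _ a i), fun x hx => ?_⟩
      rw [ih.2]
      exact hc k i (Subgroup.commutator_mem_commutator (hg' _ a i) hx)
    · rcases List.mem_append.1 hy with hy | hy
      · obtain ⟨a, rfl⟩ := List.mem_ofFn.1 hy
        exact hg' _ a i
      · exact hU k i (ih.2 i ▸ mem_cl hy i)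
    · rw [← hg, Subgroup.closure_le]
      rintro _ ⟨a, rfl⟩
      exact mem_cl (List.mem_append_left _ (List.mem_ofFn.2 ⟨a, rfl⟩)) i

end Pool.Agent.Lib.MP_2551c4_al
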