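import Mathlib

/-! Linear recurrences whose characteristic polynomial is a power of `X - 1` modulo `π`. -/

namespace Pool.Agent.Lib.MP_2551c4_al

open Polynomial

variable {Λ : Type*} [CommRing Λ]

/-- monic and congruent to a power of `X - 1` -/
def Uni (π : Λ) (χ : Λ[X]) : Prop := χ.Monic ∧ ∃ a : ℕ, ∃ g, χ = (X - 1) ^ a + C π * g

theorem Uni.mul {π : Λ} {χ ψ : Λ[X]} (h : Uni π χ) (h' : Uni π ψ) : Uni π (χ * ψ) := by
  obtain ⟨h1, a, g, hg⟩ := h
  obtain ⟨h2, a', g', hg'⟩ := h'
  refine ⟨h1.mul h2, a + a', g * ψ + (X - 1) ^ a * g', ?_⟩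
  linear_combination ψ * hg + (X - 1) ^ a * hg'

theorem exists_uni {π : Λ} {M : Type*} [AddCommGroup M] [Module Λ M] [Module.Finite Λ M]
    (c : Module.End Λ M) (a : ℕ) (h : ∀ x, ∃ y, ((c - 1) ^ a) x = π • y) :
    ∃ ψ, Uni π ψ ∧ aeval c ψ = 0 := by
  obtain ⟨q, hq, -, hq1, hq2⟩ :=
    LinearMap.exists_monic_and_natDegree_eq_and_coeff_mem_pow_and_aeval_eq_zero Λ
      ((c - 1) ^ (a + 1)) (Ideal.span {π}) (by
        rintro _ ⟨x, rfl⟩
        obtain ⟨y, hy⟩ := h ((c - 1) x)
        rw [pow_succ, Module.End.mul_apply, hy]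
        exact Submodule.smul_mem_smul (Ideal.subset_span rfl) trivial)
  obtain ⟨g, hg⟩ : C π ∣ q - X ^ q.natDegree := by
    rw [C_dvd_iff_dvd_coeff]
    intro k
    rw [coeff_sub, coeff_X_pow]
    rcases lt_trichotomy k q.natDegree with hk | rfl | hk
    · rw [if_neg hk.ne, sub_zero, ← Ideal.mem_span_singleton]
      exact Ideal.pow_le_self (by omega) (hq1 k)
    · simp [hq.coeff_natDegree]
    · simp [coeff_eq_zero_of_natDegree_lt hk, hk.ne']
  refine ⟨(expand Λ (a + 1) q).comp (X - C 1), ⟨(hq.expand (Nat.succ_pos a)).comp_X_sub_C 1,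
    (a + 1) * q.natDegree, (expand Λ (a + 1) g).comp (X - C 1), ?_⟩, ?_⟩
  · conv_lhs => rw [sub_eq_iff_eq_add'.1 hg]
    simp [pow_mul]
  · rw [aeval_comp, expand_aeval]
    simpa using hq2

variable (Λ) in
/-- the shift -/
def sh (L : Type*) [AddCommGroup L] [Module Λ L] : Module.End Λ (ℕ → L) :=
  LinearMap.funLeft Λ L Nat.succ

variable {L L' : Type*} [AddCommGroup L] [Module Λ L] [AddCommGroup L'] [Module Λ L']

theorem sh_apply (f : ℕ → L) (n : ℕ) : sh Λ L f n = f (n + 1) := rfl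

theorem sh_pow_apply (k : ℕ) (f : ℕ → L) (n : ℕ) : (sh Λ L ^ k) f n = f (n + k) := by
  induction k generalizing n with
  | zero => rfl
  | succ k ih => rw [pow_succ', Module.End.mul_apply, sh_apply, ih, add_assoc, add_comm 1 k]

theorem aeval_sh_apply {χ : Λ[X]} {m : ℕ} (hm : χ.natDegree < m) (f : ℕ → L) (n : ℕ) :
    aeval (sh Λ L) χ f n = ∑ k ∈ Finset.range m, χ.coeff k • f (n + k) := by
  rw [aeval_eq_sum_range' hm]
  simp [LinearMap.sum_apply, sh_pow_apply]

theorem aeval_sh_eq_zero_iff {χ : Λ[X]} (h : χ.Monic) (f : ℕ → L) :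
    aeval (sh Λ L) χ f = 0 ↔
      ∀ n, f (n + χ.natDegree) = ∑ i : Fin χ.natDegree, (-χ.coeff i) • f (n + i) := by
  rw [funext_iff]
  refine forall_congr' fun n => ?_
  rw [aeval_sh_apply (Nat.lt_succ_self _), Finset.sum_range_succ, h.coeff_natDegree, one_smul,
    Finset.sum_range (fun k => χ.coeff k • f (n + k)), Pi.zero_apply, add_comm,
    add_eq_zero_iff_eq_neg]
  simp

/-- satisfies a recurrence of the given type -/
def Rec (π : Λ) (f : ℕ → L) : Prop := ∃ χ, Uni π χ ∧ aeval (sh Λ L) χ f = 0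

variable {π : Λ}

theorem aeval_comm_apply {V : Type*} [AddCommGroup V] [Module Λ V] {T c : Module.End Λ V}
    (h : Commute c T) (χ : Λ[X]) (v : V) : aeval T χ (c v) = c (aeval T χ v) := by
  have : Commute c (aeval T χ) := by
    induction χ using Polynomial.induction_on' with
    | add p q hp hq => rw [map_add]; exact hp.add_right hq
    | monomial n a =>
      rw [aeval_monomial]
      exact (Algebra.commute_algebraMap_right a c).mul_right (h.pow_right n)
  exact (LinearMap.congr_fun this.eq v).symm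

theorem Rec.add {f g : ℕ → L} (hf : Rec π f) (hg : Rec π g) : Rec π (f + g) := by
  obtain ⟨χ, h1, h2⟩ := hf
  obtain ⟨ψ, h3, h4⟩ := hg
  refine ⟨χ * ψ, h1.mul h3, ?_⟩
  rw [map_add]
  conv_lhs => congr; rw [mul_comm]
  simp only [map_mul, Module.End.mul_apply, h2, h4, map_zero, add_zero]

theorem Rec.map {f : ℕ → L} (hf : Rec π f) (φ : L →ₗ[Λ] L') : Rec π fun n => φ (f n) := by
  obtain ⟨χ, h1, h2⟩ := hf
  refine ⟨χ, h1, funext fun n => ?_⟩
  have := congrArg φ (congrFun h2 n)
  rw [aeval_sh_apply (Nat.lt_succ_self _)] at this ⊢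
  simpa using this

theorem Rec.of_map {f : ℕ → L} (φ : L →ₗ[Λ] L') (hφ : Function.Injective φ)
    (hf : Rec π fun n => φ (f n)) : Rec π f := by
  obtain ⟨χ, h1, h2⟩ := hf
  refine ⟨χ, h1, funext fun n => hφ ?_⟩
  have := congrFun h2 n
  rw [aeval_sh_apply (Nat.lt_succ_self _)] at this ⊢
  simpa using this

theorem Rec.neg {f : ℕ → L} (hf : Rec π f) : Rec π (-f) := hf.map (-LinearMap.id)

theorem rec_const (x : L) : Rec π fun _ : ℕ => x := by
  refine ⟨X - 1, ⟨by simpa using monic_X_sub_C (1 : Λ), 1, 0, by simp⟩, ?_⟩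
  ext n
  simp [sh_apply]

theorem Rec.shift {f : ℕ → L} (hf : Rec π f) : Rec π fun n => f (n + 1) := by
  obtain ⟨χ, h1, h2⟩ := hf
  refine ⟨χ, h1, ?_⟩
  change aeval (sh Λ L) χ (sh Λ L f) = 0
  rw [aeval_comm_apply (Commute.refl _), h2, map_zero]

theorem Rec.sum {ι : Type*} (s : Finset ι) {f : ι → ℕ → L} (hf : ∀ i, Rec π (f i)) :
    Rec π (∑ i ∈ s, f i) := by
  classical
  induction s using Finset.induction_on with
  | empty => exact rec_const 0
  | insert a s ha ih => rw [Finset.sum_insert ha]; exact (hf a).add ih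

theorem Rec.twist {f h : ℕ → L} (c : Module.End Λ L) {ψ : Λ[X]} (hψ : Uni π ψ)
    (hc : aeval c ψ = 0) (hh : Rec π h) (hf : ∀ n, f (n + 1) = c (f n) + h n) : Rec π f := by
  obtain ⟨χ, h1, h2⟩ := hh
  let c' : Module.End Λ (ℕ → L) := c.compLeft ℕ
  have hcT : Commute c' (sh Λ L) := rfl
  have hf' : sh Λ L f = c' f + h := funext hf
  have k1 : ∀ n : ℕ, aeval (sh Λ L) χ ((sh Λ L ^ n) f) = aeval (sh Λ L) χ ((c' ^ n) f) := by
    intro n
    induction n with
    | zero => rfl
    | succ n ih =>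
      rw [pow_succ', Module.End.mul_apply, aeval_comm_apply (Commute.refl _), ih,
        ← aeval_comm_apply (Commute.refl _), ← Module.End.mul_apply (sh Λ L),
        ← (hcT.pow_left n).eq, Module.End.mul_apply, hf', map_add, map_add,
        aeval_comm_apply (hcT.pow_left n) χ h, h2, map_zero, add_zero, pow_succ,
        Module.End.mul_apply]
  have k2 : ∀ g : Λ[X], aeval (sh Λ L) χ (aeval (sh Λ L) g f) =
      aeval (sh Λ L) χ (aeval c' g f) := by
    intro g
    induction g using Polynomial.induction_on' with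
    | add p q hp hq => simp only [map_add, LinearMap.add_apply, hp, hq]
    | monomial n a =>
      simp only [aeval_monomial, Module.End.mul_apply, Module.algebraMap_end_apply, map_smul, k1]
  have k3 : ∀ (g : Λ[X]) (n : ℕ), aeval c' g f n = aeval c g (f n) := by
    have : ∀ (k : ℕ) (f : ℕ → L) (n : ℕ), (c' ^ k) f n = (c ^ k) (f n) := by
      intro k
      induction k with
      | zero => intro f n; rfl
      | succ k ih => intro f n; rw [pow_succ, pow_succ, Module.End.mul_apply, ih]; rfl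
    intro g n
    induction g using Polynomial.induction_on' with
    | add p q hp hq => simp only [map_add, LinearMap.add_apply, Pi.add_apply, hp, hq]
    | monomial k a =>
      simp only [aeval_monomial, Module.End.mul_apply, Module.algebraMap_end_apply,
        Pi.smul_apply, this]
  refine ⟨χ * ψ, h1.mul hψ, ?_⟩
  have : aeval c' ψ f = 0 := funext fun n => by rw [k3, hc]; rfl
  rw [map_mul, Module.End.mul_apply, k2, this, map_zero]

theorem Rec.lift {r : ℕ} (y : Fin r → L) (hy : ∀ x, ∃ v : Fin r → Λ, ∑ a, v a • y a = x)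
    {f : ℕ → L} (hf : Rec π f) :
    ∃ v : Fin r → ℕ → Λ, (∀ a, Rec π (v a)) ∧ ∀ n, ∑ a, v a n • y a = f n := by
  obtain ⟨χ, h1, h2⟩ := hf
  choose u hu using hy
  let E : LinearRecurrence Λ := ⟨χ.natDegree, fun i => -χ.coeff i⟩
  refine ⟨fun a => E.mkSol fun i => u (f i) a, fun a => ⟨χ, h1, ?_⟩, fun n => ?_⟩
  · rw [aeval_sh_eq_zero_iff h1.1]
    exact E.is_sol_mkSol _
  · rw [aeval_sh_eq_zero_iff h1.1] at h2
    induction n using Nat.strong_induction_on with
    | _ n ih =>
      rcases lt_or_ge n χ.natDegree with hn | hn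
      · rw [← hu (f n)]
        exact Finset.sum_congr rfl fun a _ =>
          congrArg (· • y a) (E.mkSol_eq_init (fun i => u (f i) a) ⟨n, hn⟩)
      · obtain ⟨m, rfl⟩ := Nat.exists_eq_add_of_le' hn
        rw [h2]
        have := fun a => E.is_sol_mkSol (fun i => u (f i) a) m
        simp only [E] at this
        simp only [E, this, Finset.sum_smul]
        rw [Finset.sum_comm]
        refine Finset.sum_congr rfl fun i _ => ?_
        rw [← ih (m + i) (by have := i.2; omega), Finset.smul_sum]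
        exact Finset.sum_congr rfl fun a _ => mul_smul _ _ _

theorem Rec.exists_submodule {f : ℕ → L} (hf : Rec π f) : ∃ U : Submodule Λ (ℕ → L), U.FG ∧
    f ∈ U ∧ (∀ u ∈ U, (sh Λ L - 1) u ∈ U) ∧ ∃ a : ℕ, ∀ u ∈ U, ∃ u' ∈ U,
      ((sh Λ L - 1) ^ a) u = π • u' := by
  classical
  obtain ⟨χ, ⟨h1, a, g, hg⟩, h2⟩ := hf
  let ev : Λ[X] →ₗ[Λ] (ℕ → L) :=
    (LinearMap.applyₗ f).comp (aeval (sh Λ L)).toLinearMap
  have hev : ∀ q, ev q = aeval (sh Λ L) q f := fun q => rfl
  have hχ : ∀ q, ev (q * χ) = 0 := fun q => by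
    rw [hev, map_mul, Module.End.mul_apply, h2, map_zero]
  refine ⟨LinearMap.range ev, ?_, ⟨1, by simp [hev]⟩, ?_, a, ?_⟩
  · have : LinearMap.range ev = (degreeLT Λ χ.natDegree).map ev := by
      apply le_antisymm
      · rintro _ ⟨q, rfl⟩
        cases subsingleton_or_nontrivial Λ
        · rw [Subsingleton.elim q 0, map_zero]; exact zero_mem _
        refine ⟨q %ₘ χ, ?_, ?_⟩
        · rw [SetLike.mem_coe, mem_degreeLT, ← degree_eq_natDegree h1.ne_zero]
          exact degree_modByMonic_lt q h1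
        · conv_rhs => rw [← modByMonic_add_div q χ, map_add, mul_comm, hχ, add_zero]
      · exact LinearMap.map_le_range
    rw [this, degreeLT_eq_span_X_pow]
    exact (Submodule.fg_span (Finset.finite_toSet _)).map _
  · rintro _ ⟨q, rfl⟩
    exact ⟨(X - 1) * q, by simp [hev]⟩
  · rintro _ ⟨q, rfl⟩
    refine ⟨ev (-(g * q)), ⟨_, rfl⟩, ?_⟩
    have e1 : ((sh Λ L - 1) ^ a) (ev q) = ev ((X - 1) ^ a * q) := by simp [hev]
    have e2 : (X - 1) ^ a * q = q * χ + π • -(g * q) := by
      rw [smul_eq_C_mul, hg]; ring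
    rw [e1, e2, map_add, hχ, zero_add, map_smul]

theorem rec_of_submodule {f : ℕ → L} (U : Submodule Λ (ℕ → L)) (hU : U.FG) (hf : f ∈ U)
    (h1 : ∀ u ∈ U, sh Λ L u ∈ U) (a : ℕ)
    (h2 : ∀ u ∈ U, ∃ u' ∈ U, ((sh Λ L - 1) ^ a) u = π • u') : Rec π f := by
  have : Module.Finite Λ U := Module.Finite.iff_fg.2 hU
  have key : ∀ (g : Λ[X]) (u : U), (aeval ((sh Λ L).restrict h1) g u : ℕ → L) =
      aeval (sh Λ L) g u := by
    have : ∀ (k : ℕ) (u : U), ((((sh Λ L).restrict h1) ^ k) u : ℕ → L) = (sh Λ L ^ k) u := by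
      intro k
      induction k with
      | zero => intro u; rfl
      | succ k ih => intro u; rw [pow_succ, pow_succ, Module.End.mul_apply, ih]; rfl
    intro g u
    induction g using Polynomial.induction_on' with
    | add p q hp hq => simp only [map_add, LinearMap.add_apply, Submodule.coe_add, hp, hq]
    | monomial k a =>
      simp only [aeval_monomial, Module.End.mul_apply, Module.algebraMap_end_apply,
        Submodule.coe_smul, this]
  obtain ⟨ψ, hψ, hψ'⟩ := exists_uni (π := π) ((sh Λ L).restrict h1) a (by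
    intro u
    obtain ⟨u', hu', h⟩ := h2 u u.2
    refine ⟨⟨u', hu'⟩, Subtype.ext ?_⟩
    have := key ((X - 1) ^ a) u
    simp only [map_pow, map_sub, aeval_X, map_one] at this
    rw [this, h]; rfl)
  refine ⟨ψ, hψ, ?_⟩
  rw [← key ψ ⟨f, hf⟩, hψ']; rfl

theorem Rec.mul {f g : ℕ → Λ} (hf : Rec π f) (hg : Rec π g) : Rec π (f * g) := by
  obtain ⟨U, h1, h2, h3, a, h4⟩ := hf.exists_submodule
  obtain ⟨U', h1', h2', h3', a', h4'⟩ := hg.exists_submodule
  set δ := sh Λ Λ - 1 with hδ
  have hδm : ∀ x y : ℕ → Λ, δ (x * y) = δ x * δ y + δ x * y + x * δ y := by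
    intro x y
    ext n
    simp only [hδ, LinearMap.sub_apply, Module.End.one_apply, Pi.sub_apply, sh_apply,
      Pi.mul_apply, Pi.add_apply]
    ring
  have hpow : ∀ (V : Submodule Λ (ℕ → Λ)), (∀ u ∈ V, δ u ∈ V) → ∀ k : ℕ, ∀ u ∈ V,
      (δ ^ k) u ∈ V := by
    intro V hV k
    induction k with
    | zero => exact fun u hu => hu
    | succ k ih => intro u hu; rw [pow_succ]; exact ih _ (hV u hu)
  let P : Submodule Λ (ℕ → Λ) := (U * U').map (π • LinearMap.id)
  have key : ∀ k i j : ℕ, a + a' ≤ i + j + k → ∀ u ∈ U, ∀ u' ∈ U',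
      (δ ^ k) ((δ ^ i) u * (δ ^ j) u') ∈ P := by
    intro k
    induction k with
    | zero =>
      intro i j hij u hu u' hu'
      rcases le_or_gt a i with h | h
      · obtain ⟨b, rfl⟩ := Nat.exists_eq_add_of_le h
        obtain ⟨v, hv, hv'⟩ := h4 _ (hpow U h3 b u hu)
        refine ⟨v * (δ ^ j) u', Submodule.mul_mem_mul hv (hpow U' h3' j u' hu'), ?_⟩
        rw [pow_add, Module.End.mul_apply, hv']
        simp
      · obtain ⟨b, rfl⟩ := Nat.exists_eq_add_of_le (show a' ≤ j by omega)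
        obtain ⟨v, hv, hv'⟩ := h4' _ (hpow U' h3' b u' hu')
        refine ⟨(δ ^ i) u * v, Submodule.mul_mem_mul (hpow U h3 i u hu) hv, ?_⟩
        rw [pow_add, Module.End.mul_apply, hv']
        simp
    | succ k ih =>
      intro i j hij u hu u' hu'
      rw [pow_succ, Module.End.mul_apply, hδm, map_add, map_add, ← Module.End.mul_apply δ,
        ← Module.End.mul_apply δ, ← pow_succ', ← pow_succ']
      exact add_mem (add_mem (ih _ _ (by omega) u hu u' hu') (ih _ _ (by omega) u hu u' hu'))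
        (ih _ _ (by omega) u hu u' hu')
  refine rec_of_submodule (U * U') (h1.mul h1') (Submodule.mul_mem_mul h2 h2') ?_ (a + a') ?_
  · intro x hx
    refine Submodule.mul_induction_on hx (fun u hu u' hu' => ?_) fun x y hx hy => ?_
    · have e : ∀ u, sh Λ Λ u = δ u + u := fun u => by simp [hδ]
      change sh Λ Λ u * sh Λ Λ u' ∈ _
      rw [e, e]
      exact Submodule.mul_mem_mul (add_mem (h3 u hu) hu) (add_mem (h3' u' hu') hu')
    · rw [map_add]; exact add_mem hx hy
  · intro x hx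
    have : (δ ^ (a + a')) x ∈ P := by
      refine Submodule.mul_induction_on hx (fun u hu u' hu' => ?_) fun x y hx hy => ?_
      · exact key (a + a') 0 0 (by omega) u hu u' hu'
      · rw [map_add]; exact add_mem hx hy
    obtain ⟨v, hv, hv'⟩ := this
    exact ⟨v, hv, hv'.symm⟩

end Pool.Agent.Lib.MP_2551c4_al
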