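import Pool.Agent.Lib.MP_2551c4_al.Basic

/-! Serre's lemma: commutator width in nilpotent groups. -/

namespace Pool.Agent.Lib.MP_2551c4_al

open scoped commutatorElement

set_option linter.unusedSectionVars false

universe u

variable {G : Type u} [Group G]

theorem prod_map_mul_central {ι : Type*} (l : List ι) (a b : ι → G)
    (ha : ∀ i, a i ∈ Subgroup.center G) :
    (l.map fun i => a i * b i).prod = (l.map a).prod * (l.map b).prod := by
  induction l with
  | nil => simp
  | cons i l ih =>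
    simp only [List.map_cons, List.prod_cons, ih]
    have hc : (l.map a).prod ∈ Subgroup.center G := by
      refine Subgroup.list_prod_mem _ ?_
      intro x hx
      obtain ⟨j, -, rfl⟩ := List.mem_map.1 hx
      exact ha j
    have := Subgroup.mem_center_iff.1 hc (b i)
    calc a i * b i * ((l.map a).prod * (l.map b).prod)
        = a i * (b i * (l.map a).prod) * (l.map b).prod := by group
      _ = _ := by rw [this]; group

theorem prod_map_ite {ι : Type*} [DecidableEq ι] {M : Type*} [Monoid M] (l : List ι)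
    (hl : l.Nodup) (i : ι) (hi : i ∈ l) (f : ι → M) (hf : ∀ j, j ≠ i → f j = 1) :
    (l.map f).prod = f i := by
  induction l with
  | nil => simp at hi
  | cons j l ih =>
    rw [List.nodup_cons] at hl
    simp only [List.map_cons, List.prod_cons]
    rcases List.mem_cons.1 hi with rfl | hi
    · have : (l.map f).prod = 1 := by
        apply List.prod_eq_one
        intro x hx
        obtain ⟨k, hk, rfl⟩ := List.mem_map.1 hx
        exact hf k fun h => hl.1 (h ▸ hk)
      rw [this, mul_one]
    · rw [ih hl.2 hi, hf j fun h => hl.1 (h ▸ hi), one_mul]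

/-- one layer of Serre's lemma, in a group where `[Z, G]` is central -/
theorem serre_layer {r : ℕ} (x : Fin r → G) (hx : Subgroup.closure (Set.range x) = ⊤)
    (Z : Subgroup G) (hZ : ⁅Z, (⊤ : Subgroup G)⁆ ≤ Subgroup.center G) :
    ∀ c ∈ ⁅Z, (⊤ : Subgroup G)⁆, ∃ z : Fin r → G, (∀ i, z i ∈ Z) ∧
      c = ((List.finRange r).map fun i => ⁅z i, x i⁆).prod := by
  classical
  have hcen : ∀ z ∈ Z, ∀ g : G, ⁅z, g⁆ ∈ Subgroup.center G := fun z hz g =>
    hZ (Subgroup.commutator_mem_commutator hz (Subgroup.mem_top g))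
  have hl : ∀ z ∈ Z, ∀ z' ∈ Z, ∀ g : G, ⁅z * z', g⁆ = ⁅z, g⁆ * ⁅z', g⁆ := by
    intro z hz z' hz' g
    have h1 := Subgroup.mem_center_iff.1 (hcen z' hz' g)
    calc ⁅z * z', g⁆ = (z * ⁅z', g⁆) * z⁻¹ * ⁅z, g⁆ := by simp only [commutatorElement_def]; group
      _ = ⁅z', g⁆ * ⁅z, g⁆ := by rw [h1 z]; group
      _ = _ := (h1 _).symm
  have hr : ∀ z ∈ Z, ∀ g g' : G, ⁅z, g * g'⁆ = ⁅z, g⁆ * ⁅z, g'⁆ := by
    intro z hz g g'
    have h1 := Subgroup.mem_center_iff.1 (hcen z hz g')
    calc ⁅z, g * g'⁆ = ⁅z, g⁆ * (g * ⁅z, g'⁆) * g⁻¹ := by simp only [commutatorElement_def]; group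
      _ = _ := by rw [h1 g]; group
  let S : Subgroup G :=
    { carrier := {c | ∃ z : Fin r → G, (∀ i, z i ∈ Z) ∧
        c = ((List.finRange r).map fun i => ⁅z i, x i⁆).prod}
      one_mem' := ⟨fun _ => 1, fun _ => one_mem _, by simp⟩
      mul_mem' := by
        rintro _ _ ⟨z, hz, rfl⟩ ⟨z', hz', rfl⟩
        refine ⟨fun i => z i * z' i, fun i => mul_mem (hz i) (hz' i), ?_⟩
        rw [← prod_map_mul_central _ _ _ fun i => hcen _ (hz i) _]
        simp only [hl _ (hz _) _ (hz' _)]
      inv_mem' := by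
        rintro _ ⟨z, hz, rfl⟩
        refine ⟨fun i => (z i)⁻¹, fun i => inv_mem (hz i), ?_⟩
        rw [inv_eq_iff_mul_eq_one, ← prod_map_mul_central _ _ _ fun i => hcen _ (hz i) _]
        simp only [← hl _ (hz _) _ (inv_mem (hz _))]
        simp }
  have : ⁅Z, (⊤ : Subgroup G)⁆ ≤ S := by
    rw [Subgroup.commutator_le]
    intro z hz g hg
    rw [← hx] at hg
    induction hg using Subgroup.closure_induction with
    | mem y hy =>
      obtain ⟨i, rfl⟩ := hy
      refine ⟨fun j => if j = i then z else 1, fun j => by dsimp only; split_ifs <;> simp [hz], ?_⟩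
      rw [prod_map_ite _ (List.nodup_finRange r) i (List.mem_finRange i)]
      · simp
      · intro j hj; simp [hj]
    | one => simp
    | mul a b _ _ ha hb => rw [hr z hz]; exact mul_mem ha hb
    | inv a _ ha =>
      have : ⁅z, a⁻¹⁆ = ⁅z, a⁆⁻¹ := by
        rw [eq_inv_iff_mul_eq_one, ← hr z hz]; simp
      rw [this]; exact inv_mem ha
  exact fun c hc => this hc

theorem serre_top {r : ℕ} (x : Fin r → G) (hx : Subgroup.closure (Set.range x) = ⊤) (n : ℕ)
    (hn : (⊤ : Subgroup G).lowerCentralSeries n = ⊥) :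
    ∀ c ∈ ⁅(⊤ : Subgroup G), (⊤ : Subgroup G)⁆, ∃ y : Fin r → G,
      c = ((List.finRange r).map fun i => ⁅y i, x i⁆).prod := by
  intro c hc
  have key : ∀ j, ∃ y : Fin r → G, ∃ c' ∈ (⊤ : Subgroup G).lowerCentralSeries (j + 1),
      c = c' * ((List.finRange r).map fun i => ⁅y i, x i⁆).prod := by
    intro j
    induction j with
    | zero => exact ⟨fun _ => 1, c, hc, by simp⟩
    | succ j ih =>
      obtain ⟨y, c', hc', rfl⟩ := ih
      let K := (⊤ : Subgroup G).lowerCentralSeries (j + 2)
      let π := QuotientGroup.mk' K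
      have hπ : Function.Surjective π := QuotientGroup.mk'_surjective K
      let Z : Subgroup (G ⧸ K) := ((⊤ : Subgroup G).lowerCentralSeries j).map π
      have hZ1 : ⁅Z, (⊤ : Subgroup (G ⧸ K))⁆ =
          ((⊤ : Subgroup G).lowerCentralSeries (j + 1)).map π := by
        rw [Subgroup.lowerCentralSeries_succ, Subgroup.map_commutator,
          Subgroup.map_top_of_surjective _ hπ]
      have hZ : ⁅Z, (⊤ : Subgroup (G ⧸ K))⁆ ≤ Subgroup.center (G ⧸ K) := by
        rw [← Subgroup.commutator_top_right_eq_bot_iff_le_center, hZ1,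
          ← Subgroup.map_top_of_surjective _ hπ, ← Subgroup.map_commutator,
          Subgroup.map_eq_bot_iff, QuotientGroup.ker_mk']
        exact le_rfl
      have hx' : Subgroup.closure (Set.range fun i => π (x i)) = ⊤ := by
        have h0 := MonoidHom.map_closure π (Set.range x)
        rw [hx, Subgroup.map_top_of_surjective _ hπ, ← Set.range_comp] at h0
        exact h0.symm
      obtain ⟨z, hz, hz'⟩ := serre_layer _ hx' Z hZ (π c') (hZ1 ▸ ⟨c', hc', rfl⟩)
      choose z' hz'1 hz'2 using hz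
      refine ⟨fun i => y i * z' i, c' * ((List.finRange r).map fun i => ⁅y i, x i⁆).prod *
        (((List.finRange r).map fun i => ⁅y i * z' i, x i⁆).prod)⁻¹, ?_, by group⟩
      change _ ∈ K
      rw [← QuotientGroup.ker_mk' K, MonoidHom.mem_ker]
      change π _ = 1
      rw [map_mul, map_mul, map_inv, mul_inv_eq_one, hz', map_list_prod, map_list_prod,
        List.map_map, List.map_map]
      have hcen : ∀ i, ⁅z i, π (x i)⁆ ∈ Subgroup.center (G ⧸ K) := fun i =>
        hZ (Subgroup.commutator_mem_commutator ⟨z' i, hz'1 i, hz'2 i⟩ (Subgroup.mem_top _))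
      rw [← prod_map_mul_central _ _ _ hcen]
      congr 1
      apply List.map_congr_left
      intro i _
      simp only [Function.comp, map_commutatorElement, map_mul, hz'2]
      have h1 := Subgroup.mem_center_iff.1 (hcen i)
      calc ⁅z i, π (x i)⁆ * ⁅π (y i), π (x i)⁆
          = (π (y i) * ⁅z i, π (x i)⁆) * (π (y i))⁻¹ * ⁅π (y i), π (x i)⁆ := by
            rw [h1 (π (y i))]; group
        _ = _ := by simp only [commutatorElement_def]; group
  obtain ⟨y, c', hc', h⟩ := key n
  have : c' ∈ (⊤ : Subgroup G).lowerCentralSeries n :=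
    Subgroup.lowerCentralSeries_antitone _ (Nat.le_succ n) hc'
  rw [hn, Subgroup.mem_bot] at this
  exact ⟨y, by simpa [this] using h⟩

theorem serre {p : ℕ} [Fact p.Prime] [Finite G] (hG : IsPGroup p G) {r : ℕ} {H : Subgroup G}
    (x : Fin r → G) (hx : Subgroup.closure (Set.range x) = H) :
    ∀ c ∈ ⁅H, H⁆, ∃ y : Fin r → G, (∀ i, y i ∈ H) ∧
      c = ((List.finRange r).map fun i => ⁅y i, x i⁆).prod := by
  intro c hc
  have hxH : ∀ i, x i ∈ H := fun i => hx ▸ Subgroup.subset_closure ⟨i, rfl⟩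
  let x' : Fin r → H := fun i => ⟨x i, hxH i⟩
  have hx' : Subgroup.closure (Set.range x') = ⊤ := by
    apply Subgroup.map_injective H.subtype_injective
    rw [MonoidHom.map_closure, ← Set.range_comp, ← MonoidHom.range_eq_map, Subgroup.range_subtype]
    exact hx
  have := (hG.to_subgroup H).isNilpotent
  obtain ⟨n, hn⟩ := (Subgroup.nilpotent_iff_lowerCentralSeries (G := H)).1 this
  have h1 : ⁅H, H⁆ = (⁅(⊤ : Subgroup H), (⊤ : Subgroup H)⁆).map H.subtype := by
    rw [Subgroup.map_commutator, ← MonoidHom.range_eq_map, Subgroup.range_subtype]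
  rw [h1] at hc
  obtain ⟨c, hc, rfl⟩ := hc
  obtain ⟨y, rfl⟩ := serre_top x' hx' n hn c hc
  refine ⟨fun i => y i, fun i => (y i).2, ?_⟩
  rw [map_list_prod, List.map_map]
  rfl

end Pool.Agent.Lib.MP_2551c4_al
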