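import Mathlib
import Pool.Agent.Lib.MP_2551c4_al.Compact
import Pool.Agent.Lib.MP_2551c4_al.Serre

/-! Uniform unipotence for `p`-groups of matrices over `ZMod (p ^ m)` satisfying a law. -/

namespace Pool.Agent.Lib.MP_2551c4_al

open scoped commutatorElement

/-- products of `c` factors from the derived group of the `e`-th Frattini term vanish -/
def FreeNil {ι : Type} (w : FreeGroup ι) (p r d e c : ℕ) : Prop :=
  ∀ (G : Type) [Group G] [Finite G], IsPGroup p G → RankLe G r →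
    ∀ (m : ℕ) (ρ : G →* Matrix (Fin d) (Fin d) (ZMod (p ^ m))),
      (∀ g : ι → G, ρ (FreeGroup.lift g w) = 1) →
      (∀ l : List G, r ≤ l.length → ∃ Y, mprod ρ l = (p : ZMod (p ^ m)) • Y) →
      ∀ l : List G, c ≤ l.length → (∀ x ∈ l, x ∈ ⁅phiIt p (⊤ : Subgroup G) e, phiIt p ⊤ e⁆) →
        mprod ρ l = 0

theorem FreeNil.mono {ι : Type} {w : FreeGroup ι} {p r d e c e' c' : ℕ} (h : FreeNil w p r d e c)
    (he : e ≤ e') (hc : c ≤ c') : FreeNil w p r d e' c' := by
  intro G _ _ hG hr m ρ h1 h2 l hl hl'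
  exact h G hG hr m ρ h1 h2 l (hc.trans hl) fun x hx =>
    Subgroup.commutator_mono (phiIt_anti p ⊤ he) (phiIt_anti p ⊤ he) (hl' x hx)

theorem zmod_val {p m : ℕ} (hp : p.Prime) (x : ZMod (p ^ m)) (hx : x ≠ 0) :
    ∃ a : ℕ, ∃ u : (ZMod (p ^ m))ˣ, x = u * (p : ZMod (p ^ m)) ^ a := by
  have : NeZero (p ^ m) := ⟨pow_ne_zero _ hp.ne_zero⟩
  obtain ⟨a, u, hu, h⟩ := Nat.exists_eq_pow_mul_and_not_dvd
    (show x.val ≠ 0 by simpa using hx) p hp.ne_one
  refine ⟨a, ZMod.unitOfCoprime u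
    (Nat.Coprime.pow_right m ((Nat.Prime.coprime_iff_not_dvd hp).2 hu).symm), ?_⟩
  rw [← ZMod.natCast_zmod_val x, h]
  simp [mul_comm]

theorem zmod_unit {p m : ℕ} (x : ZMod (p ^ m)) : IsUnit (1 - (p : ZMod (p ^ m)) * x) := by
  apply IsNilpotent.isUnit_one_sub
  refine ⟨m, ?_⟩
  rw [mul_pow, ← Nat.cast_pow, ZMod.natCast_self, zero_mul]

theorem charZero_of_primes {K : Type*} [Field K] (h : ∀ l : ℕ, l.Prime → (l : K) ≠ 0) :
    CharZero K := by
  obtain ⟨q, hq⟩ := CharP.exists K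
  rcases CharP.char_is_prime_or_zero K q with h1 | rfl
  · exact (h q h1 (CharP.cast_eq_zero K q)).elim
  · exact CharP.charP_to_charZero K

theorem exists_root_pi {I : Type*} {G : I → Type*} [∀ n, Group (G n)] (x : ∀ n, G n) {b : ℕ}
    (h : ∀ n, b.Coprime (orderOf (x n))) : ∃ y : ∀ n, G n, y ^ b = x := by
  choose m hm using fun n => exists_pow_eq_self_of_coprime (h n)
  refine ⟨fun n => x n ^ m n, funext fun n => ?_⟩
  rw [Pi.pow_apply, ← pow_mul, mul_comm, pow_mul, hm]

theorem comm_form {G : Type} [Group G] [Finite G] {p r : ℕ} [Fact p.Prime] (hG : IsPGroup p G)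
    (hr : RankLe G r) (V : Subgroup G) : ∀ c ∈ ⁅V, V⁆, ∃ y z : Fin r → G, (∀ i, y i ∈ V) ∧
      (∀ i, z i ∈ V) ∧ c = ((List.finRange r).map fun i => ⁅y i, z i⁆).prod := by
  intro c hc
  obtain ⟨z, hz, hz'⟩ := hr.fin_gen V
  obtain ⟨y, hy, hy'⟩ := serre hG z hz' c hc
  exact ⟨y, z, hy, hz, hy'⟩

theorem pi_phiIt_le {G : ℕ → Type} [∀ n, Group (G n)] [∀ n, Finite (G n)] {p r : ℕ}
    [Fact p.Prime] (hG : ∀ n, IsPGroup p (G n)) (hr : ∀ n, RankLe (G n) r) (a : ℕ) :
    ∀ x : ∀ n, G n, (∀ n, x n ∈ phiIt p ⊤ a) → x ∈ phiIt p ⊤ a := by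
  induction a with
  | zero => intro x _; trivial
  | succ a ih =>
    intro x hx
    choose y hy c hc hyc using fun n => mem_phi (hx n)
    choose s t hs ht hst using fun n => comm_form (hG n) (hr n) _ _ (hc n)
    have h1 : x = y ^ p * ((List.finRange r).map fun i =>
        ⁅(fun n => s n i : ∀ n, G n), (fun n => t n i : ∀ n, G n)⁆).prod := by
      ext n
      rw [Pi.mul_apply, Pi.list_prod_apply, List.map_map, hyc, hst]
      rfl
    rw [h1]
    refine mul_mem (pow_mem_phi p (ih y hy)) (Subgroup.mem_sup_left ?_)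
    apply Subgroup.list_prod_mem
    intro g hg
    obtain ⟨i, -, rfl⟩ := List.mem_map.1 hg
    exact Subgroup.commutator_mem_commutator (ih _ fun n => hs n i) (ih _ fun n => ht n i)

theorem fin_fixed {G : ℕ → Type} [∀ n, Group (G n)] [∀ n, Finite (G n)] {p r : ℕ}
    [hp : Fact p.Prime] (hG : ∀ n, IsPGroup p (G n)) (hr : ∀ n, RankLe (G n) r)
    (H : Subgroup (∀ n, G n)) [H.FiniteIndex] :
    ∃ a, ∀ x : ∀ n, G n, (∀ n, x n ∈ phiIt p ⊤ a) → x ∈ H := by
  obtain ⟨a, b, hb, hab⟩ := Nat.exists_eq_pow_mul_and_not_dvd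
    (Subgroup.FiniteIndex.index_ne_zero (H := H.normalCore)) p hp.out.ne_one
  have hQ : IsPGroup p ((∀ n, G n) ⧸ H.normalCore) := by
    intro q
    obtain ⟨x, rfl⟩ := QuotientGroup.mk_surjective q
    obtain ⟨y, rfl⟩ := exists_root_pi x (b := b) fun n => by
      obtain ⟨k, hk⟩ := IsPGroup.iff_orderOf.1 (hG n) (x n)
      rw [hk]
      exact Nat.Coprime.pow_right k ((Nat.Prime.coprime_iff_not_dvd hp.out).2 hb).symm
    refine ⟨a, ?_⟩
    rw [← QuotientGroup.mk_pow, QuotientGroup.eq_one_iff, ← pow_mul, mul_comm, ← hab]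
    exact Subgroup.pow_index_mem _ y
  obtain ⟨k, hk⟩ := IsPGroup.iff_card.1 hQ
  refine ⟨k, fun x hx => H.normalCore_le ?_⟩
  have h1 := Subgroup.mem_map_of_mem (QuotientGroup.mk' H.normalCore) (pi_phiIt_le hG hr k x hx)
  rw [map_phiIt, phiIt_eq_bot hQ _ (m := k)
    (by rw [← hk]; exact Subgroup.card_le_card_group _), Subgroup.mem_bot] at h1
  exact (QuotientGroup.eq_one_iff x).1 h1

theorem congr_sq {G : Type} [Group G] [Finite G] {p d m : ℕ} [hp : Fact p.Prime]
    (hG : IsPGroup p G) (ρ : G →* Matrix (Fin d) (Fin d) (ZMod (p ^ m))) {x : G}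
    (hx : x ∈ phiIt p (⊤ : Subgroup G) (2 * d * d)) :
    ∃ Y, ρ x - 1 = ((p : ZMod (p ^ m)) ^ 2) • Y := by
  have : NeZero (p ^ m) := ⟨pow_ne_zero _ hp.out.ne_zero⟩
  have : NeZero (p ^ min m 2) := ⟨pow_ne_zero _ hp.out.ne_zero⟩
  let f := ZMod.castHom (pow_dvd_pow p (min_le_left m 2)) (ZMod (p ^ min m 2))
  have h1 := phiIt_le_ker hG (f.mapMatrix.toMonoidHom.comp ρ) (m := 2 * d * d) (by
    change Nat.card (Fin d → Fin d → ZMod (p ^ min m 2)) ≤ _
    rw [Nat.card_fun, Nat.card_fun, Nat.card_zmod, Nat.card_eq_fintype_card, Fintype.card_fin,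
      ← pow_mul, ← pow_mul, ← mul_assoc]
    exact Nat.pow_le_pow_right hp.out.pos (by gcongr; exact min_le_right _ _)) x hx
  have h2 : f.mapMatrix (ρ x - 1) = 0 := by
    rw [map_sub, map_one, sub_eq_zero]; exact h1
  have : ∀ i j, ∃ y, (ρ x - 1) i j = (p : ZMod (p ^ m)) ^ 2 * y := by
    intro i j
    have h3 : f ((ρ x - 1) i j) = 0 := congrFun (congrFun h2 i) j
    generalize (ρ x - 1) i j = z at h3
    rw [← ZMod.natCast_zmod_val z, map_natCast, ZMod.natCast_eq_zero_iff] at h3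
    obtain ⟨y, hy⟩ := h3
    rw [← ZMod.natCast_zmod_val z, hy]
    rcases le_total m 2 with h | h
    · rw [min_eq_left h]
      exact ⟨0, by rw [Nat.cast_mul, ZMod.natCast_self]; simp⟩
    · rw [min_eq_right h]
      exact ⟨y, by simp⟩
  choose Y hY using this
  exact ⟨Matrix.of Y, Matrix.ext hY⟩

theorem freeNil_fixed {ι : Type} [Finite ι] (w : FreeGroup ι) (hw : w ≠ 1) {p : ℕ}
    (hp : p.Prime) (r d : ℕ) : ∃ e c, FreeNil w p r d e c := by
  have := Fact.mk hp
  by_contra hcon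
  push Not at hcon
  have h1 := fun n => hcon (n + 2 * d * d) ((n + r + 1) * (n + r + 1))
  unfold FreeNil at h1
  push Not at h1
  choose G inst1 inst2 hG hr m ρ hlaw hU hcex using h1
  refine compact_core ρ (fun n => (p : ZMod (p ^ m n))) (fun n => phiIt p ⊤ (n + 2 * d * d)) r w
    hw (fun n => zmod_val hp) (fun n => zmod_unit) hlaw hU hcex ?_
    (fun n => comm_form (hG n) (hr n) _) ?_
  · intro H hH
    obtain ⟨a, ha⟩ := fin_fixed hG hr H
    refine ⟨a, fun x hx hx' => ha x fun n => ?_⟩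
    by_cases hn : n < a
    · rw [hx' n hn]; exact one_mem _
    · exact phiIt_anti p ⊤ (by omega) (hx n)
  · intro K _ _ hπ _
    have hu : ∀ x : ∀ n, ZMod (p ^ m n), IsUnit (1 - p * x) := fun x =>
      Pi.isUnit_iff.2 fun n => zmod_unit (x n)
    refine ⟨charZero_of_primes fun l hl h0 => ?_, fun hK γ hγ α β hα hβ N hN h => ?_⟩
    · by_cases hlp : l = p
      · subst hlp
        apply hπ
        rw [← h0, ← map_natCast (algebraMap (∀ n, ZMod (l ^ m n)) K)]
        rfl
      · have hco : IsCoprime (l : ℤ) (p : ℤ) :=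
          Nat.isCoprime_iff_coprime.2 ((Nat.coprime_primes hl hp).2 hlp)
        obtain ⟨u, v, huv⟩ := hco
        have h1 : (u : K) * l + v * p = 1 := by exact_mod_cast congrArg (Int.cast : ℤ → K) huv
        apply ((hu v).map (algebraMap _ K)).ne_zero
        rw [h0] at h1
        simp only [map_sub, map_one, map_mul, map_natCast, map_intCast]
        linear_combination -h1
    · choose Y hY using fun n => congr_sq (hG n) (ρ n) (phiIt_anti p ⊤ (by omega) (hγ n))
      refine eig_fixed hp hu (Y := Matrix.of fun i j n => Y n i j) ?_ hα hβ hN h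
      ext i j n
      have := congrFun (congrFun (hY n) i) j
      by_cases hij : i = j
      · subst hij
        simpa [piRep_apply] using this
      · simpa [piRep_apply, Matrix.one_apply_ne hij] using this

theorem freeNil_large {ι : Type} [Finite ι] (w : FreeGroup ι) (hw : w ≠ 1) (r d : ℕ) :
    ∃ p0 c, ∀ p, p.Prime → p0 ≤ p → FreeNil w p r d 0 c := by
  by_contra hcon
  push Not at hcon
  have h1 := fun n => hcon (n + 1) ((n + r + 1) * (n + r + 1))
  unfold FreeNil at h1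
  push Not at h1
  choose p hp hpn G inst1 inst2 hG hr m ρ hlaw hU hcex using h1
  refine compact_core ρ (fun n => (p n : ZMod (p n ^ m n))) (fun n => ⊤) r w
    hw (fun n => zmod_val (hp n)) (fun n => zmod_unit) hlaw hU hcex ?_
    (fun n => have := Fact.mk (hp n); comm_form (hG n) (hr n) _) ?_
  · intro H hH
    refine ⟨H.normalCore.index, fun x _ hx' => H.normalCore_le ?_⟩
    obtain ⟨y, rfl⟩ := exists_root_pi x (b := H.normalCore.index) fun n => by
      by_cases hn : n < H.normalCore.index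
      · rw [hx' n hn]; simp
      · have := Fact.mk (hp n)
        obtain ⟨k, hk⟩ := IsPGroup.iff_orderOf.1 (hG n) (x n)
        rw [hk]
        exact Nat.Coprime.pow_right k (Nat.coprime_of_lt_prime
          Subgroup.FiniteIndex.index_ne_zero (by have := hpn n; omega) (hp n)).symm
    exact Subgroup.pow_index_mem _ y
  · intro K _ _ hπ hε
    have hu : ∀ x : ∀ n, ZMod (p n ^ m n), IsUnit (1 - (fun n => (p n : ZMod (p n ^ m n))) * x) :=
      fun x => Pi.isUnit_iff.2 fun n => zmod_unit (x n)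
    have hl : ∀ l : ℕ, l.Prime → ∃ x : ∀ n, ZMod (p n ^ m n), algebraMap _ K (l * x) = 1 := by
      intro l hl
      refine ⟨fun n => (l : ZMod (p n ^ m n))⁻¹, ?_⟩
      rw [← map_one (algebraMap (∀ n, ZMod (p n ^ m n)) K)]
      refine hε _ _ ⟨l, fun n hn => ?_⟩
      exact ZMod.coe_mul_inv_eq_one l (Nat.Coprime.pow_right _ (Nat.coprime_of_lt_prime
        hl.ne_zero (by have := hpn n; omega) (hp n)).symm)
    refine ⟨charZero_of_primes fun l hl' h0 => ?_, fun hK γ hγ α β hα hβ N hN h => ?_⟩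
    · obtain ⟨x, hx⟩ := hl l hl'
      rw [map_mul, map_natCast, h0, zero_mul] at hx
      exact zero_ne_one hx
    · choose Y hY using fun n => hU n (List.replicate (r + 1) (γ n)) (by simp)
      refine eig_large hu hπ hl (Nat.succ_pos r) (Y := Matrix.of fun i j n => Y n i j) ?_
        hα hβ hN h
      ext i j n
      have h1 := mprod_map (piRep ρ) (ρ n) (Pi.evalRingHom _ n).mapMatrix (fun g => g n)
        (fun _ => rfl) (List.replicate (r + 1) γ)
      rw [List.map_replicate, hY, mprod_replicate] at h1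
      exact congrFun (congrFun h1 i) j

end Pool.Agent.Lib.MP_2551c4_al
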