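import Mathlib
import Pool.Agent.Lib.MP_2551c4_al.MatrixNil

/-! From homocyclic modules to all modules with boundedly many generators. -/

namespace Pool.Agent.Lib.MP_2551c4_al

theorem exists_matrix_hom {M : Type*} [AddCommGroup M] {d q : ℕ} (a : Fin d → M)
    (ha : ∀ m, ∃ v : Fin d → ℤ, ∑ i, v i • a i = m)
    (hq : ∀ v : Fin d → ℤ, ∑ i, v i • a i = 0 → ∀ i, (q : ℤ) ∣ v i) :
    ∃ μ : Module.End ℤ M →+* Matrix (Fin d) (Fin d) (ZMod q),
      (∀ T, μ T = 0 → ∀ m, ∃ m', T m = (q : ℤ) • m') ∧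
      (∀ (T : Module.End ℤ M) (k : ℕ), (∀ m, ∃ m', T m = (k : ℤ) • m') →
        ∃ Y, μ T = (k : ZMod q) • Y) := by
  let f := Fintype.linearCombination ℤ a
  have hf : Function.Surjective f := ha
  let red : (Fin d → ℤ) →ₗ[ℤ] (Fin d → ZMod q) :=
    (Int.castAddHom (ZMod q)).toIntLinearMap.compLeft (Fin d)
  have hred : ∀ v i, red v i = (v i : ZMod q) := fun v i => rfl
  have hker : LinearMap.ker f ≤ LinearMap.ker red := by
    intro v hv
    ext i
    exact (ZMod.intCast_zmod_eq_zero_iff_dvd _ _).2 (hq v hv i)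
  let φ : M →ₗ[ℤ] (Fin d → ZMod q) :=
    ((LinearMap.ker f).liftQ red hker).comp (f.quotKerEquivOfSurjective hf).symm.toLinearMap
  have hφ : ∀ v, φ (f v) = red v := by
    intro v
    have : (f.quotKerEquivOfSurjective hf).symm (f v) = Submodule.Quotient.mk v := by
      rw [LinearEquiv.symm_apply_eq]; rfl
    simp only [φ, LinearMap.comp_apply, LinearEquiv.coe_coe, this, Submodule.liftQ_apply]
  have hφs : Function.Surjective φ := by
    intro z
    choose v hv using fun i => ZMod.intCast_surjective (z i)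
    exact ⟨f v, by rw [hφ]; exact funext hv⟩
  let μ0 : Module.End ℤ M → Matrix (Fin d) (Fin d) (ZMod q) := fun T =>
    Matrix.of fun i j => φ (T (a j)) i
  have hμ : ∀ T m, (μ0 T).mulVec (φ m) = φ (T m) := by
    intro T m
    obtain ⟨v, rfl⟩ := hf m
    rw [hφ]
    ext i
    simp only [f, Fintype.linearCombination_apply, map_sum, map_zsmul, Finset.sum_apply,
      Matrix.mulVec, dotProduct, μ0, Matrix.of_apply, hred, zsmul_eq_mul]
    exact Finset.sum_congr rfl fun j _ => mul_comm _ _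
  have hext : ∀ A B : Matrix (Fin d) (Fin d) (ZMod q),
      (∀ m, A.mulVec (φ m) = B.mulVec (φ m)) → A = B := by
    intro A B h
    apply Matrix.toLin'.injective
    refine LinearMap.ext fun z => ?_
    obtain ⟨m, rfl⟩ := hφs z
    exact h m
  refine ⟨⟨⟨⟨μ0, hext _ _ fun m => ?_⟩, fun T T' => hext _ _ fun m => ?_⟩,
    hext _ _ fun m => ?_, fun T T' => hext _ _ fun m => ?_⟩, ?_, ?_⟩
  · rw [hμ]; simp
  · rw [← Matrix.mulVec_mulVec, hμ, hμ, hμ]; rfl
  · simp only; rw [hμ]; simp
  · simp only; rw [Matrix.add_mulVec, hμ, hμ, hμ]; simp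
  · intro T hT m
    have h0 : μ0 T = 0 := hT
    have h1 := hμ T m
    obtain ⟨v, hv⟩ := hf (T m)
    rw [h0, Matrix.zero_mulVec, ← hv, hφ] at h1
    choose v' hv' using fun i => (ZMod.intCast_zmod_eq_zero_iff_dvd (v i) q).1 (congrFun h1 i).symm
    refine ⟨f v', ?_⟩
    rw [← hv, ← map_zsmul]
    congr 1
    exact funext hv'
  · intro T k hT
    choose m' hm' using fun j => hT (a j)
    refine ⟨Matrix.of fun i j => φ (m' j) i, ?_⟩
    ext i j
    change φ (T (a j)) i = _
    rw [hm', map_zsmul]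
    simp

theorem mod_nil {ι : Type} {w : FreeGroup ι} {p r D e c : ℕ} (hp : p.Prime)
    (hF : ∀ d ≤ D, FreeNil w p r d e c) {G : Type} [Group G] [Finite G] (hG : IsPGroup p G)
    (hr : RankLe G r) (L : ℕ) (d : ℕ) : d ≤ D → ∀ (M : Type) [AddCommGroup M]
      (ρ : G →* Module.End ℤ M) (a : Fin d → M), (∀ m, ∃ v : Fin d → ℤ, ∑ i, v i • a i = m) →
      (∀ m : M, (p : ℤ) ^ L • m = 0) → (∀ g : ι → G, ρ (FreeGroup.lift g w) = 1) →
      (∀ l : List G, r ≤ l.length → ∀ m, ∃ m', mprod ρ l m = (p : ℤ) • m') →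
      ∀ l : List G, d * c ≤ l.length →
        (∀ x ∈ l, x ∈ ⁅phiIt p (⊤ : Subgroup G) e, phiIt p ⊤ e⁆) → mprod ρ l = 0 := by
  classical
  induction d with
  | zero =>
    intro _ M _ ρ a ha _ _ _ l _ _
    ext m
    obtain ⟨v, rfl⟩ := ha m
    simp
  | succ d ih =>
    intro hd M _ ρ a ha hL hlaw hU l hl hlV
    have hp1 : (1 : ℤ) < p := by exact_mod_cast hp.one_lt
    have hP : ∃ k : ℕ, ∃ v : Fin (d + 1) → ℤ, ∑ i, v i • a i = 0 ∧ ∃ i, ¬ (p : ℤ) ^ (k + 1) ∣ v i := by
      refine ⟨L, Pi.single 0 (p ^ L), by simp [Pi.single_apply, hL], 0, fun h => ?_⟩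
      simp only [Pi.single_eq_same] at h
      have := Int.le_of_dvd (by positivity) h
      exact absurd (pow_lt_pow_right₀ hp1 (Nat.lt_succ_self L)) (not_lt.2 this)
    have hmin : ∀ v : Fin (d + 1) → ℤ, ∑ i, v i • a i = 0 → ∀ i,
        ((p ^ Nat.find hP : ℕ) : ℤ) ∣ v i := by
      intro v hv i
      rcases Nat.eq_zero_or_pos (Nat.find hP) with h0 | h0
      · simp [h0]
      · by_contra hc
        refine Nat.find_min hP (m := Nat.find hP - 1) (by omega) ⟨v, hv, i, ?_⟩
        rw [Nat.sub_add_cancel h0]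
        exact_mod_cast hc
    obtain ⟨x, hx, i0, hi0⟩ := Nat.find_spec hP
    generalize Nat.find hP = k at hmin hi0
    obtain ⟨μ, hμ, hμ'⟩ := exists_matrix_hom a ha hmin
    choose x' hx' using hmin x hx
    let M' : Submodule ℤ M := LinearMap.range (((p ^ k : ℕ) : ℤ) • LinearMap.id)
    have hM' : ∀ m, m ∈ M' ↔ ∃ m', ((p ^ k : ℕ) : ℤ) • m' = m := fun m => Iff.rfl
    have hinv : ∀ g, ∀ m ∈ M', ρ g m ∈ M' := by
      rintro g _ ⟨m, rfl⟩
      exact ⟨ρ g m, (map_zsmul (ρ g) _ m).symm⟩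
    let ρ' : G →* Module.End ℤ M' :=
      { toFun := fun g => (ρ g).restrict (hinv g)
        map_one' := by ext m; simp
        map_mul' := fun g g' => by ext m; simp }
    have hρ' : ∀ (l : List G) (m : M'), (mprod ρ' l m : M) = mprod ρ l m := by
      intro l
      induction l with
      | nil => intro m; rfl
      | cons g l ih =>
        intro m
        rw [mprod_cons, mprod_cons, Module.End.mul_apply, Module.End.mul_apply, ← ih]
        rfl
    have h1 : mprod ρ' (l.take (d * c)) = 0 := by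
      refine ih (by omega) M' ρ'
        (fun j => ⟨((p ^ k : ℕ) : ℤ) • a (i0.succAbove j), (hM' _).2 ⟨_, rfl⟩⟩) ?_ ?_ ?_ ?_ _ ?_ ?_
      · rintro ⟨_, m, rfl⟩
        obtain ⟨y, rfl⟩ := ha m
        have hco : IsCoprime (x' i0) ((p : ℤ) ^ L) := by
          refine IsCoprime.pow_right ?_
          rw [isCoprime_comm, (Nat.prime_iff_prime_int.1 hp).irreducible.coprime_iff_not_dvd]
          rintro ⟨t, ht⟩
          exact hi0 ⟨t, by rw [hx', ht]; push_cast; ring⟩
        obtain ⟨s, t, hst⟩ := hco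
        refine ⟨fun j => y (i0.succAbove j) - y i0 * s * x' (i0.succAbove j), Subtype.ext ?_⟩
        have e1 : ((p ^ k : ℕ) : ℤ) • ∑ i, x' i • a i = 0 := by
          rw [← hx, Finset.smul_sum]
          exact Finset.sum_congr rfl fun i _ => by rw [hx', mul_smul]
        have e2 : y i0 • a i0 = (y i0 * s) • x' i0 • a i0 := by
          have : y i0 = y i0 * s * x' i0 + y i0 * t * (p : ℤ) ^ L := by
            linear_combination (-y i0) * hst
          conv_lhs => rw [this]
          rw [add_smul, mul_smul _ ((p : ℤ) ^ L), hL, smul_zero, add_zero, mul_smul]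
        rw [Fin.sum_univ_succAbove _ i0, smul_add] at e1
        simp only [AddSubmonoidClass.coe_finsetSum, SetLike.val_smul, LinearMap.smul_apply,
          LinearMap.id_apply]
        rw [Fin.sum_univ_succAbove _ i0, e2, smul_add, smul_comm _ (y i0 * s),
          eq_neg_of_add_eq_zero_left e1]
        simp only [Finset.smul_sum, smul_neg, ← Finset.sum_neg_distrib, ← Finset.sum_add_distrib]
        refine Finset.sum_congr rfl fun j _ => ?_
        simp only [smul_smul, ← neg_smul, ← add_smul]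
        congr 1
        ring
      · intro m
        exact Subtype.ext (hL m)
      · intro g
        ext m
        change ρ _ m = m
        rw [hlaw]; rfl
      · rintro l hl ⟨_, m, rfl⟩
        obtain ⟨m', hm'⟩ := hU l hl m
        refine ⟨⟨((p ^ k : ℕ) : ℤ) • m', (hM' _).2 ⟨_, rfl⟩⟩, Subtype.ext ?_⟩
        rw [hρ']
        simp only [LinearMap.smul_apply, LinearMap.id_apply, map_zsmul, hm', SetLike.val_smul]
        rw [smul_comm]
      · rw [List.length_take]
        exact le_min le_rfl (by nlinarith)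
      · exact fun x hx => hlV x (List.mem_of_mem_take hx)
    have hμρ : ∀ l, μ (mprod ρ l) = mprod (μ.toMonoidHom.comp ρ) l := fun l => by
      simpa using mprod_map ρ (μ.toMonoidHom.comp ρ) μ id (fun _ => rfl) l
    have h2 := hF (d + 1) hd G hG hr k (μ.toMonoidHom.comp ρ)
      (fun g => by change μ (ρ _) = 1; rw [hlaw, map_one])
      (fun l hl => by rw [← hμρ]; exact hμ' _ p (hU l hl)) (l.drop (d * c))
      (by rw [List.length_drop, add_mul] at *; omega)
      fun x hx => hlV x (List.mem_of_mem_drop hx)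
    rw [← hμρ] at h2
    ext m
    obtain ⟨m', hm'⟩ := hμ _ h2 m
    rw [← List.take_append_drop (d * c) l, mprod_append, Module.End.mul_apply, hm']
    have := hρ' (l.take (d * c)) ⟨_, (hM' _).2 ⟨m', rfl⟩⟩
    rw [h1] at this
    exact this.symm

end Pool.Agent.Lib.MP_2551c4_al
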