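import Mathlib
import Pool.Agent.Lib.MP_2551c4_al.ModNil
import Pool.Agent.Lib.MP_2551c4_al.Sec

/-! Structure of `p`-groups of bounded rank with abelian verbal subgroup. -/

namespace Pool.Agent.Lib.MP_2551c4_al

open scoped commutatorElement

universe u

theorem IsSec.mprod_mem {G : Type u} [Group G] {X Y : Subgroup G} [hX : X.Normal] {S : Type*}
    [AddCommGroup S] {φ : G → S} (h : IsSec X Y φ) {ρ : G →* Module.End ℤ S}
    (hρ : ∀ g, ∀ x ∈ X, ρ g (φ x) = φ (g * x * g⁻¹)) (l : List G) {x : G} (hx : x ∈ X) :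
    ∃ y ∈ itc ⊤ X l.length, mprod ρ l (φ x) = φ y := by
  induction l with
  | nil => exact ⟨x, hx, rfl⟩
  | cons g l ih =>
    obtain ⟨y, hy, hy'⟩ := ih
    have hyX : y ∈ X := itc_le _ _ _ hy
    refine ⟨⁅g, y⁆, ?_, ?_⟩
    · rw [List.length_cons, itc_succ, Subgroup.commutator_comm]
      exact Subgroup.commutator_mem_commutator trivial hy
    · rw [mprod_cons, Module.End.mul_apply, hy', LinearMap.sub_apply, hρ _ _ hyX,
        commutatorElement_def, h.add _ (hX.conj_mem _ hyX g) _ (inv_mem hyX), h.inv hyX,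
        sub_eq_add_neg]
      rfl

theorem IsSec.unip {G : Type u} [Group G] [Finite G] {p r : ℕ} [hp : Fact p.Prime]
    (hG : IsPGroup p G) (hr : RankLe G r) {X Y : Subgroup G} [hX : X.Normal]
    {S : Type*} [AddCommGroup S] {φ : G → S} (h : IsSec X Y φ) {ρ : G →* Module.End ℤ S}
    (hρ : ∀ g, ∀ x ∈ X, ρ g (φ x) = φ (g * x * g⁻¹)) (l : List G) (hl : r ≤ l.length) (m : S) :
    ∃ m', mprod ρ l m = (p : ℤ) • m' := by
  obtain ⟨x, hx, rfl⟩ := h.surj m
  obtain ⟨y, hy, hy'⟩ := h.mprod_mem hρ l hx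
  have h1 : itc ⊤ X r ≤ phi p X := itc_le_of_card hG _ r X (phi_le p X)
    (hr.card_le (phi_le p X) le_sup_left hp.out.pos fun x hx => pow_mem_phi p hx)
  obtain ⟨z, hz, c, hc, rfl⟩ := mem_phi (h1 (itc_anti _ _ hl hy))
  refine ⟨φ z, ?_⟩
  have hc' : ⁅X, X⁆ ≤ Y := by
    rw [Subgroup.commutator_le]
    intro a ha b hb
    rw [← h.ker _ (Subgroup.commutator_le_self X (Subgroup.commutator_mem_commutator ha hb)),
      commutatorElement_def, h.add _ (mul_mem (mul_mem ha hb) (inv_mem ha)) _ (inv_mem hb),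
      h.add _ (mul_mem ha hb) _ (inv_mem ha), h.add _ ha _ hb, h.inv ha, h.inv hb]
    abel
  rw [hy', h.add _ (pow_mem hz p) _ (h.le (hc' hc)), h.of_mem (hc' hc), h.pow hz, add_zero,
    natCast_zsmul]

/-- the structure statement -/
def Struct {ι : Type} (w : FreeGroup ι) (p r e c : ℕ) : Prop :=
  ∀ (G : Type) [Group G] [Finite G], IsPGroup p G → RankLe G r → ⁅vs w G, vs w G⁆ = ⊥ →
    ∃ N : Subgroup G, N.Normal ∧ vs w G ≤ N ∧ ⁅phiIt p (⊤ : Subgroup G) e, phiIt p ⊤ e⁆ ≤ N ∧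
      N.lowerCentralSeries c = ⊥

theorem struct_of_freeNil {ι : Type} {w : FreeGroup ι} {p r e c : ℕ} (hp : p.Prime)
    (hF : ∀ d ≤ r, FreeNil w p r d e c) : Struct w p r e (r * c + r * c) := by
  intro G _ _ hG hr hW
  have := Fact.mk hp
  obtain ⟨A, hAn, hWA, hA, hCA⟩ := exists_selfCentralizing hG (vs w G) hW
  obtain ⟨S, _, φ, h⟩ := exists_sec A ⊥ bot_le hA.le
  obtain ⟨ρ, hρ⟩ := h.exists_act
  obtain ⟨a, ha, ha'⟩ := hr.fin_gen A
  obtain ⟨L, hL⟩ := IsPGroup.iff_card.1 hG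
  have hρA : ∀ x ∈ A, ρ x = 1 := by
    intro x hx
    ext m
    obtain ⟨y, hy, rfl⟩ := h.surj m
    rw [hρ _ _ hy]
    have : ⁅x, y⁆ = 1 := by
      rw [← Subgroup.mem_bot, ← hA]; exact Subgroup.commutator_mem_commutator hx hy
    rw [commutatorElement_def, mul_inv_eq_one] at this
    rw [this]; rfl
  have key := mod_nil hp hF hG hr L r le_rfl S ρ (fun i => φ (a i)) (h.exists_coord a ha ha'.ge)
    (by
      intro m
      obtain ⟨y, hy, rfl⟩ := h.surj m
      rw [← Nat.cast_pow, natCast_zsmul, ← h.pow hy, ← hL, pow_card_eq_one', h.one])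
    (fun g => hρA _ (hWA (lift_mem_vs w g))) (h.unip hG hr hρ)
  set V' : Subgroup G := ⁅phiIt p (⊤ : Subgroup G) e, phiIt p (⊤ : Subgroup G) e⁆
  have h1 : ∀ j, ∀ y ∈ itc (V' ⊔ A) A j, ∀ l : List G, r * c ≤ l.length + j →
      (∀ x ∈ l, x ∈ V') → mprod ρ l (φ y) = 0 := by
    intro j
    induction j with
    | zero => intro y _ l hl hl'; rw [key l hl hl']; rfl
    | succ j ih =>
      intro y hy l hl hl'
      let K : Subgroup G :=
        { carrier := {y | y ∈ A ∧ mprod ρ l (φ y) = 0}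
          one_mem' := ⟨one_mem _, by rw [h.one, map_zero]⟩
          mul_mem' := fun ha hb => ⟨mul_mem ha.1 hb.1, by
            rw [h.add _ ha.1 _ hb.1, map_add, ha.2, hb.2, add_zero]⟩
          inv_mem' := fun ha => ⟨inv_mem ha.1, by rw [h.inv ha.1, map_neg, ha.2, neg_zero]⟩ }
      have : itc (V' ⊔ A) A (j + 1) ≤ K := by
        rw [itc_succ, Subgroup.commutator_le]
        intro z hz n hn
        have hzA : z ∈ A := itc_le _ _ _ hz
        obtain ⟨v, hv, b, hb, rfl⟩ := Subgroup.mem_sup_of_normal_right.1 hn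
        have e1 : ⁅z, v * b⁆ = z * ((v * b) * z * (v * b)⁻¹)⁻¹ := by
          simp only [commutatorElement_def]; group
        have e2 := hAn.conj_mem _ hzA (v * b)
        refine ⟨e1 ▸ mul_mem hzA (inv_mem e2), ?_⟩
        have e3 := ih z hz (l ++ [v]) (by simp; omega) (by
          intro x hx
          rcases List.mem_append.1 hx with hx | hx
          · exact hl' x hx
          · rw [List.mem_singleton.1 hx]; exact hv)
        rw [mprod_append, mprod_cons, mprod_nil, mul_one, Module.End.mul_apply,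
          LinearMap.sub_apply] at e3
        rw [e1, h.add _ hzA _ (inv_mem e2), h.inv e2, ← hρ _ _ hzA, map_mul, hρA b hb, mul_one,
          ← neg_eq_zero, ← map_neg, ← e3]
        congr 1
        simp [sub_eq_add_neg]
      exact (this hy).2
  have h2 : itc (V' ⊔ A) A (r * c) = ⊥ := by
    rw [eq_bot_iff]
    intro y hy
    exact (h.ker y (itc_le _ _ _ hy)).1 (h1 _ y hy [] (by simp) (by simp))
  refine ⟨V' ⊔ A, inferInstance, hWA.trans le_sup_right, le_sup_left, ?_⟩
  have h3 : (V' ⊔ A).lowerCentralSeries (r * c) ≤ A := by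
    refine le_trans ?_ hCA
    rw [← Subgroup.commutator_eq_bot_iff_le_centralizer, Subgroup.commutator_comm, eq_bot_iff, ← h2]
    exact (commutator_lcs_le _ _ A).trans (itc_anti _ _ (Nat.le_succ _))
  rw [eq_bot_iff, ← h2, ← itc_eq_lcs, itc_add, itc_eq_lcs]
  exact itc_mono le_rfl h3 _

theorem struct_fixed {ι : Type} [Finite ι] (w : FreeGroup ι) (hw : w ≠ 1) {p : ℕ}
    (hp : p.Prime) (r : ℕ) : ∃ e c, Struct w p r e c := by
  choose e c h using fun d => freeNil_fixed w hw hp r d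
  exact ⟨(Finset.range (r + 1)).sup e, _, struct_of_freeNil (c := (Finset.range (r + 1)).sup c) hp
    fun d hd => (h d).mono (Finset.le_sup (f := e) (by simp; omega))
      (Finset.le_sup (f := c) (by simp; omega))⟩

theorem struct_large {ι : Type} [Finite ι] (w : FreeGroup ι) (hw : w ≠ 1) (r : ℕ) :
    ∃ p0 c, ∀ p, p.Prime → p0 ≤ p → Struct w p r 0 c := by
  choose p0 c h using fun d => freeNil_large w hw r d
  refine ⟨(Finset.range (r + 1)).sup p0, _, fun p hp hp0 =>
    struct_of_freeNil (c := (Finset.range (r + 1)).sup c) hp fun d hd => ?_⟩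
  exact (h d p hp ((Finset.le_sup (f := p0) (by simp; omega)).trans hp0)).mono le_rfl
    (Finset.le_sup (f := c) (by simp; omega))

end Pool.Agent.Lib.MP_2551c4_al
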