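import Mathlib
import Pool.Agent.Lib.MP_2551c4_al.Pc
import Pool.Agent.Lib.MP_2551c4_al.Rec
import Pool.Agent.Lib.MP_2551c4_al.Struct

/-! Products of one-parameter families satisfy linear recurrences of bounded order. -/

namespace Pool.Agent.Lib.MP_2551c4_al

open scoped commutatorElement
open Polynomial

universe u

theorem ctx_pi {I : Type} {N : I → Type u} [∀ i, Group (N i)] {R : Subring (I → ℤ)}
    (M : ∀ i, Subgroup (N i)) [hM : ∀ i, (M i).Normal] {c : ℕ}
    (hc : ∀ i, (M i).lowerCentralSeries c = ⊥) (hR : Bin R c) :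
    Ctx R (Subgroup.pi Set.univ M) c := by
  refine ⟨⟨fun x hx g i hi => (hM i).conj_mem _ (hx i hi) _⟩, ?_, hR,
    fun x hx t _ i hi => (M i).zpow_mem (hx i hi) _⟩
  have : ∀ k, (Subgroup.pi Set.univ M).lowerCentralSeries k ≤
      Subgroup.pi Set.univ fun i => (M i).lowerCentralSeries k := by
    intro k
    induction k with
    | zero => exact le_rfl
    | succ k ih =>
      rw [Subgroup.lowerCentralSeries_succ, Subgroup.commutator_le]
      intro x hx y hy i hi
      exact Subgroup.commutator_mem_commutator (ih hx i hi) (hy i hi)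
  rw [eq_bot_iff]
  intro x hx
  exact funext fun i => by simpa [hc] using this c hx i trivial

theorem commutator_sup_left_le {G : Type u} [Group G] (A B M : Subgroup G) [A.Normal] [B.Normal]
    [M.Normal] : ⁅A ⊔ B, M⁆ ≤ ⁅A, M⁆ ⊔ ⁅B, M⁆ := by
  rw [Subgroup.commutator_le]
  intro z hz g hg
  obtain ⟨x, hx, b, hb, rfl⟩ := (Subgroup.mem_sup_of_normal_right).1 hz
  have : ⁅x * b, g⁆ = (x * ⁅b, g⁆ * x⁻¹) * ⁅x, g⁆ := by
    simp only [commutatorElement_def]; group
  rw [this]
  exact mul_mem (Subgroup.mem_sup_right (Subgroup.Normal.conj_mem inferInstance _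
    (Subgroup.commutator_mem_commutator hb hg) x))
    (Subgroup.mem_sup_left (Subgroup.commutator_mem_commutator hx hg))

theorem exists_chain {G : Type u} [Group G] (N W : Subgroup G) [N.Normal] [W.Normal] {c : ℕ}
    (hc : N.lowerCentralSeries c = ⊥) (hW : W ≤ N) : ∃ U : ℕ → Subgroup G, (∀ k, (U k).Normal) ∧
      U 0 = ⊥ ∧ (∀ k, U k ≤ U (k + 1)) ∧ (∀ k, U k ≤ N) ∧ (∀ k, ⁅U (k + 1), N⁆ ≤ U k) ∧
      U c = W ∧ U (c + c) = N := by
  have h1 : itc N N c = ⊥ := by rw [itc_eq_lcs, hc]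
  refine ⟨fun k => itc N N (c + c - k) ⊔ itc N W (c - k), fun k => inferInstance, ?_, ?_, ?_, ?_,
    ?_, ?_⟩
  · rw [eq_bot_iff, ← h1]
    exact sup_le (itc_anti _ _ (by omega)) (itc_mono le_rfl hW _)
  · exact fun k => sup_le_sup (itc_anti _ _ (by omega)) (itc_anti _ _ (by omega))
  · exact fun k => sup_le (itc_le _ _ _) ((itc_le _ _ _).trans hW)
  · intro k
    refine (commutator_sup_left_le _ _ _).trans (sup_le_sup ?_ ?_)
    · rw [← itc_succ]; exact itc_anti _ _ (by omega)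
    · rw [← itc_succ]; exact itc_anti _ _ (by omega)
  · simp [h1]
  · simpa using hW

/-- the ring of recurrent exponent families -/
def recRing (π : ℕ → ℤ) : Subring (ℕ × ℕ → ℤ) where
  carrier := {t | Rec π fun l => fun n => t (l, n)}
  one_mem' := rec_const (1 : ℕ → ℤ)
  zero_mem' := rec_const (0 : ℕ → ℤ)
  mul_mem' := fun h h' => Rec.mul h h'
  add_mem' := fun h h' => Rec.add h h'
  neg_mem' := fun h => Rec.neg h

theorem recRing_sat (π : ℕ → ℤ) (s : ℕ → ℤ) (hs : ∀ n, s n ≠ 0) (t : ℕ × ℕ → ℤ)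
    (h : (s ∘ Prod.snd) * t ∈ recRing π) : t ∈ recRing π :=
  Rec.of_map (LinearMap.mulLeft (ℕ → ℤ) s)
    (fun _ _ h => funext fun n => mul_left_cancel₀ (hs n) (congrFun h n)) h

theorem bin_recRing (π : ℕ → ℤ) (c : ℕ) : Bin (recRing π) c :=
  bin_of_sat fun j _ t h => recRing_sat π (fun _ => j.factorial)
    (fun _ => by exact_mod_cast j.factorial_ne_zero) t h

/-- the shift on families -/
def tsh (G : ℕ → Type) [∀ n, Group (G n)] : (∀ i : ℕ × ℕ, G i.2) →* ∀ i : ℕ × ℕ, G i.2 where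
  toFun x i := x (i.1 + 1, i.2)
  map_one' := rfl
  map_mul' _ _ := rfl

theorem recur_core {G : ℕ → Type} [∀ n, Group (G n)] [∀ n, Finite (G n)] {p : ℕ → ℕ}
    (hp : ∀ n, (p n).Prime) (hG : ∀ n, IsPGroup (p n) (G n)) {r c : ℕ}
    (hr : ∀ n, RankLe (G n) r) (N V W : ∀ n, Subgroup (G n)) [hN : ∀ n, (N n).Normal]
    [∀ n, (W n).Normal] (hc : ∀ n, (N n).lowerCentralSeries c = ⊥) (hW : ∀ n, W n ≤ N n)
    (hV : ∀ n, ⁅V n, V n⁆ ≤ N n) (bs : List (∀ n, G n)) (hbs : ∀ b ∈ bs, ∀ n, b n ∈ V n)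
    (hP : ∀ l : ℕ, ∀ n, (bs.map fun b => b ^ l).prod n ∈ W n)
    {S : ℕ → Type} [∀ n, AddCommGroup (S n)] (φ : ∀ n, G n → S n)
    (hφ : ∀ n, IsSec (W n) ⊥ (φ n)) :
    Rec (fun n => (p n : ℤ)) fun l => fun n => φ n ((bs.map fun b => b ^ l).prod n) := by
  classical
  choose U hUn hU0 hU hUN hUc hUW hUT using fun n => exists_chain (N n) (W n) (hc n) (hW n)
  choose gen hgen hgen' using fun k n => (hr n).fin_gen (U n k)
  set π : ℕ → ℤ := fun n => (p n : ℤ)
  set R := recRing π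
  let gen' : ℕ → Fin r → ∀ n, G n := fun k a n => gen k n a
  have hbl := pc_bl (M := N) gen' (fun k n => U n k) hU0 (fun k n => hU n k) (fun k n => hUN n k)
    (fun k n => hUc n k) hgen'
  let lf' : (∀ n, G n) →* ∀ i : ℕ × ℕ, G i.2 := lf Prod.snd
  let ys := bl gen' (c + c)
  let D : Set (∀ i : ℕ × ℕ, G i.2) := {y | y ∈ ys.map lf'}
  have C : Ctx R (Subgroup.pi Set.univ fun i : ℕ × ℕ => N i.2) c :=
    ctx_pi _ (fun i => hc i.2) (bin_recRing π c)
  have hR : ∀ t : ℕ → ℤ, t ∘ Prod.snd ∈ R := fun t => rec_const t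
  have hD : ∀ d ∈ D, ∃ x : ∀ n, G n, (∀ n, x n ∈ N n) ∧ d = lf' x := by
    intro d hd
    obtain ⟨x, hx, rfl⟩ := List.mem_map.1 hd
    exact ⟨x, (hbl _).1.mem x hx, rfl⟩
  have hDM : D ⊆ (Subgroup.pi Set.univ fun i : ℕ × ℕ => N i.2 : Subgroup _) := by
    intro d hd i _
    obtain ⟨x, hx, rfl⟩ := hD d hd
    exact hx i.2
  have hgood := fun zs (hz : zs <:+ ys) => C.coord_good hDM (zs.map lf')
    (fun y hy => subset_pcl ((hz.map lf').subset hy))
    (Pc.cen_lf hR hD (by obtain ⟨t, ht⟩ := hz; exact Pc.tail t (ht ▸ (hbl _).1)))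
  have hHeq : pcl R D = csub R (ys.map lf') :=
    C.pcl_eq (fun y hy => hDM hy) (Pc.cen_lf hR hD (hbl _).1)
  set H := pcl R D
  have ha : ∀ x : ∀ n, G n, (∀ n, x n ∈ N n) → lf' x ∈ H := by
    intro x hx
    rw [hHeq]
    exact Subgroup.subset_closure (lf_mem_coord hR ((hbl _).1.coord_top x fun n => by
      rw [(hbl _).2, hUT]; exact hx n))
  have hb : ∀ h ∈ H, tsh G h ∈ H := by
    have : H ≤ H.comap (tsh G) := by
      refine pcl_le (fun x hx t ht => ?_) fun d hd => ?_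
      · exact powered_pcl D _ hx (fun i => t (i.1 + 1, i.2)) (Rec.shift ht)
      · obtain ⟨x, hx, rfl⟩ := hD d hd
        exact ha x hx
    exact this
  have hcj : ∀ θ : ∀ n, G n, ∀ h ∈ H, lf' θ * h * (lf' θ)⁻¹ ∈ H := by
    intro θ h hh
    refine conj_mem_pcl (fun d hd => ?_) hh
    obtain ⟨x, hx, rfl⟩ := hD d hd
    rw [← map_inv, ← map_mul, ← map_mul]
    exact ha _ fun n => (hN n).conj_mem _ (hx n) _
  have hf : ∀ k ≤ c + c, ∀ (S : ℕ → Type) [∀ n, AddCommGroup (S n)] (φ : ∀ n, G n → S n)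
      (Y : ∀ n, Subgroup (G n)), (∀ n, IsSec (U n k) (Y n) (φ n)) → ∀ h ∈ H,
      (∀ i, h i ∈ U i.2 k) → Rec π fun l => fun n => φ n (h (l, n)) := by
    intro k hk S _ φ Y hφ h hh hh'
    obtain ⟨t, ht⟩ := bl_suffix gen' hk
    have h1 : h ∈ Coord R ((bl gen' k).map lf') := by
      refine Pc.coord_desc hR (recRing_sat π) t (ht ▸ (hbl _).1)
        (fun zs hz => by rw [ht] at hz; exact ⟨(hgood zs hz).1, (hgood zs hz).2.1⟩) h ?_
        fun i => ?_
      · rw [ht]
        exact (hgood ys (List.suffix_refl _)).1 h (hHeq ▸ hh)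
      · rw [(hbl k).2]; exact hh' i
    let K : Subgroup (∀ i : ℕ × ℕ, G i.2) :=
      { carrier := {h | (∀ i, h i ∈ U i.2 k) ∧ Rec π fun l => fun n => φ n (h (l, n))}
        one_mem' := ⟨fun i => one_mem _, rec_const fun n => φ n 1⟩
        mul_mem' := by
          rintro a b ⟨ha, ha'⟩ ⟨hb, hb'⟩
          refine ⟨fun i => mul_mem (ha i) (hb i), ?_⟩
          have : (fun l => fun n => φ n ((a * b) (l, n))) =
              (fun l => fun n => φ n (a (l, n))) + fun l => fun n => φ n (b (l, n)) :=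
            funext fun l => funext fun n => (hφ n).add _ (ha (l, n)) _ (hb (l, n))
          rw [this]
          exact ha'.add hb'
        inv_mem' := by
          rintro a ⟨ha, ha'⟩
          refine ⟨fun i => inv_mem (ha i), ?_⟩
          have : (fun l => fun n => φ n (a⁻¹ (l, n))) = -fun l => fun n => φ n (a (l, n)) :=
            funext fun l => funext fun n => (hφ n).inv (ha (l, n))
          rw [this]
          exact ha'.neg }
    refine (coord_le (K := K) (fun y hy t ht => ?_) h h1).2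
    obtain ⟨x, hx, rfl⟩ := List.mem_map.1 hy
    have hx' : ∀ n, x n ∈ U n k := fun n => (hbl k).2 n ▸ mem_cl hx n
    refine ⟨fun i => zpow_mem (hx' i.2) _, ?_⟩
    have : (fun l => fun n => φ n (pw (lf' x) t (l, n))) = fun l =>
        LinearMap.toSpanSingleton (ℕ → ℤ) (∀ n, S n) (fun n => φ n (x n)) fun n => t (l, n) :=
      funext fun l => funext fun n => (hφ n).zpow (hx' n) _
    rw [this]
    exact Rec.map ht _
  have he : ∀ θ : ∀ n, G n, ∀ k ≤ c + c, ∀ e : ∀ i : ℕ × ℕ, G i.2, (∀ i, e i ∈ U i.2 k) →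
      tsh G e * (lf' θ * e * (lf' θ)⁻¹)⁻¹ ∈ H → e ∈ H := by
    intro θ k
    induction k with
    | zero =>
      intro _ e he _
      have : e = 1 := funext fun i => by simpa [hU0] using he i
      rw [this]; exact one_mem _
    | succ k ih =>
      intro hk e he hh
      choose S inst φ hφ using fun n => exists_sec (U n (k + 1)) (U n k) (hU n k)
        ((Subgroup.commutator_mono le_rfl (hUN n _)).trans (hUc n k))
      choose ρ hρ using fun n => (hφ n).exists_act
      let cθ : Module.End (ℕ → ℤ) (∀ n, S n) :=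
        { toFun := fun s n => ρ n (θ n) (s n)
          map_add' := fun s s' => funext fun n => map_add _ _ _
          map_smul' := fun a s => funext fun n => map_zsmul _ _ _ }
      have hgenS : ∀ x : ∀ n, S n, ∃ v : Fin r → ℕ → ℤ,
          ∑ a, v a • (fun n => φ n (gen (k + 1) n a)) = x := by
        intro x
        choose v hv using fun n => (hφ n).exists_coord _ (hgen _ n) (hgen' _ n).ge (x n)
        exact ⟨fun a n => v n a, funext fun n => by rw [Finset.sum_apply]; exact hv n⟩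
      have : Module.Finite (ℕ → ℤ) (∀ n, S n) := Module.Finite.of_surjective
        (Fintype.linearCombination (ℕ → ℤ) fun a n => φ n (gen (k + 1) n a)) hgenS
      obtain ⟨ψ, hψ, hψ'⟩ := exists_uni (π := π) cθ r (by
        intro x
        have h1 : ∀ j : ℕ, ∀ (x : ∀ n, S n) n, ((cθ - 1) ^ j) x n = ((ρ n (θ n) - 1) ^ j) (x n) := by
          intro j
          induction j with
          | zero => intro x n; rfl
          | succ j ih => intro x n; rw [pow_succ, pow_succ, Module.End.mul_apply, ih]; rfl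
        choose y hy using fun n => have := Fact.mk (hp n);
          (hφ n).unip (hG n) (hr n) (hρ n) (List.replicate r (θ n)) (by simp) (x n)
        exact ⟨y, funext fun n => by rw [h1, ← mprod_replicate, hy]; rfl⟩)
      have hcon : ∀ i : ℕ × ℕ, θ i.2 * e i * (θ i.2)⁻¹ ∈ U i.2 (k + 1) := fun i =>
        (hUn _ _).conj_mem _ (he i) _
      have h1 := hf (k + 1) hk S φ _ hφ _ hh fun i =>
        mul_mem (he (i.1 + 1, i.2)) (inv_mem (hcon i))
      have h2 : Rec π fun l => fun n => φ n (e (l, n)) := by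
        refine Rec.twist cθ hψ hψ' h1 fun l => funext fun n => ?_
        change φ n (e (l + 1, n)) = ρ n (θ n) (φ n (e (l, n))) +
          φ n (e (l + 1, n) * (θ n * e (l, n) * (θ n)⁻¹)⁻¹)
        rw [hρ n _ _ (he (l, n)), (hφ n).add _ (he (l + 1, n)) _ (inv_mem (hcon (l, n))),
          (hφ n).inv (hcon (l, n))]
        abel
      obtain ⟨v, hv, hv'⟩ := h2.lift _ hgenS
      let Y : ∀ i : ℕ × ℕ, G i.2 :=
        (List.ofFn fun a => pw (lf' (gen' (k + 1) a)) fun i => v a i.1 i.2).prod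
      have hY : Y ∈ H := by
        apply Subgroup.list_prod_mem
        intro x hx
        obtain ⟨a, rfl⟩ := List.mem_ofFn.1 hx
        exact powered_pcl D _ (ha _ fun n => hUN n _ (hgen _ n a)) _ (hv a)
      have hY' : ∀ i : ℕ × ℕ, Y i = (List.ofFn fun a => gen (k + 1) i.2 a ^ v a i.1 i.2).prod := by
        intro i
        simp only [Y, Pi.list_prod_apply, List.map_ofFn]
        rfl
      have hYU : ∀ (i : ℕ × ℕ), ∀ x ∈ List.ofFn fun a => gen (k + 1) i.2 a ^ v a i.1 i.2,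
          x ∈ U i.2 (k + 1) := by
        intro i x hx
        obtain ⟨a, rfl⟩ := List.mem_ofFn.1 hx
        exact zpow_mem (hgen _ _ a) _
      have h3 := ih (by omega) (Y⁻¹ * e) (by
        intro i
        have e1 : Y i ∈ U i.2 (k + 1) := hY' i ▸ Subgroup.list_prod_mem _ (hYU i)
        change (Y i)⁻¹ * e i ∈ _
        rw [← (hφ _).ker _ (mul_mem (inv_mem e1) (he i)), (hφ _).add _ (inv_mem e1) _ (he i),
          (hφ _).inv e1, neg_add_eq_zero, hY', (hφ _).list_prod _ (hYU i), List.map_ofFn,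
          List.sum_ofFn]
        have e2 := congrFun (hv' i.1) i.2
        rw [Finset.sum_apply] at e2
        rw [← e2]
        exact Finset.sum_congr rfl fun a _ => (hφ _).zpow (hgen _ _ a) _) (by
        have : tsh G (Y⁻¹ * e) * (lf' θ * (Y⁻¹ * e) * (lf' θ)⁻¹)⁻¹ = (tsh G Y)⁻¹ *
            (tsh G e * (lf' θ * e * (lf' θ)⁻¹)⁻¹) * (lf' θ * Y * (lf' θ)⁻¹) := by
          rw [map_mul, map_inv]; group
        rw [this]
        exact mul_mem (mul_mem (inv_mem (hb Y hY)) hh) (hcj θ Y hY))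
      simpa using mul_mem hY h3
  have hTI : ∀ (θ : ∀ n, G n) (e : ∀ i : ℕ × ℕ, G i.2), (∀ i, e i ∈ N i.2) →
      tsh G e * (lf' θ * e * (lf' θ)⁻¹)⁻¹ ∈ H → e ∈ H := fun θ e h =>
    he θ (c + c) le_rfl e fun i => by rw [hUT]; exact h i
  let β : (∀ n, G n) → ∀ i : ℕ × ℕ, G i.2 := fun b i => b i.2 ^ i.1
  have hTβ : ∀ b, tsh G (β b) = lf' b * β b := fun b => funext fun i => pow_succ' _ _
  have hTl : ∀ b, tsh G (lf' b) = lf' b := fun b => rfl
  have hβ1 : ∀ b, ∀ h ∈ H, β b * h * (β b)⁻¹ ∈ H := by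
    intro b h hh
    refine conj_mem_pcl (fun d hd => ?_) hh
    obtain ⟨x, hx, rfl⟩ := hD d hd
    refine hTI b _ (fun i => (hN _).conj_mem _ (hx i.2) _) ?_
    rw [map_mul, map_mul, map_inv, hTβ, hTl]
    have : lf' b * β b * lf' x * (lf' b * β b)⁻¹ *
        (lf' b * (β b * lf' x * (β b)⁻¹) * (lf' b)⁻¹)⁻¹ = 1 := by group
    rw [this]; exact one_mem _
  have hβ2 : ∀ b v : ∀ n, G n, (∀ n, b n ∈ V n) → (∀ n, v n ∈ V n) → ⁅β b, lf' v⁆ ∈ H := by
    intro b v hb hv
    refine comm_mem_symm (hTI b _ (fun i => hV _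
      (Subgroup.commutator_mem_commutator (hv i.2) (pow_mem (hb i.2) _))) ?_)
    rw [map_commutatorElement, hTβ, hTl]
    have : ⁅lf' v, lf' b * β b⁆ * (lf' b * ⁅lf' v, β b⁆ * (lf' b)⁻¹)⁻¹ = lf' ⁅v, b⁆ := by
      simp only [commutatorElement_def, map_mul, map_inv]; group
    rw [this]
    exact ha _ fun n => hV _ (Subgroup.commutator_mem_commutator (hv n) (hb n))
  have hprod : ∀ bs : List (∀ n, G n), (∀ b ∈ bs, ∀ n, b n ∈ V n) → (∀ n, bs.prod n ∈ V n) ∧
      tsh G (bs.map β).prod * (lf' bs.prod * (bs.map β).prod)⁻¹ ∈ H := by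
    intro bs
    induction bs with
    | nil => intro _; exact ⟨fun n => one_mem _, by simp⟩
    | cons b bs ih =>
      intro h
      obtain ⟨h1, h2⟩ := ih fun b' hb' => h b' (by simp [hb'])
      have h3 := h b (by simp)
      refine ⟨fun n => by rw [List.prod_cons]; exact mul_mem (h3 n) (h1 n), ?_⟩
      rw [List.map_cons, List.prod_cons, List.prod_cons, map_mul, map_mul, hTβ]
      have : lf' b * β b * tsh G (bs.map β).prod *
          (lf' b * lf' bs.prod * (β b * (bs.map β).prod))⁻¹ = lf' b * ((β b *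
          (tsh G (bs.map β).prod * (lf' bs.prod * (bs.map β).prod)⁻¹) * (β b)⁻¹) *
          ⁅β b, lf' bs.prod⁆) * (lf' b)⁻¹ := by
        simp only [commutatorElement_def]; group
      rw [this]
      exact hcj _ _ (mul_mem (hβ1 _ _ h2) (hβ2 _ _ h3 h1))
  have hPβ : ∀ l n, (bs.map β).prod (l, n) = (bs.map fun b => b ^ l).prod n := by
    intro l n
    simp only [Pi.list_prod_apply, List.map_map]
    rfl
  have hPH : (bs.map β).prod ∈ H := by
    refine hTI 1 _ (fun i => hW _ (hPβ i.1 i.2 ▸ hP i.1 i.2)) ?_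
    have h1 := mul_mem (hprod bs hbs).2 (ha bs.prod fun n => hW _ (by simpa using hP 1 n))
    simpa [mul_assoc] using h1
  have := hf c (by omega) S φ (fun _ => ⊥) (fun n => by rw [hUW]; exact hφ n) _ hPH
    fun i => by rw [hUW]; exact hPβ i.1 i.2 ▸ hP i.1 i.2
  simpa only [hPβ] using this

end Pool.Agent.Lib.MP_2551c4_al
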