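import Mathlib
import Pool.Agent.Lib.MP_2551c4_al.Cofin
import Pool.Agent.Lib.MP_2551c4_al.Recur

/-! Uniform conciseness in nilpotent-by-abelian-by-bounded `p`-groups of bounded rank. -/

namespace Pool.Agent.Lib.MP_2551c4_al

open scoped commutatorElement

theorem finiteIndex_comap_pi {ι : Type} [Finite ι] {G : ℕ → Type} [∀ n, Group (G n)]
    [∀ n, Finite (G n)] (R : ∀ n, Subgroup (G n)) [∀ n, (R n).Normal] {m : ℕ}
    (h : ∀ n, Nat.card (G n ⧸ R n) ≤ m) (θ : FreeGroup ι →* ∀ n, G n) :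
    ((Subgroup.pi Set.univ R).comap θ).FiniteIndex := by
  classical
  have : Finite (FreeGroup ι →* Equiv.Perm (Fin m)) := Finite.of_equiv _ FreeGroup.lift
  have h1 := Subgroup.finiteIndex_iInf
    (f := fun ψ : FreeGroup ι →* Equiv.Perm (Fin m) => ψ.ker) fun ψ => inferInstance
  refine Subgroup.finiteIndex_of_le (H := ⨅ ψ : FreeGroup ι →* Equiv.Perm (Fin m), ψ.ker) ?_
  intro x hx n _
  obtain ⟨e⟩ : Nonempty (G n ⧸ R n ↪ Fin m) := by
    have := Fintype.ofFinite (G n ⧸ R n)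
    apply Function.Embedding.nonempty_of_card_le
    simpa using h n
  have h2 := Subgroup.mem_iInf.1 hx ((Equiv.Perm.viaEmbeddingHom e).comp
    ((MulAction.toPermHom (G n ⧸ R n) (G n ⧸ R n)).comp
      ((QuotientGroup.mk' (R n)).comp ((Pi.evalMonoidHom G n).comp θ))))
  rw [MonoidHom.mem_ker, MonoidHom.comp_apply,
    map_eq_one_iff _ (Equiv.Perm.viaEmbeddingHom_injective e), MonoidHom.comp_apply,
    map_eq_one_iff _ MulAction.toPerm_injective] at h2
  exact (QuotientGroup.eq_one_iff _).1 h2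

theorem concise {ι : Type} [Finite ι] (w : FreeGroup ι) {p : ℕ} (hp : p.Prime) (r c e : ℕ) :
    ∃ j : ℕ, ∀ (G : Type) [Group G] [Finite G], IsPGroup p G → RankLe G r →
      ∀ N R : Subgroup G, N.Normal → R.Normal → N.lowerCentralSeries c = ⊥ → vs w G ≤ N →
      ⁅R, R⁆ ≤ N → Nat.card G ≤ p ^ e * Nat.card R →
      (∀ g b : ι → G, (∀ i, b i ∈ R) →
        FreeGroup.lift (fun i => g i * b i) w = FreeGroup.lift g w) →
      ∀ g : ι → G, FreeGroup.lift g w ^ p ^ j = 1 := by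
  classical
  have := Fact.mk hp
  by_contra hcon
  push Not at hcon
  choose G i1 i2 hG hr N R hN hR hc hW hRN hcard hm g hg using hcon
  have hQ : ∀ n, Nat.card (G n ⧸ R n) ≤ p ^ e := by
    intro n
    have h1 := hcard n
    rw [Subgroup.card_eq_card_quotient_mul_card_subgroup (R n)] at h1
    exact Nat.le_of_mul_le_mul_right h1 Nat.card_pos
  have hpow : ∀ n, ∀ x : G n, x ^ p ^ e ∈ R n := by
    intro n x
    obtain ⟨k, hk⟩ := IsPGroup.iff_card.1 ((hG n).to_quotient (R n))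
    have h1 : k ≤ e := (Nat.pow_le_pow_iff_right hp.one_lt).1 (hk ▸ hQ n)
    obtain ⟨k', rfl⟩ := Nat.exists_eq_add_of_le h1
    rw [pow_add, pow_mul, ← hk]
    exact pow_mem (Subgroup.pow_index_mem _ x) _
  let M : ∀ n, Subgroup (G n) := fun n => N n ⊓ R n
  have hMc : ∀ n, (M n).lowerCentralSeries c = ⊥ := fun n => by
    rw [eq_bot_iff, ← hc n, ← itc_eq_lcs, ← itc_eq_lcs]
    exact itc_mono inf_le_left inf_le_left _
  choose U hUn hU0 hU hUN hUc hUW hUT using fun n => exists_chain (M n) ⊥ (hMc n) bot_le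
  choose gen hgen hgen' using fun k n => (hr n).fin_gen (U n k)
  obtain ⟨hPc, hcl⟩ := pc_bl (M := M) (fun k a n => gen k n a) (fun k n => U n k) hU0
    (fun k n => hU n k) (fun k n => hUN n k) (fun k n => hUc n k) hgen' (c + c)
  generalize bl (fun k a n => gen k n a) (c + c) = ys at hPc hcl
  have htop : ∀ x : ∀ n, G n, (∀ n, x n ∈ M n) → x ∈ Coord ⊤ ys := fun x hx =>
    hPc.coord_top x fun n => by rw [hcl, hUT]; exact hx n
  let g' : ι → ∀ n, G n := fun i n => g n i
  let θ : FreeGroup ι →* ∀ n, G n := FreeGroup.lift g'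
  let Rs : Subgroup (∀ n, G n) := Subgroup.pi Set.univ R
  have hRs : Rs.Normal := ⟨fun x hx y n hn => (hR n).conj_mem _ (hx n hn) _⟩
  have hF0 : (Rs.comap θ).FiniteIndex := finiteIndex_comap_pi R hQ θ
  obtain ⟨A, hA, hAf⟩ := (Subgroup.fg_iff _).1
    ((Group.fg_iff_subgroup_fg (Rs.comap θ)).1 inferInstance)
  have hAR : ∀ a ∈ A, θ a ∈ Rs := fun a ha =>
    (hA ▸ Subgroup.subset_closure ha : a ∈ Rs.comap θ)
  have hDf : {y | y ∈ ys}.Finite := List.finite_toSet ys
  obtain ⟨T1, hT1⟩ := Pc.exists_finset_cen hDf hPc.mem hPc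
  obtain ⟨T2, hT2⟩ := exists_finset_coord' (ys := ys)
    (X := (Set.image2 (fun i y => g' i * y * (g' i)⁻¹) Set.univ {y | y ∈ ys} ∪
      Set.image2 (fun i y => (g' i)⁻¹ * y * (g' i)⁻¹⁻¹) Set.univ {y | y ∈ ys}) ∪
      (Set.image2 (fun a b => ⁅θ a, θ b⁆) A A ∪ {θ w ^ p ^ e}))
    (((Set.finite_univ.image2 _ hDf).union (Set.finite_univ.image2 _ hDf)).union
      ((hAf.image2 _ hAf).union (Set.finite_singleton _))) (by
      rintro _ ((⟨i, -, y, hy, rfl⟩ | ⟨i, -, y, hy, rfl⟩) | (⟨a, ha, b, hb, rfl⟩ | rfl))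
      · exact htop _ fun n => Subgroup.Normal.conj_mem inferInstance _ (hPc.mem y hy n) _
      · exact htop _ fun n => Subgroup.Normal.conj_mem inferInstance _ (hPc.mem y hy n) _
      · refine htop _ fun n => ?_
        have h1 := Subgroup.commutator_mem_commutator (hAR a ha n trivial) (hAR b hb n trivial)
        exact ⟨hRN n h1, Subgroup.commutator_le_self _ h1⟩
      · refine htop _ fun n => ⟨?_, hpow n _⟩
        refine pow_mem (hW n ?_) _
        rw [lift_apply_pi]
        exact lift_mem_vs w _)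
  let S : Subalgebra ℤ (ℕ → ℤ) := Algebra.adjoin ℤ ((T1 ∪ T2 : Finset (ℕ → ℤ)) : Set (ℕ → ℤ))
  have hS : Algebra.FiniteType ℤ S :=
    (Subalgebra.fg_iff_finiteType _).1 (Subalgebra.fg_adjoin_finset _)
  let σ := c.factorial * p
  have C : Ctx (satur S σ) (Subgroup.pi Set.univ M) c :=
    ctx_pi M hMc (bin_satur S (Dvd.intro _ rfl))
  have hMy : ∀ y ∈ ys, y ∈ Subgroup.pi Set.univ M := fun y hy n _ => hPc.mem y hy n
  have hcen := hT1 (satur S σ) fun t ht => mem_satur (Algebra.subset_adjoin (by simp [ht]))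
  have hX := hT2 (satur S σ) fun t ht => mem_satur (Algebra.subset_adjoin (by simp [ht]))
  have hHeq := C.pcl_eq hMy hcen
  have hHM : pcl (satur S σ) {y | y ∈ ys} ≤ Subgroup.pi Set.univ M := pcl_le C.pow hMy
  have hX' := fun x hx => (hHeq ▸ Subgroup.subset_closure (hX x hx) :
    x ∈ pcl (satur S σ) {y | y ∈ ys})
  have hnorm : θ.range ⊔ pcl (satur S σ) {y | y ∈ ys} ≤
      Subgroup.normalizer (pcl (satur S σ) {y | y ∈ ys}) := by
    refine sup_le ?_ Subgroup.le_normalizer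
    rw [FreeGroup.range_lift_eq_closure, Subgroup.closure_le]
    rintro _ ⟨i, rfl⟩
    refine Subgroup.mem_normalizer_iff.2 fun x => ⟨conj_mem_pcl fun d hd =>
      hX' _ (Or.inl (Or.inl ⟨i, trivial, d, hd, rfl⟩)), fun hx => ?_⟩
    have := conj_mem_pcl (g := (g' i)⁻¹) (fun d hd =>
      hX' _ (Or.inl (Or.inr ⟨i, trivial, d, hd, rfl⟩))) hx
    simpa [mul_assoc] using this
  have hEn : Nz (θ.range ⊔ pcl (satur S σ) {y | y ∈ ys}) (pcl (satur S σ) {y | y ∈ ys}) :=
    fun x hx k hk => (Subgroup.mem_normalizer_iff.1 (hnorm hx) k).1 hk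
  have hms : ∀ a b : ι → ∀ n, G n, (∀ i, b i ∈ Rs) →
      FreeGroup.lift (fun i => a i * b i) w = FreeGroup.lift a w := by
    intro a b hb
    funext n
    rw [lift_apply_pi, lift_apply_pi]
    exact hm n _ _ fun i => hb i n trivial
  obtain ⟨K, hKn, hKu, F, hF, hF'⟩ := exists_cofinite C hMy hcen _ le_sup_right hEn
    (hX' _ (Or.inr (Or.inr rfl))) (by
      intro h hh
      have hh' : h ∈ Rs := fun n _ => (hHM hh n trivial).2
      rw [commutatorElement_eq_one_iff_commute]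
      refine Commute.pow_left ?_ _
      have h1 : h * θ w * h⁻¹ = θ w := by
        rw [lift_conj, ← hms g' (fun i => (g' i)⁻¹ * h * (g' i)⁻¹⁻¹ * h⁻¹)
          fun i => mul_mem (hRs.conj_mem _ hh' _) (inv_mem hh')]
        congr 2
        funext i
        group
      exact (mul_inv_eq_iff_eq_mul.1 h1).symm) (by
      intro j hj
      have h1 := congrFun hj (p ^ e * σ ^ j)
      generalize hn : p ^ e * σ ^ j = n at h1
      rw [← pow_mul, hn, Pi.pow_apply, lift_apply_pi, Pi.one_apply, ← orderOf_dvd_iff_pow_eq_one]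
        at h1
      obtain ⟨k, hk⟩ := IsPGroup.iff_orderOf.1 (hG n) (FreeGroup.lift (g n) w)
      apply hg n
      rw [← orderOf_dvd_iff_pow_eq_one, hk]
      rw [hk] at h1
      have h2 : 0 < n := by
        rw [← hn]
        have := hp.pos
        have := c.factorial_pos
        positivity
      refine pow_dvd_pow p ((Nat.pow_le_pow_iff_right hp.one_lt).1 ?_)
      exact (Nat.le_of_dvd h2 h1).trans (Nat.lt_pow_self hp.one_lt).le)
  generalize pcl (satur S σ) {y | y ∈ ys} = H at *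
  have hK0 : (K.comap θ).Normal := ⟨fun x hx y => by
    rw [Subgroup.mem_comap, map_mul, map_mul, map_inv]
    exact hKn _ (Subgroup.mem_sup_left ⟨y, rfl⟩) _ hx⟩
  let π := QuotientGroup.mk' (K.comap θ)
  have hπ : Function.Surjective π := QuotientGroup.mk'_surjective _
  have hfin : (π '' {x | θ x ∈ H}).Finite := by
    refine (hF.biUnion (t := fun f => π '' {x | f⁻¹ * θ x ∈ K}) fun f _ =>
      Set.Subsingleton.finite ?_).subset ?_
    · rintro _ ⟨x, hx, rfl⟩ _ ⟨y, hy, rfl⟩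
      refine QuotientGroup.eq.2 ?_
      have := K.mul_mem (K.inv_mem hx) hy
      simpa [mul_assoc] using this
    · rintro _ ⟨x, hx, rfl⟩
      obtain ⟨f, hf, hf'⟩ := hF' _ hx
      exact Set.mem_biUnion hf ⟨x, hf', rfl⟩
  have hcomm : ∀ a ∈ Rs.comap θ, ∀ b ∈ Rs.comap θ, ⁅θ a, θ b⁆ ∈ H := by
    have h1 : ∀ a, (∀ b ∈ A, ⁅θ a, θ b⁆ ∈ H) → ∀ b ∈ Rs.comap θ, ⁅θ a, θ b⁆ ∈ H := by
      intro a ha b hb
      have : Rs.comap θ ≤ (hEn.cent (θ a)).comap θ := by
        rw [← hA, Subgroup.closure_le]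
        exact fun b hb => ⟨Subgroup.mem_sup_left ⟨b, rfl⟩, ha b hb⟩
      exact (this hb).2
    exact fun a ha => h1 a fun b hb => comm_mem_symm (h1 b
      (fun a' ha' => hX' _ (Or.inr (Or.inl ⟨b, hb, a', ha', rfl⟩))) a ha)
  have hBn : ((Rs.comap θ).map π).Normal := Subgroup.Normal.map inferInstance π hπ
  have hBf : ((Rs.comap θ).map π).FiniteIndex :=
    ⟨ne_zero_of_dvd_ne_zero hF0.1 (Subgroup.index_map_dvd _ hπ)⟩
  have hBc : Finite (commutatorSet ((Rs.comap θ).map π)) := by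
    refine (hfin.preimage (f := ((Rs.comap θ).map π).subtype)
      Subtype.val_injective.injOn).subset ?_
    rintro _ ⟨⟨_, a, ha, rfl⟩, ⟨_, b, hb, rfl⟩, rfl⟩
    refine ⟨⁅a, b⁆, ?_, ?_⟩
    · change θ ⁅a, b⁆ ∈ H
      rw [map_commutatorElement]
      exact hcomm a ha b hb
    · rw [map_commutatorElement, map_commutatorElement]
      rfl
  have hw' : FreeGroup.lift (fun i => π (FreeGroup.of i)) w = π w := by
    rw [← map_lift, FreeGroup.lift_of_apply]
  obtain ⟨k, hk⟩ := exists_pow_eq_one_of_marginal w hp ((Rs.comap θ).map π) (by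
      intro x
      obtain ⟨x, rfl⟩ := hπ x
      refine ⟨e, x ^ p ^ e, fun n _ => ?_, map_pow _ _ _⟩
      rw [map_pow]
      exact hpow n _) (by
      intro a b hb
      choose a' ha' using fun i => hπ (a i)
      choose b' hb' hb'' using hb
      obtain rfl : a = fun i => π (a' i) := funext fun i => (ha' i).symm
      simp only [← hb'', ← map_mul, ← map_lift]
      refine QuotientGroup.eq.2 ?_
      rw [Subgroup.mem_comap, map_mul, map_inv, map_lift θ, map_lift θ]
      simp only [map_mul]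
      rw [hms _ _ hb', inv_mul_cancel]
      exact one_mem _) (fun i => π (FreeGroup.of i)) (by
      rw [hw']
      refine IsOfFinOrder.of_pow (n := p ^ e) (finite_powers.1 (hfin.subset ?_))
        (pow_ne_zero _ hp.ne_zero)
      rintro _ ⟨n, rfl⟩
      refine ⟨(w ^ p ^ e) ^ n, ?_, by simp⟩
      change θ _ ∈ H
      rw [map_pow, map_pow]
      exact pow_mem (hX' _ (Or.inr (Or.inr rfl))) _)
  rw [hw', ← map_pow] at hk
  have h1 : θ (w ^ p ^ k) ∈ K := (QuotientGroup.eq_one_iff (N := K.comap θ) (w ^ p ^ k)).1 hk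
  apply hKu k
  have : (θ w ^ p ^ e) ^ σ ^ k = θ (w ^ p ^ k) ^ (p ^ e * c.factorial ^ k) := by
    rw [map_pow, ← pow_mul, ← pow_mul, mul_pow]
    congr 1
    ring
  rw [this]
  exact pow_mem h1 _

end Pool.Agent.Lib.MP_2551c4_al
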