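import Mathlib
import Pool.Agent.Lib.MP_2551c4_al.Rec

/-! A successive approximation argument: multiples of a term of a recurrent sequence are bounded
sums of terms. -/

namespace Pool.Agent.Lib.MP_2551c4_al

open Polynomial

section ring

variable {A : Type*} [CommRing A]

theorem one_add_pow_prime {p : ℕ} (hp : p.Prime) (ε : A) :
    ∃ y, (1 + ε) ^ p = 1 + p * ε * (1 + ε * y) + ε ^ p := by
  obtain ⟨r, hr⟩ := exists_add_pow_prime_eq hp (1 : ℤ[X]) X
  have h1 : r.coeff 0 = 1 := by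
    have := congrArg (fun f => f.coeff 1) hr
    simp only [coeff_one_add_X_pow, one_pow, coeff_add, coeff_X_pow, hp.ne_one.symm, if_false,
      mul_one, Nat.choose_one_right] at this
    rw [mul_assoc, ← nsmul_eq_mul, coeff_smul, coeff_X_mul, coeff_one] at this
    have hp0 : (p : ℤ) ≠ 0 := by exact_mod_cast hp.ne_zero
    apply mul_left_cancel₀ hp0
    simpa using this.symm
  refine ⟨aeval ε r.divX, ?_⟩
  have := congrArg (aeval ε) hr
  rw [← divX_mul_X_add r, h1] at this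
  simp only [map_pow, map_add, map_one, aeval_X, map_mul, map_natCast] at this
  rw [this]
  ring

theorem pow_sub_one_eq (J : Ideal A) {u : A} (hu : u - 1 ∈ J) (α : ℕ) :
    ∃ b ∈ J, u ^ α - 1 = (u - 1) * (α + b) := by
  induction α with
  | zero => exact ⟨0, zero_mem _, by simp⟩
  | succ α ih =>
    obtain ⟨b, hb, h⟩ := ih
    refine ⟨b + (u - 1) * (α + b), add_mem hb (J.mul_mem_right _ hu), ?_⟩
    push_cast
    linear_combination u * h

theorem hensel_cover {p : ℕ} (hp : p.Prime) (δ : A) (L e : ℕ) (hL : (p : A) ^ L = 0) {z : A}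
    (he : δ ^ e = p * z) {a1 a2 : A} (hδ : δ ^ p = p * δ * (δ * a1 + p * a2)) {ι : Type*}
    [Fintype ι] (t : ι → A) (ht : ∀ x, ∃ v : ι → ℤ, x = ∑ ν, v ν * t ν) (x : A) :
    ∃ l : Fin e → ι → ℕ, δ * x = ∑ j, ∑ ν, ((1 + δ) ^ l j ν - 1) * δ ^ (j : ℕ) * t ν := by
  classical
  let J : Ideal A := Ideal.span {δ, (p : A)}
  have hδJ : δ ∈ J := Ideal.subset_span (by simp)
  have hpJ : (p : A) ∈ J := Ideal.subset_span (by simp)
  have s1 : ∀ s : ℕ, ∃ a ∈ J, (1 + δ) ^ p ^ s - 1 = p ^ s * δ * (1 + a) := by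
    intro s
    induction s with
    | zero => exact ⟨0, zero_mem _, by simp⟩
    | succ s ih =>
      obtain ⟨a, ha, h⟩ := ih
      obtain ⟨y, hy⟩ := one_add_pow_prime hp ((p : A) ^ s * δ * (1 + a))
      obtain ⟨k, hk⟩ : ∃ k, p = k + 1 := ⟨p - 1, by have := hp.pos; omega⟩
      refine ⟨a + (1 + a) * (p ^ s * δ * (1 + a) * y) +
        (p ^ s) ^ k * (δ * a1 + p * a2) * (1 + a) ^ p, ?_, ?_⟩
      · refine add_mem (add_mem ha (J.mul_mem_left _ (J.mul_mem_right _ (J.mul_mem_right _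
          (J.mul_mem_left _ hδJ))))) (J.mul_mem_right _ (J.mul_mem_left _
          (add_mem (J.mul_mem_right _ hδJ) (J.mul_mem_right _ hpJ))))
      · rw [pow_succ, pow_mul, sub_eq_iff_eq_add'.1 h, hy, mul_pow, mul_pow, hδ]
        have : ((p : A) ^ s) ^ p = (p ^ s) ^ k * p ^ s := by rw [← pow_succ, ← hk]
        rw [this]
        ring
  have s2 : ∀ s l α : ℕ, ∃ a ∈ J,
      (1 + δ) ^ (l + p ^ s * α) = (1 + δ) ^ l + p ^ s * δ * (α + a) := by
    intro s l α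
    obtain ⟨a, ha, h⟩ := s1 s
    obtain ⟨b, hb, h'⟩ := pow_sub_one_eq J (u := (1 + δ) ^ p ^ s)
      (h ▸ J.mul_mem_right _ (J.mul_mem_left _ hδJ)) α
    obtain ⟨c, hc, h''⟩ := pow_sub_one_eq J (u := 1 + δ) (by simpa using hδJ) l
    refine ⟨b + (a + δ * (l + c) * (1 + a)) * (α + b), add_mem hb (J.mul_mem_right _
      (add_mem ha (J.mul_mem_right _ (J.mul_mem_right _ hδJ)))), ?_⟩
    rw [pow_add, pow_mul, sub_eq_iff_eq_add'.1 h', h, sub_eq_iff_eq_add'.1 h'']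
    ring
  have s3 : ∀ v : ℤ, ∃ α : ℕ, (v : A) = α := by
    intro v
    have hpos : (0 : ℤ) < p ^ L := by have := hp.pos; positivity
    refine ⟨(v % p ^ L).toNat, ?_⟩
    rw [← Int.cast_natCast, Int.toNat_of_nonneg (Int.emod_nonneg _ hpos.ne'), Int.emod_def]
    simp [hL]
  let Ψ : (Fin e → ι → ℕ) → A := fun l => ∑ j, ∑ ν, ((1 + δ) ^ l j ν - 1) * δ ^ (j : ℕ) * t ν
  have step : ∀ s : ℕ, (∃ l u, δ * x = Ψ l + p ^ s * δ * u) → ∀ j ≤ e,
      ∃ l u u', δ * x = Ψ l + p ^ s * δ ^ (j + 1) * u + p ^ (s + 1) * δ * u' := by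
    rintro s ⟨l, u, h⟩ j
    induction j with
    | zero => exact fun _ => ⟨l, u, 0, by simpa using h⟩
    | succ j ih =>
      intro hj
      obtain ⟨l, u, u', h⟩ := ih (by omega)
      obtain ⟨v, hv⟩ := ht u
      choose α hα using fun ν => s3 (v ν)
      choose a ha ha' using fun ν => s2 s (l ⟨j, hj⟩ ν) (α ν)
      obtain ⟨b1, b2, hb⟩ := Ideal.mem_span_pair.1
        (J.sum_mem (t := Finset.univ) fun ν _ => J.mul_mem_right (t ν) (ha ν))
      refine ⟨Function.update l ⟨j, hj⟩ fun ν => l ⟨j, hj⟩ ν + p ^ s * α ν, -b1,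
        u' - δ ^ j * b2, ?_⟩
      have e1 : Ψ (Function.update l ⟨j, hj⟩ fun ν => l ⟨j, hj⟩ ν + p ^ s * α ν) =
          Ψ l + p ^ s * δ ^ (j + 1) * (u + (b1 * δ + b2 * p)) := by
        simp only [Ψ]
        rw [← Finset.add_sum_erase _ _ (Finset.mem_univ (⟨j, hj⟩ : Fin e)),
          ← Finset.add_sum_erase Finset.univ (fun j' : Fin e => ∑ ν,
            ((1 + δ) ^ l j' ν - 1) * δ ^ (j' : ℕ) * t ν) (Finset.mem_univ (⟨j, hj⟩ : Fin e)),
          add_right_comm]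
        congr 1
        · rw [hb, hv, ← Finset.sum_add_distrib, Finset.mul_sum, ← Finset.sum_add_distrib]
          refine Finset.sum_congr rfl fun ν _ => ?_
          rw [Function.update_self, ha', hα]
          ring
        · refine Finset.sum_congr rfl fun j' hj' => ?_
          rw [Function.update_of_ne (Finset.ne_of_mem_erase hj')]
      rw [e1, h]
      ring
  have fin : ∀ s : ℕ, ∃ l u, δ * x = Ψ l + p ^ s * δ * u := by
    intro s
    induction s with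
    | zero => exact ⟨0, x, by simp [Ψ]⟩
    | succ s ih =>
      obtain ⟨l, u, u', h⟩ := step s ih e le_rfl
      exact ⟨l, z * u + u', by rw [h, pow_succ δ, he]; ring⟩
  obtain ⟨l, u, h⟩ := fin L
  exact ⟨l, by rw [h, hL]; simp [Ψ]⟩

theorem hensel_hyp {p m q : ℕ} (hp : p.Prime) (T z : A) (h : (T - 1) ^ m = p * z)
    (hq : (q = 1 ∧ m + 2 ≤ p) ∨ q = p ^ (m + 1)) :
    (∃ z', (T ^ q - 1) ^ (m + 1) = p * z') ∧
      ∃ a1 a2, (T ^ q - 1) ^ p = p * (T ^ q - 1) * ((T ^ q - 1) * a1 + p * a2) := by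
  rcases hq with ⟨rfl, hq⟩ | rfl
  · rw [pow_one]
    obtain ⟨k, hk⟩ := Nat.exists_eq_add_of_le hq
    refine ⟨⟨z * (T - 1), by rw [pow_succ, h, mul_assoc]⟩, z * (T - 1) ^ k, 0, ?_⟩
    conv_lhs => rw [hk, pow_add, pow_add, h]
    ring
  · obtain ⟨r, hr⟩ := exists_add_pow_prime_pow_eq hp 1 (T - 1) m
    obtain ⟨k, hk⟩ := Nat.exists_eq_add_of_le (Nat.lt_pow_self (n := m) hp.one_lt).le
    obtain ⟨θ, hθ⟩ : ∃ θ, T ^ p ^ m = 1 + p * θ := by
      refine ⟨z * (T - 1) ^ k + (T - 1) * r, ?_⟩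
      rw [add_sub_cancel, one_pow] at hr
      rw [hr]
      conv_lhs => rw [hk, pow_add, h]
      ring
    obtain ⟨y, hy⟩ := one_add_pow_prime hp (p * θ)
    obtain ⟨k', hk'⟩ := Nat.exists_eq_add_of_le hp.two_le
    obtain ⟨θ', hθ'⟩ : ∃ θ', T ^ p ^ (m + 1) - 1 = p ^ 2 * θ' := by
      refine ⟨θ * (1 + p * θ * y) + θ ^ 2 * (p * θ) ^ k', ?_⟩
      have : (p * θ) ^ p = (p * θ) ^ 2 * (p * θ) ^ k' := by rw [← pow_add, ← hk']
      rw [pow_succ, pow_mul, hθ, hy, this]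
      ring
    generalize T ^ p ^ (m + 1) - 1 = δ at hθ'
    refine ⟨⟨p * θ' * δ ^ m, by rw [pow_succ']; nth_rw 1 [hθ']; ring⟩, 0, θ' * δ ^ k', ?_⟩
    have : δ ^ p = δ * δ * δ ^ k' := by rw [← sq, ← pow_add, ← hk']
    rw [this]
    nth_rw 2 [hθ']
    ring

end ring

theorem bounded_sums {S : Type*} [AddCommGroup S] {p m q L : ℕ} (hp : p.Prime)
    (hL : ∀ s : S, (p : ℤ) ^ L • s = 0) (P : ℕ → S) {χ g : ℤ[X]} {a : ℕ} (hχ : χ.Monic)
    (hm : χ.natDegree ≤ m) (ha : a ≤ m) (hg : χ = (X - 1) ^ a + C (p : ℤ) * g)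
    (h0 : aeval (sh ℤ S) χ P = 0) (hq : (q = 1 ∧ m + 2 ≤ p) ∨ q = p ^ (m + 1))
    (Z : ℕ → Set S) (hZ0 : 0 ∈ Z 0) (hZm : ∀ a b, a ≤ b → Z a ⊆ Z b)
    (hZa : ∀ a b, ∀ x ∈ Z a, ∀ y ∈ Z b, x + y ∈ Z (a + b)) (hZn : ∀ a, ∀ x ∈ Z a, -x ∈ Z a)
    (hZP : ∀ n, P n ∈ Z 2) (j : ℤ) : j • (P q - P 0) ∈ Z ((m + 1) * (m * 2 ^ (m + 2))) := by
  classical
  let ev : ℤ[X] →ₗ[ℤ] (ℕ → S) := (LinearMap.applyₗ P).comp (aeval (sh ℤ S)).toLinearMap
  have hev : ∀ f, ev f = aeval (sh ℤ S) f P := fun f => rfl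
  let I : Ideal ℤ[X] :=
    { carrier := {f | ev f = 0}
      zero_mem' := map_zero ev
      add_mem' := fun {f g} hf hg => by
        change ev (f + g) = 0
        rw [map_add, hf, hg, add_zero]
      smul_mem' := fun c f hf => by
        change aeval (sh ℤ S) (c * f) P = 0
        rw [map_mul, Module.End.mul_apply, ← hev f, hf, map_zero] }
  let mk := Ideal.Quotient.mk I
  have hχ0 : mk χ = 0 := Ideal.Quotient.eq_zero_iff_mem.2 h0
  obtain ⟨⟨z', h1⟩, a1, a2, h2⟩ := hensel_hyp hp (mk X) (-mk g * (mk X - 1) ^ (m - a)) (by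
    have : (mk X - 1) ^ a = p * -mk g := by
      rw [hg, map_add, map_mul, map_pow, map_sub, map_one, eq_intCast, map_intCast] at hχ0
      push_cast at hχ0
      linear_combination hχ0
    rw [← mul_assoc, ← this, ← pow_add, Nat.add_sub_cancel' ha]) hq
  obtain ⟨l, hl⟩ := hensel_cover hp (mk X ^ q - 1) L (m + 1) (by
      rw [← map_natCast mk, ← map_pow, Ideal.Quotient.eq_zero_iff_mem]
      change ev _ = 0
      have : (p : ℤ[X]) ^ L = (p : ℤ) ^ L • (1 : ℤ[X]) := by simp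
      rw [this, map_zsmul]
      exact funext fun n => hL _) h1 h2 (fun ν : Fin m => mk X ^ (ν : ℕ)) (by
      intro x
      obtain ⟨f, rfl⟩ := Ideal.Quotient.mk_surjective x
      refine ⟨fun ν => (f %ₘ χ).coeff ν, ?_⟩
      have e1 : mk f = mk (f %ₘ χ) := by
        conv_lhs => rw [← modByMonic_add_div f χ, map_add, map_mul, hχ0, zero_mul, add_zero]
      have e2 : f %ₘ χ ∈ degreeLT ℤ m := by
        rw [mem_degreeLT]
        refine (degree_modByMonic_lt f hχ).trans_le ?_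
        rw [degree_eq_natDegree hχ.ne_zero]
        exact_mod_cast hm
      change mk f = _
      rw [e1]
      conv_lhs => rw [← sum_monomial_eq (f %ₘ χ), ← sum_fin _ (by simp) (mem_degreeLT.1 e2)]
      simp [← C_mul_X_pow_eq_monomial]) j
  have h3 : ev ((X ^ q - 1 : ℤ[X]) * (j : ℤ[X])) = ev (∑ i : Fin (m + 1), ∑ ν : Fin m,
      ((1 + (X ^ q - 1 : ℤ[X])) ^ l i ν - 1) * (X ^ q - 1) ^ (i : ℕ) * X ^ (ν : ℕ)) := by
    rw [← sub_eq_zero, ← map_sub]
    change _ ∈ I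
    rw [← Ideal.Quotient.eq]
    simpa using hl
  have hX : ∀ n : ℕ, ev (X ^ n) 0 = P n := fun n => by simp [hev, sh_pow_apply]
  have h4 : ∀ i n : ℕ, ev (X ^ n * (X ^ q - 1) ^ i) 0 ∈ Z (2 ^ (i + 1)) := by
    intro i
    induction i with
    | zero => intro n; simpa [hX] using hZP n
    | succ i ih =>
      intro n
      have : (X : ℤ[X]) ^ n * (X ^ q - 1) ^ (i + 1) =
          X ^ (n + q) * (X ^ q - 1) ^ i + -(X ^ n * (X ^ q - 1) ^ i) := by ring
      rw [this, map_add, map_neg, pow_succ 2 (i + 1), mul_two]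
      exact hZa _ _ _ (ih _) _ (hZn _ _ (ih _))
  have hsum : ∀ {κ : Type} (s : Finset κ) (f : κ → S) (b : ℕ), (∀ k, f k ∈ Z b) →
      ∑ k ∈ s, f k ∈ Z (s.card * b) := by
    intro κ s f b hf
    induction s using Finset.induction_on with
    | empty => simpa using hZ0
    | insert k s hk ih =>
      rw [Finset.sum_insert hk, Finset.card_insert_of_notMem hk, add_mul, one_mul, add_comm _ b]
      exact hZa _ _ _ (hf k) _ ih
  have h5 : j • (P q - P 0) = ev ((X ^ q - 1 : ℤ[X]) * (j : ℤ[X])) 0 := by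
    rw [mul_comm, ← zsmul_eq_mul, map_zsmul, map_sub, Pi.smul_apply, Pi.sub_apply, hX,
      ← pow_zero X, hX]
  rw [h5, h3, map_sum, Finset.sum_apply]
  have h6 := hsum (Finset.univ : Finset (Fin (m + 1))) (fun i => ev (∑ ν : Fin m,
      ((1 + (X ^ q - 1 : ℤ[X])) ^ l i ν - 1) * (X ^ q - 1) ^ (i : ℕ) * X ^ (ν : ℕ)) 0)
      (m * 2 ^ (m + 2)) (by
    intro i
    rw [map_sum, Finset.sum_apply]
    have := hsum (Finset.univ : Finset (Fin m)) (fun ν => ev
      (((1 + (X ^ q - 1 : ℤ[X])) ^ l i ν - 1) * (X ^ q - 1) ^ (i : ℕ) * X ^ (ν : ℕ)) 0)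
      (2 ^ (m + 2)) (by
      intro ν
      have : ((1 + (X ^ q - 1 : ℤ[X])) ^ l i ν - 1) * (X ^ q - 1) ^ (i : ℕ) * X ^ (ν : ℕ) =
          X ^ (q * l i ν + ν) * (X ^ q - 1) ^ (i : ℕ) + -(X ^ (ν : ℕ) * (X ^ q - 1) ^ (i : ℕ)) := by
        rw [add_sub_cancel]; ring
      rw [this, map_add, map_neg]
      refine hZm _ _ ?_ (hZa _ _ _ (h4 _ _) _ (hZn _ _ (h4 _ _)))
      rw [← mul_two, ← pow_succ]
      exact Nat.pow_le_pow_right (by norm_num) (by have := i.2; omega))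
    simpa using this)
  simpa using h6

end Pool.Agent.Lib.MP_2551c4_al
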