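import Mathlib
import Pool.Agent.Lib.MP_2551c4_al.Recur
import Pool.Agent.Lib.MP_2551c4_al.Hensel

/-! Bounded width of the subgroup generated by the increments of the word map. -/

namespace Pool.Agent.Lib.MP_2551c4_al

open scoped commutatorElement
open Polynomial

universe u

theorem recur_bound (r c s : ℕ) : ∃ m : ℕ, ∀ p : ℕ, p.Prime → ∀ (G : Type) [Group G] [Finite G],
    IsPGroup p G → RankLe G r → ∀ N V W : Subgroup G, N.Normal → W.Normal →
    N.lowerCentralSeries c = ⊥ → W ≤ N → ⁅V, V⁆ ≤ N → ∀ bs : List G, bs.length = s →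
    (∀ b ∈ bs, b ∈ V) → (∀ l : ℕ, (bs.map fun b => b ^ l).prod ∈ W) →
    ∀ (S : Type) [AddCommGroup S] (φ : G → S), IsSec W ⊥ φ →
    ∃ χ g : ℤ[X], ∃ a : ℕ, χ.Monic ∧ χ.natDegree ≤ m ∧ a ≤ m ∧
      χ = (X - 1) ^ a + C (p : ℤ) * g ∧
      aeval (sh ℤ S) χ (fun l => φ (bs.map fun b => b ^ l).prod) = 0 := by
  by_contra hcon
  push Not at hcon
  choose p hp G i1 i2 hG hr N V W hN hW hc hWN hV bs hs hbs hP S i3 φ hφ h using hcon
  let B : List (∀ n, G n) := (List.range s).map fun k n => (bs n).getD k 1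
  have hB : ∀ n, B.map (fun b => b n) = bs n := by
    intro n
    apply List.ext_getElem
    · simp [B, hs]
    · intro k h1 h2
      simp [B, List.getElem?_eq_getElem h2]
  have hB' : ∀ (l : ℕ) n, (B.map fun b => b ^ l).prod n = ((bs n).map fun b => b ^ l).prod := by
    intro l n
    rw [Pi.list_prod_apply, ← hB n]
    generalize B = B'
    rw [List.map_map, List.map_map]
    rfl
  obtain ⟨χ, ⟨h1, a, g, hg⟩, h2⟩ := recur_core hp hG hr N V W hc hWN hV B
    (fun b hb n => hbs n _ (hB n ▸ List.mem_map_of_mem hb)) (fun l n => hB' l n ▸ hP n l) φ hφ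
  let n := max χ.natDegree a
  let f := Pi.evalRingHom (fun _ : ℕ => ℤ) n
  refine h n (χ.map f) (g.map f) a (h1.map f) (natDegree_map_le.trans (le_max_left _ _))
    (le_max_right _ _) (by rw [hg]; simp [f]) (funext fun l => ?_)
  have := congrFun (congrFun h2 l) n
  rw [aeval_sh_apply (Nat.lt_succ_self _), Finset.sum_apply] at this
  rw [aeval_sh_apply (Nat.lt_succ_of_le natDegree_map_le)]
  simp only [coeff_map, ← hB']
  exact this

theorem exists_expansion {G : Type u} [Group G] {ι : Type} (V : Subgroup G) [hV : V.Normal]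
    (g a : ι → G) (ha : ∀ i, a i ∈ V) (L : List (ι × Bool)) :
    ∃ bs : List G, bs.length = L.length ∧ (∀ b ∈ bs, b ∈ V) ∧ ∀ l : ℕ,
      FreeGroup.lift (fun i => g i * a i ^ l) (FreeGroup.mk L) =
        (bs.map fun b => b ^ l).prod * FreeGroup.lift g (FreeGroup.mk L) := by
  induction L with
  | nil => exact ⟨[], rfl, by simp, fun l => by simp⟩
  | cons x L ih =>
    obtain ⟨bs, h1, h2, h3⟩ := ih
    have key : ∀ (y : G) (l : ℕ), ((bs.map fun b => y * b * y⁻¹).map fun b => b ^ l).prod =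
        y * (bs.map fun b => b ^ l).prod * y⁻¹ := by
      intro y l
      have := map_list_prod (MulAut.conj y) (bs.map fun b => b ^ l)
      simp only [MulAut.conj_apply, List.map_map] at this ⊢
      rw [this]
      congr 1
      exact List.map_congr_left fun b _ => by simp
    simp only [FreeGroup.lift_mk] at h3 ⊢
    obtain ⟨i, _ | _⟩ := x
    · refine ⟨(a i)⁻¹ :: bs.map fun b => (g i)⁻¹ * b * (g i)⁻¹⁻¹, by simp [h1], ?_, fun l => ?_⟩
      · intro b hb
        rcases List.mem_cons.1 hb with rfl | hb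
        · exact inv_mem (ha i)
        · obtain ⟨b', hb', rfl⟩ := List.mem_map.1 hb
          exact hV.conj_mem _ (h2 b' hb') _
      · simp only [List.map_cons, List.prod_cons, key, h3, cond_false, inv_pow]
        group
    · refine ⟨(g i * a i * (g i)⁻¹) :: bs.map fun b => g i * b * (g i)⁻¹, by simp [h1], ?_,
        fun l => ?_⟩
      · intro b hb
        rcases List.mem_cons.1 hb with rfl | hb
        · exact hV.conj_mem _ (ha i) _
        · obtain ⟨b', hb', rfl⟩ := List.mem_map.1 hb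
          exact hV.conj_mem _ (h2 b' hb') _
      · simp only [List.map_cons, List.prod_cons, key, h3, cond_true, conj_pow]
        group

theorem abelian_prod_form {G : Type u} [Group G] {D : Subgroup G} (hD : ⁅D, D⁆ = ⊥) {r : ℕ}
    (y : Fin r → G) (hy : Subgroup.closure (Set.range y) = D) {x : G} (hx : x ∈ D) :
    ∃ v : Fin r → ℤ, x = (List.ofFn fun i => y i ^ v i).prod := by
  obtain ⟨S, _, φ, h⟩ := exists_sec D ⊥ bot_le hD.le
  have hy' : ∀ i, y i ∈ D := fun i => hy ▸ Subgroup.subset_closure ⟨i, rfl⟩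
  obtain ⟨v, hv⟩ := h.exists_coord y hy' hy.ge (φ x)
  have h1 : ∀ z ∈ List.ofFn fun i => y i ^ v i, z ∈ D := by
    intro z hz
    obtain ⟨i, rfl⟩ := List.mem_ofFn.1 hz
    exact zpow_mem (hy' i) _
  refine ⟨v, ?_⟩
  rw [← mul_inv_eq_one, ← Subgroup.mem_bot, ← h.eq_iff hx (Subgroup.list_prod_mem _ h1),
    h.list_prod _ h1, List.map_ofFn, List.sum_ofFn, ← hv]
  exact Finset.sum_congr rfl fun i _ => (h.zpow (hy' i) _).symm

/-- the subgroup generated by the increments -/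
def incr {ι : Type} (w : FreeGroup ι) {G : Type u} [Group G] (V : Subgroup G) (q : ℕ) :
    Subgroup G :=
  Subgroup.closure {x | ∃ g a : ι → G, (∀ i, a i ∈ V) ∧
    x = FreeGroup.lift (fun i => g i * a i ^ q) w * (FreeGroup.lift g w)⁻¹}

instance incr_normal {ι : Type} (w : FreeGroup ι) {G : Type u} [Group G] (V : Subgroup G)
    [hV : V.Normal] (q : ℕ) : (incr w V q).Normal := by
  constructor
  intro n hn x
  have : incr w V q ≤ (incr w V q).comap (MulAut.conj x).toMonoidHom := by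
    refine (Subgroup.closure_le _).2 ?_
    rintro _ ⟨g, a, ha, rfl⟩
    refine Subgroup.subset_closure ⟨fun i => x * g i * x⁻¹, fun i => x * a i * x⁻¹,
      fun i => hV.conj_mem _ (ha i) _, ?_⟩
    rw [map_mul, map_inv, map_lift, map_lift]
    simp only [MulEquiv.coe_toMonoidHom, MulAut.conj_apply]
    simp only [conj_pow]
    simp only [mul_assoc, inv_mul_cancel_left]
  exact this hn

theorem incr_le {ι : Type} (w : FreeGroup ι) {G : Type u} [Group G] (V : Subgroup G) (q : ℕ) :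
    incr w V q ≤ vs w G := by
  refine (Subgroup.closure_le _).2 ?_
  rintro _ ⟨g, a, -, rfl⟩
  exact mul_mem (lift_mem_vs w _) (inv_mem (lift_mem_vs w _))

theorem cover {ι : Type} (w : FreeGroup ι) (r c : ℕ) : ∃ m : ℕ, ∀ p q : ℕ, p.Prime →
    ((q = 1 ∧ m + 2 ≤ p) ∨ q = p ^ (m + 1)) → ∀ (G : Type) [Group G] [Finite G],
    IsPGroup p G → RankLe G r → ∀ N V : Subgroup G, N.Normal → V.Normal →
    N.lowerCentralSeries c = ⊥ → vs w G ≤ N → ⁅V, V⁆ ≤ N → ⁅vs w G, vs w G⁆ = ⊥ →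
    ∀ x ∈ incr w V q, x ∈ Wd w G (r * ((m + 1) * (m * 2 ^ (m + 2)))) := by
  classical
  obtain ⟨m, hm⟩ := recur_bound r c w.toWord.length
  refine ⟨m, fun p q hp hq G _ _ hG hr N V hN hV hc hW hVN hWW x hx => ?_⟩
  have := Fact.mk hp
  obtain ⟨S, _, φ, h⟩ := exists_sec (vs w G) ⊥ bot_le hWW.le
  obtain ⟨L, hL⟩ := IsPGroup.iff_card.1 hG
  have key : ∀ g a : ι → G, (∀ i, a i ∈ V) → ∀ j : ℤ,
      (FreeGroup.lift (fun i => g i * a i ^ q) w * (FreeGroup.lift g w)⁻¹) ^ j ∈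
        Wd w G ((m + 1) * (m * 2 ^ (m + 2))) := by
    intro g a ha j
    obtain ⟨bs, h1, h2, h3⟩ := exists_expansion V g a ha w.toWord
    rw [FreeGroup.mk_toWord] at h3
    have h4 : ∀ l : ℕ, (bs.map fun b => b ^ l).prod =
        FreeGroup.lift (fun i => g i * a i ^ l) w * (FreeGroup.lift g w)⁻¹ := fun l => by
      rw [h3, mul_inv_cancel_right]
    have h5 : ∀ l : ℕ, (bs.map fun b => b ^ l).prod ∈ vs w G := fun l =>
      h4 l ▸ mul_mem (lift_mem_vs w _) (inv_mem (lift_mem_vs w _))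
    obtain ⟨χ, g', a', e1, e2, e3, e4, e5⟩ :=
      hm p hp G hG hr N V _ hN inferInstance hc hW hVN bs h1 h2 h5 S φ h
    obtain ⟨y, hy, hy', hy''⟩ := bounded_sums (L := L) hp (by
        intro s
        obtain ⟨y, hy, rfl⟩ := h.surj s
        rw [← Nat.cast_pow, natCast_zsmul, ← h.pow hy, ← hL, pow_card_eq_one', h.one])
      _ e1 e2 e3 e4 e5 hq (fun b => {s | ∃ y ∈ vs w G, y ∈ Wd w G b ∧ φ y = s})
      ⟨1, one_mem _, one_mem_Wd _, h.one⟩
      (fun a b hab s ⟨y, hy, hy', hs⟩ => ⟨y, hy, Wd_mono hab hy', hs⟩)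
      (fun a b _ ⟨y, hy, hy', hs⟩ _ ⟨z, hz, hz', ht⟩ =>
        ⟨y * z, mul_mem hy hz, mul_mem_Wd hy' hz', by rw [h.add _ hy _ hz, hs, ht]⟩)
      (fun a _ ⟨y, hy, hy', hs⟩ => ⟨y⁻¹, inv_mem hy, inv_mem_Wd hy', by rw [h.inv hy, hs]⟩)
      (fun n => ⟨_, h5 n, h4 n ▸ mul_mem_Wd (lift_mem_Wd _) (inv_mem_Wd (lift_mem_Wd _)), rfl⟩) j
    have e6 : φ (bs.map fun b => b ^ 0).prod = 0 := by simp [h.one]
    rw [e6, sub_zero, ← h.zpow (h5 q), h.eq_iff hy (zpow_mem (h5 q) j), Subgroup.mem_bot,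
      mul_inv_eq_one] at hy''
    rw [← h4, ← hy'']
    exact hy'
  obtain ⟨y, hy, hy'⟩ := exists_fin_gen_subset hG hr {x | ∃ g a : ι → G, (∀ i, a i ∈ V) ∧
    x = FreeGroup.lift (fun i => g i * a i ^ q) w * (FreeGroup.lift g w)⁻¹}
    ⟨fun _ => 1, fun _ => 1, fun _ => one_mem _, by simp⟩
  obtain ⟨v, rfl⟩ := abelian_prod_form (D := incr w V q) (by
    rw [eq_bot_iff, ← hWW]
    exact Subgroup.commutator_mono (incr_le w V q) (incr_le w V q)) y hy' hx
  have := prod_mem_Wd (w := w) (a := (m + 1) * (m * 2 ^ (m + 2)))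
    (List.ofFn fun i => y i ^ v i) (by
      intro z hz
      obtain ⟨i, rfl⟩ := List.mem_ofFn.1 hz
      obtain ⟨g, a, ha, hga⟩ := hy i
      simp only [hga]
      exact key g a ha _)
  simpa using this

end Pool.Agent.Lib.MP_2551c4_al
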