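import Mathlib
import Pool.Agent.Lib.MP_2551c4_al.Concise
import Pool.Agent.Lib.MP_2551c4_al.Cover

/-! Uniform bound for the width of a word in finite `p`-groups of bounded rank. -/

namespace Pool.Agent.Lib.MP_2551c4_al

open scoped commutatorElement

universe u

theorem card_le_pow_closure {G : Type u} [Group G] [Finite G] {r c q : ℕ} (hr : RankLe G r)
    (hq : 0 < q) (N V : Subgroup G) [N.Normal] [V.Normal] (hc : N.lowerCentralSeries c = ⊥)
    (hV : ⁅V, V⁆ ≤ N) : Nat.card V ≤
      q ^ (r * (c + 1)) * Nat.card (Subgroup.closure ((fun x => x ^ q) '' (V : Set G))) := by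
  have hRn := closure_pow_normal q V
  have hRq : ∀ x ∈ V, x ^ q ∈ Subgroup.closure ((fun x => x ^ q) '' (V : Set G)) := fun x hx =>
    Subgroup.subset_closure ⟨x, hx, rfl⟩
  have hRV : Subgroup.closure ((fun x => x ^ q) '' (V : Set G)) ≤ V := by
    rw [Subgroup.closure_le]
    rintro _ ⟨x, hx, rfl⟩
    exact pow_mem hx q
  generalize Subgroup.closure ((fun x => x ^ q) '' (V : Set G)) = R at *
  have key : ∀ j, ∃ H : Subgroup G, R ≤ H ∧ H ≤ V ∧ H ≤ itc N N j ⊔ R ∧
      Nat.card V ≤ q ^ (r * (j + 1)) * Nat.card H := by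
    have step : ∀ H : Subgroup G, R ≤ H → H ≤ V →
        Nat.card H ≤ q ^ r * Nat.card (⁅H, H⁆ ⊔ R : Subgroup G) := fun H h1 h2 =>
      hr.card_le (sup_le (Subgroup.commutator_le_self H) h1) le_sup_left hq
        fun x hx => Subgroup.mem_sup_right (hRq x (h2 hx))
    intro j
    induction j with
    | zero =>
      exact ⟨⁅V, V⁆ ⊔ R, le_sup_right, sup_le (Subgroup.commutator_le_self V) hRV,
        sup_le_sup_right hV _, by simpa using step V hRV le_rfl⟩
    | succ j ih =>
      obtain ⟨H, h1, h2, h3, h4⟩ := ih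
      refine ⟨⁅H, H⁆ ⊔ R, le_sup_right, sup_le ((Subgroup.commutator_le_self H).trans h2) hRV,
        sup_le ?_ le_sup_right, h4.trans ?_⟩
      · refine (Subgroup.commutator_mono h3 h3).trans ((commutator_sup_le _ _ _).trans
          (sup_le ?_ le_sup_right))
        rw [Subgroup.commutator_comm]
        exact (commutator_sup_le _ _ _).trans
          (sup_le_sup_right (Subgroup.commutator_mono le_rfl (itc_le _ _ _)) _)
      · rw [mul_add r (j + 1), mul_one, pow_add, mul_assoc]
        exact Nat.mul_le_mul_left _ (step H h1 h2)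
  obtain ⟨H, h1, -, h3, h4⟩ := key c
  rw [itc_eq_lcs, hc, bot_sup_eq] at h3
  rwa [le_antisymm h3 h1] at h4

theorem marginal_closure {ι : Type} [Finite ι] (w : FreeGroup ι) {G : Type u} [Group G]
    (V : Subgroup G) (q : ℕ) (h : ∀ g a : ι → G, (∀ i, a i ∈ V) →
      FreeGroup.lift (fun i => g i * a i ^ q) w = FreeGroup.lift g w) (g b : ι → G)
    (hb : ∀ i, b i ∈ Subgroup.closure ((fun x => x ^ q) '' (V : Set G))) :
    FreeGroup.lift (fun i => g i * b i) w = FreeGroup.lift g w := by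
  classical
  let Mg : Subgroup (ι → G) :=
    { carrier := {b | ∀ g : ι → G, FreeGroup.lift (g * b) w = FreeGroup.lift g w}
      one_mem' := fun g => by rw [mul_one]
      mul_mem' := fun {a b} ha hb g => by rw [← mul_assoc, hb, ha]
      inv_mem' := fun {a} ha g => by rw [← ha (g * a⁻¹), inv_mul_cancel_right] }
  have : Subgroup.pi Set.univ (fun _ : ι => Subgroup.closure ((fun x => x ^ q) '' (V : Set G))) ≤
      Mg := by
    rw [Subgroup.pi_le_iff]
    intro i
    rw [Subgroup.map_le_iff_le_comap, Subgroup.closure_le]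
    rintro _ ⟨x, hx, rfl⟩ g
    rw [map_pow]
    refine h g _ fun j => ?_
    by_cases hj : j = i
    · subst hj; simpa using hx
    · simp [hj]
  exact this (fun i _ => hb i) g

/-- bounded width when the verbal subgroup is abelian -/
def AbW {ι : Type} (w : FreeGroup ι) (p r b : ℕ) : Prop :=
  ∀ (G : Type) [Group G] [Finite G], IsPGroup p G → RankLe G r → ⁅vs w G, vs w G⁆ = ⊥ →
    ∀ x ∈ vs w G, x ∈ Wd w G b

theorem abW_large {ι : Type} [Finite ι] (w : FreeGroup ι) (hw : w ≠ 1) (r : ℕ) :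
    ∃ p0 b, ∀ p, p.Prime → p0 ≤ p → AbW w p r b := by
  obtain ⟨p0, c, h1⟩ := struct_large w hw r
  obtain ⟨m, h2⟩ := cover w r c
  refine ⟨max p0 (m + 2), r * ((m + 1) * (m * 2 ^ (m + 2))),
    fun p hp hp0 G _ _ hG hr hW x hx => ?_⟩
  obtain ⟨N, hN, hWN, hV, hc⟩ := h1 p hp (le_of_max_le_left hp0) G hG hr hW
  refine h2 p 1 hp (Or.inl ⟨rfl, le_of_max_le_right hp0⟩) G hG hr N ⊤ hN inferInstance hc hWN
    hV hW x ?_
  refine (Subgroup.closure_le _).2 ?_ hx
  rintro _ ⟨a, rfl⟩
  exact Subgroup.subset_closure ⟨fun _ => 1, a, fun _ => trivial, by simp [lift_one]⟩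

theorem abW_fixed {ι : Type} [Finite ι] (w : FreeGroup ι) (hw : w ≠ 1) {p : ℕ} (hp : p.Prime)
    (r : ℕ) : ∃ b, AbW w p r b := by
  classical
  have := Fact.mk hp
  obtain ⟨e, c, h1⟩ := struct_fixed w hw hp r
  obtain ⟨m, h2⟩ := cover w r c
  obtain ⟨j, h3⟩ := concise w hp r c (r * e + (m + 1) * (r * (c + 1)))
  refine ⟨r * ((m + 1) * (m * 2 ^ (m + 2))) + r * p ^ j, fun G _ _ hG hr hW x hx => ?_⟩
  obtain ⟨N, hN, hWN, hV, hc⟩ := h1 G hG hr hW
  let f := QuotientGroup.mk' (incr w (phiIt p (⊤ : Subgroup G) e) (p ^ (m + 1)))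
  have hf : Function.Surjective f := QuotientGroup.mk'_surjective _
  refine Wd_of_quotient f hf (fun y hy => h2 p _ hp (Or.inr rfl) G hG hr N _ hN inferInstance hc
    hWN hV hW y ((QuotientGroup.eq_one_iff y).1 hy)) ?_
  have hG' := hG.of_surjective f hf
  have hr' := hr.of_surjective f hf
  have hN' : (N.map f).Normal := hN.map f hf
  have hV' : (phiIt p (⊤ : Subgroup G) e).map f = phiIt p ⊤ e := by
    rw [map_phiIt, Subgroup.map_top_of_surjective f hf]
  have hc' : (N.map f).lowerCentralSeries c = ⊥ := by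
    rw [← itc_eq_lcs, ← map_itc, itc_eq_lcs, hc, Subgroup.map_bot]
  have hVN := Subgroup.map_mono (f := f) hV
  rw [Subgroup.map_commutator, hV'] at hVN
  have hexp := h3 _ hG' hr' (N.map f) _ hN' (closure_pow_normal (p ^ (m + 1)) (phiIt p ⊤ e)) hc'
    (map_vs f hf w ▸ Subgroup.map_mono hWN) (by
      refine le_trans (Subgroup.commutator_mono ?_ ?_) hVN <;>
      · rw [Subgroup.closure_le]
        rintro _ ⟨x, hx, rfl⟩
        exact pow_mem hx _) (by
      have e1 := card_le_phiIt (p := p) hr' ⊤ e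
      have e2 := card_le_pow_closure hr' (pow_pos hp.pos (m + 1)) _ _ hc' hVN
      rw [Subgroup.card_top] at e1
      rw [pow_add p (r * e), mul_assoc (p ^ (r * e)), pow_mul p (m + 1)]
      exact e1.trans (Nat.mul_le_mul_left _ e2)) (marginal_closure w _ _ (by
      intro g a ha
      choose g' hg' using fun i => hf (g i)
      rw [← hV'] at ha
      choose a' ha' ha'' using ha
      obtain rfl : g = fun i => f (g' i) := funext fun i => (hg' i).symm
      simp only [← ha'', ← map_pow, ← map_mul, ← map_lift]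
      rw [← mul_inv_eq_one, ← map_inv, ← map_mul]
      exact (QuotientGroup.eq_one_iff _).2 (Subgroup.subset_closure ⟨g', a', ha', rfl⟩)))
  obtain ⟨y, hy, hy'⟩ := exists_fin_gen_subset hG' hr'
    (Set.range fun g => FreeGroup.lift g w) ⟨fun _ => 1, lift_one w⟩
  obtain ⟨v, hv⟩ := abelian_prod_form (D := vs w _) (by
    rw [← map_vs f hf, ← Subgroup.map_commutator, hW, Subgroup.map_bot]) y hy'
    (map_vs f hf w ▸ Subgroup.mem_map_of_mem f hx)
  rw [hv]
  have := prod_mem_Wd (w := w) (a := p ^ j) (List.ofFn fun i => y i ^ v i) (by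
    intro z hz
    obtain ⟨i, rfl⟩ := List.mem_ofFn.1 hz
    obtain ⟨g, hg⟩ := hy i
    have hpos : (0 : ℤ) < (p ^ j : ℕ) := by exact_mod_cast pow_pos hp.pos j
    simp only [← hg]
    rw [zpow_eq_zpow_emod' (v i) (hexp g),
      ← Int.toNat_of_nonneg (Int.emod_nonneg _ hpos.ne'), zpow_natCast]
    refine Wd_mono ?_ (pow_mem_Wd (lift_mem_Wd g) _)
    have := Int.emod_lt_of_pos (v i) hpos
    omega)
  simpa using this

theorem width_of_abW {ι : Type} {w : FreeGroup ι} {p r b : ℕ} (hp : p.Prime) (h : AbW w p r b)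
    (G : Type) [Group G] [Finite G] (hG : IsPGroup p G) (hr : RankLe G r) :
    ∀ x ∈ vs w G, x ∈ Wd w G (r * 2 + b) := by
  have := Fact.mk hp
  intro x hx
  let f := QuotientGroup.mk' ⁅vs w G, vs w G⁆
  have hf : Function.Surjective f := QuotientGroup.mk'_surjective _
  refine Wd_of_quotient f hf (fun y hy => ?_) (h _ (hG.of_surjective f hf)
    (hr.of_surjective f hf) ?_ _ (map_vs f hf w ▸ Subgroup.mem_map_of_mem f hx))
  · obtain ⟨z, hz, hz'⟩ := exists_fin_gen_subset hG hr
      (Set.range fun g => FreeGroup.lift g w) ⟨fun _ => 1, lift_one w⟩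
    obtain ⟨t, -, rfl⟩ := serre (H := vs w G) hG z hz' y ((QuotientGroup.eq_one_iff y).1 hy)
    have := prod_mem_Wd (w := w) (a := 2) ((List.finRange r).map fun i => ⁅t i, z i⁆) (by
      intro a ha
      obtain ⟨i, -, rfl⟩ := List.mem_map.1 ha
      obtain ⟨g, hg⟩ := hz i
      simp only [← hg]
      exact mul_mem_Wd (conj_mem_Wd (lift_mem_Wd g) _) (inv_mem_Wd (lift_mem_Wd g)))
    simpa using this
  · rw [← map_vs f hf, ← Subgroup.map_commutator, Subgroup.map_eq_bot_iff, QuotientGroup.ker_mk']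

theorem width_bound {ι : Type} [Finite ι] (w : FreeGroup ι) (r : ℕ) : ∃ m, ∀ p : ℕ, p.Prime →
    ∀ (G : Type) [Group G] [Finite G], IsPGroup p G → RankLe G r →
      ∀ x ∈ vs w G, x ∈ Wd w G m := by
  classical
  by_cases hw : w = 1
  · subst hw
    refine ⟨0, fun p _ G _ _ _ _ x hx => ?_⟩
    have : vs (1 : FreeGroup ι) G ≤ ⊥ := by
      rw [vs, Subgroup.closure_le]
      rintro _ ⟨g, rfl⟩
      simp
    rw [Subgroup.mem_bot.1 (this hx)]
    exact one_mem_Wd _
  obtain ⟨p0, b0, h0⟩ := abW_large w hw r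
  choose! b hb using fun (p : ℕ) (hp : p.Prime) => abW_fixed w hw hp r
  refine ⟨r * 2 + max b0 ((Finset.range p0).sup b), fun p hp G _ _ hG hr x hx => ?_⟩
  rcases le_or_gt p0 p with h | h
  · exact Wd_mono (by gcongr; exact le_max_left _ _) (width_of_abW hp (h0 p hp h) G hG hr x hx)
  · exact Wd_mono (by
      gcongr
      exact (Finset.le_sup (f := b) (Finset.mem_range.2 h)).trans (le_max_right _ _))
      (width_of_abW hp (hb p hp) G hG hr x hx)

end Pool.Agent.Lib.MP_2551c4_al
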